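import Pool.Agent.G3.A.Defs
import Pool.Agent.TG.XTan

/-!
# G4 A BadC: the set of the bad points is closed

`trans_open`: transversality to a smooth hypersurface is an open condition.  `ba_closed`: `Ba D B a` is closed if `B` is closed and `D` is a smooth hypersurface at the points outside `B`.
-/

set_option autoImplicit false

open Topology Filter Metric

namespace Pool.Agent.G4.A

open Pool.Agent.H36.BP (EN fs wd)
open Pool.Agent.AD (Vd Chart Charts IsGerm)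
open Pool.Agent.TG
open Pool.Agent.G3.A (Ba)

variable {N k : ℕ} {X : Set (EN N)} {Λ : AddSubgroup (Vd (k + 1))} {u : EN N → Vd (k + 1)} {D B : Set (Vd (k + 1))} {a : Vd (k + 1)}

/-- the transversality of `a` to the images of the hyperplane is an open condition -/
private theorem bc_lin {L₀ : Vd (k + 1) →L[ℂ] Vd (k + 1)} (hinj : Function.Injective L₀) (h : ∀ q : Vd (k + 1), q 0 = 0 → L₀ q ≠ a) :
    ∃ ε : ℝ, 0 < ε ∧ ∀ L : Vd (k + 1) →L[ℂ] Vd (k + 1), ‖L - L₀‖ ≤ ε → ∀ q : Vd (k + 1), q 0 = 0 → L q ≠ a := by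
  have hsurj : Function.Surjective L₀ := LinearMap.surjective_of_injective (f := (L₀ : Vd (k + 1) →ₗ[ℂ] Vd (k + 1))) hinj
  obtain ⟨b₀, hb₀⟩ := hsurj a
  have hb0 : b₀ 0 ≠ 0 := fun h0 => h b₀ h0 hb₀
  have hker : LinearMap.ker (L₀ : Vd (k + 1) →ₗ[ℂ] Vd (k + 1)) = ⊥ := LinearMap.ker_eq_bot.2 hinj
  obtain ⟨K, hK, hKa⟩ := (L₀ : Vd (k + 1) →ₗ[ℂ] Vd (k + 1)).exists_antilipschitzWith hker
  have hK0 : (0 : ℝ) < K := by exact_mod_cast hK
  have hanti : ∀ p : Vd (k + 1), ‖p‖ ≤ K * ‖L₀ p‖ := by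
    intro p
    have h1 := hKa.le_mul_dist p 0
    rw [dist_zero_right, map_zero, dist_zero_right] at h1
    exact h1
  have hb0' : 0 < ‖b₀ 0‖ := norm_pos_iff.2 hb0
  refine ⟨min (1 / (2 * K)) (‖b₀ 0‖ / (4 * K * K * (‖a‖ + 1))), lt_min (by positivity) (by positivity), fun L hL q hq hLq => ?_⟩
  have hL1 := hL.trans (min_le_left _ _)
  have hL2 := hL.trans (min_le_right _ _)
  have h1 : ‖(L - L₀) q‖ ≤ ‖L - L₀‖ * ‖q‖ := (L - L₀).le_opNorm q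
  have h2 : L₀ q = a - (L - L₀) q := by
    rw [← hLq, ContinuousLinearMap.sub_apply]
    abel
  -- the norm of `q`
  have h3 : ‖q‖ ≤ 2 * K * ‖a‖ := by
    have h4 := hanti q
    rw [h2] at h4
    have h5 := norm_sub_le a ((L - L₀) q)
    have h6 : ‖L - L₀‖ * ‖q‖ ≤ 1 / (2 * K) * ‖q‖ := mul_le_mul_of_nonneg_right hL1 (norm_nonneg _)
    have h7 : K * ‖a - (L - L₀) q‖ ≤ K * (‖a‖ + 1 / (2 * K) * ‖q‖) := mul_le_mul_of_nonneg_left (by linarith) hK0.le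
    have h8 : K * (‖a‖ + 1 / (2 * K) * ‖q‖) = K * ‖a‖ + ‖q‖ / 2 := by field_simp
    linarith
  -- the distance of `q` and `b₀`
  have h4 : ‖q - b₀‖ ≤ K * (‖L - L₀‖ * ‖q‖) := by
    refine (hanti (q - b₀)).trans (mul_le_mul_of_nonneg_left ?_ hK0.le)
    rw [map_sub, h2, hb₀, sub_sub_cancel_left, norm_neg]
    exact h1
  have h5 : ‖b₀ 0‖ ≤ ‖q - b₀‖ := by
    have h6 := norm_le_pi_norm (q - b₀) 0
    rw [Pi.sub_apply, hq, zero_sub, norm_neg] at h6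
    exact h6
  have h6 : K * (‖L - L₀‖ * ‖q‖) ≤ K * (‖b₀ 0‖ / (4 * K * K * (‖a‖ + 1)) * (2 * K * (‖a‖ + 1))) := by
    refine mul_le_mul_of_nonneg_left (mul_le_mul hL2 (h3.trans ?_) (norm_nonneg _) (by positivity)) hK0.le
    have : 0 ≤ 2 * (K : ℝ) := by positivity
    nlinarith
  have h7 : (K : ℝ) * (‖b₀ 0‖ / (4 * K * K * (‖a‖ + 1)) * (2 * K * (‖a‖ + 1))) = ‖b₀ 0‖ / 2 := by
    have h8 : 0 < ‖a‖ + 1 := by positivity
    field_simp
    ring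
  linarith

theorem trans_open {κ : Vd (k + 1) → Vd (k + 1)} {q : Vd (k + 1)} (hκ : IsCoord D κ q) (h : TransAt D q a) : ∀ᶠ y in 𝓝 q, y ∈ D → TransAt D y a := by
  have hsurj : Function.Surjective (fderiv ℂ κ 0) := LinearMap.surjective_of_injective (f := (fderiv ℂ κ 0 : Vd (k + 1) →ₗ[ℂ] Vd (k + 1))) hκ.inj
  have hmap : Filter.map κ (𝓝 0) = 𝓝 (κ 0) := by
    refine HasStrictFDerivAt.map_nhds_eq_of_surj (f' := fderiv ℂ κ 0) hκ.an.hasStrictFDerivAt ?_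
    exact LinearMap.range_eq_top.2 hsurj
  rw [hκ.zero] at hmap
  rw [← hmap, Filter.eventually_map]
  obtain ⟨ε, hε, hlin⟩ := bc_lin hκ.inj (h.2 κ hκ)
  have hc : ContinuousAt (fderiv ℂ κ) 0 := hκ.an.fderiv.continuousAt
  have h1 : ∀ᶠ q₀ in 𝓝 (0 : Vd (k + 1)), ‖fderiv ℂ κ q₀ - fderiv ℂ κ 0‖ ≤ ε := by
    have h2 := hc.tendsto.eventually (ball_mem_nhds _ hε)
    filter_upwards [h2] with q₀ h3
    rw [dist_eq_norm] at h3
    exact h3.le
  filter_upwards [h1, coord_move hκ, hκ.mem_iff] with q₀ h2 h3 h4 h5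
  have h6 := h3 (h4.1 h5)
  refine ⟨h.1, fun κ' hκ' p hp hpa => ?_⟩
  obtain ⟨p', hp', hpp'⟩ := coord_tangent hκ' h6 hp
  have h7 : fderiv ℂ (fun q => κ (q₀ + q)) 0 = fderiv ℂ κ q₀ := by
    have h8 := fderiv_comp_add_left (𝕜 := ℂ) (f := κ) (x := (0 : Vd (k + 1))) q₀
    rw [add_zero] at h8
    exact h8
  rw [h7, hpa] at hpp'
  exact hlin _ h2 p' hp' hpp'

theorem ba_closed (G : Geo X Λ u D B) (hB : IsClosed B) : IsClosed (Ba D B a) := by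
  rw [← isOpen_compl_iff, isOpen_iff_mem_nhds]
  intro q hq
  by_cases hqD : q ∈ D
  · have hq1 : ¬ (q ∈ B ∨ ¬ TransAt D q a) := fun h => hq ⟨hqD, h⟩
    push Not at hq1
    obtain ⟨κ, hκ, -⟩ := G.nc q hqD hq1.1
    have h1 : ∀ᶠ y in 𝓝 q, y ∉ B := hB.isOpen_compl.mem_nhds hq1.1
    filter_upwards [h1, trans_open hκ hq1.2] with y h2 h3 h4
    rcases h4.2 with h5 | h5
    · exact h2 h5
    · exact h5 (h3 h4.1)
  · have h1 : ∀ᶠ y in 𝓝 q, y ∉ D := G.D_closed.isOpen_compl.mem_nhds hqD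
    filter_upwards [h1] with y h2 h3
    exact h2 h3.1

end Pool.Agent.G4.A
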