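import Pool.Agent.G4.A.Defs
import Pool.Agent.G3.R.SDefs

/-!
# G4 A CmDefs: linear combinations of values on nearly equal curves

Curves `f i n` over the lines `y i n + ℂ a` (`i < M`), `y i n → y₀`, all converging to the curve `g` over `y₀ + ℂ a`; coefficients `c n i z`, entire in `z`, which may tend to infinity.

* `cX c f v n x = ∑ i, c n i x • nv v (f i n x)`: the combination in the affine chart of the unit vector `v` (`pr v = g x`).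
* `Cmb`: it is bounded (`bdd`) and, in the limit, linear (`lin`): for every analytic `F` near `(v, y₀ + x a)` the combination of the values `F (nv v (f i n x), y i n + x a)` is
  `fderiv ℂ F (v, y₀ + x a) (cX c f v n x, 0)` up to an error which tends to `0`.  So functions of `y` are killed.  Cases: two curves, coefficients `± e n z / d n`; divided differences of a sheet, divided by `Nb n → ∞`;
  differences of difference quotients of a sheet.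
* `MdX`: the maximum principle for `cX` in the limit, with an arbitrary holomorphic factor, from the circle in the core (of radius `≤ 3 / 8`) to the centre over `Gd D δ'`, with uniform constants.
* `Fch`: a chart of the fibre over `y₁` near `v`, with uniform constants: coordinate `h` along the fibres, inverse `Θ (h, y)`, primitives `Ψ j = Bj (h, y)` of the forms.
-/

set_option autoImplicit false

open Topology Filter Metric

namespace Pool.Agent.G4.A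

open Pool.Agent.H36.BP (EN fs wd)
open Pool.Agent.H14.PP (IsCone CurveAt Tan)
open Pool.Agent.H62.EF (MN pr)
open Pool.Agent.AD (Vd Chart Charts IsGerm)
open Pool.Agent.TG
open Pool.Agent.G3
open Pool.Agent.G3.A
open Pool.Agent.G3.R (Prm)
open Pool.Agent.G3.C (Gc nv nd nv_pr)

variable {N k : ℕ}

/-- the combination of the points `f i n x` in the chart `nv v` -/
noncomputable def cX {ι : Type*} {M : ℕ} (c : ι → Fin M → ℂ → ℂ) (f : Fin M → ι → ℂ → MN N) (v : EN N) (n : ι) (x : ℂ) : EN N := ∑ i, c n i x • nv v (f i n x)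

/-- linear combinations of nearly equal curves, bounded and linear in the limit -/
structure Cmb (X : Set (EN N)) (Λ : AddSubgroup (Vd (k + 1))) (u : EN N → Vd (k + 1)) (D : Set (Vd (k + 1))) (a : Vd (k + 1)) {ι : Type*} (𝒰 : Ultrafilter ι) {M : ℕ}
    (y : Fin M → ι → Vd (k + 1)) (y₀ : Vd (k + 1)) (f : Fin M → ι → ℂ → MN N) (g : ℂ → MN N) (c : ι → Fin M → ℂ → ℂ) : Prop where
  y_lim : ∀ i, Tendsto (y i) 𝒰 (𝓝 y₀)
  f_mem : ∀ i, ∀ᶠ n in (𝒰 : Filter ι), f i n ∈ Hc X Λ u a (y i n)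
  g_mem : g ∈ Hc X Λ u a y₀
  lm : ∀ i, Lm D a 𝒰 y₀ (f i) g
  c_diff : ∀ᶠ n in (𝒰 : Filter ι), ∀ i, Differentiable ℂ (c n i)
  bdd : ∀ x : ℂ, y₀ + x • a ∉ D → ∀ v : EN N, ‖v‖ = 1 → pr v = g x → ∃ t C : ℝ, 0 < t ∧ ∀ᶠ n in (𝒰 : Filter ι), ∀ x' ∈ ball x t, ‖cX c f v n x'‖ ≤ C
  lin : ∀ x : ℂ, y₀ + x • a ∉ D → ∀ v : EN N, ‖v‖ = 1 → pr v = g x → ∀ F : EN N × Vd (k + 1) → ℂ, AnalyticAt ℂ F (v, y₀ + x • a) → ∀ ε : ℝ, 0 < ε → ∃ t : ℝ, 0 < t ∧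
    ∀ᶠ n in (𝒰 : Filter ι), ∀ x' ∈ ball x t, ‖(∑ i, c n i x' * F (nv v (f i n x'), y i n + x' • a)) - fderiv ℂ F (v, y₀ + x • a) (cX c f v n x', 0)‖ ≤ ε

/-- the maximum principle for the combinations, in the limit -/
def MdX (D : Set (Vd (k + 1))) (a : Vd (k + 1)) {ι : Type*} (𝒰 : Ultrafilter ι) {M : ℕ} (y₀ : Vd (k + 1)) (f : Fin M → ι → ℂ → MN N) (g : ℂ → MN N)
    (c : ι → Fin M → ℂ → ℂ) (δ : ℝ) : Prop :=
  ∀ δ' : ℝ, 0 < δ' → ∃ C : ℝ, 0 < C ∧ ∀ z : ℂ, y₀ + z • a ∈ Gd D δ' → ∀ g₁ : ℂ → ℂ, DifferentiableOn ℂ g₁ (ball z (1 / 2)) → ∀ b : ℝ, 0 < b →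
    (∀ z' : ℂ, ‖z' - z‖ ≤ 3 / 8 → y₀ + z' • a ∈ Gd D (2 * δ) → ∀ v : EN N, ‖v‖ = 1 → pr v = g z' → ∀ w : ι → ℂ, Tendsto w 𝒰 (𝓝 z') →
      ∀ᶠ n in (𝒰 : Filter ι), ‖cX c f v n (w n)‖ * ‖g₁ z'‖ ≤ b) →
    ∀ v : EN N, ‖v‖ = 1 → pr v = g z → ∀ᶠ n in (𝒰 : Filter ι), ‖cX c f v n z‖ * ‖g₁ z‖ ≤ C * b

/-- a chart of the fibre over `y₁` near the unit vector `v`, with the constants `K`, `c₁` -/
structure Fch {X : Set (EN N)} {Λ : AddSubgroup (Vd (k + 1))} {u : EN N → Vd (k + 1)} {J r : ℕ} (W : Fin r → Vd (k + 1) →L[ℂ] ℂ) (α : Fin J → VForm X Λ u) (y₁ : Vd (k + 1)) (v : EN N)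
    (K c₁ R : ℝ) (h : EN N → ℂ) (Θ : ℂ × Vd (k + 1) → EN N) (Ψ : Fin J → EN N → ℂ) (Bj : Fin J → ℂ × Vd (k + 1) → ℂ) : Prop where
  h_an : AnalyticAt ℂ h v
  h_bd : ‖fderiv ℂ h v‖ ≤ K
  Θ_an : AnalyticAt ℂ Θ (h v, y₁)
  Θ_bd : ‖fderiv ℂ Θ (h v, y₁) (1, 0)‖ ≤ K
  R_pos : 0 < R
  prm : ∀ j, Prm (α j) y₁ v R (Ψ j)
  B_an : ∀ j, AnalyticAt ℂ (Bj j) (h v, y₁)
  B_ub : ∀ j, ‖fderiv ℂ (Bj j) (h v, y₁) (1, 0)‖ ≤ K * Real.exp (-wt W y₁)
  B_lb : ∃ j, c₁ * Real.exp (-wt W y₁) ≤ ‖fderiv ℂ (Bj j) (h v, y₁) (1, 0)‖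
  eq : ∀ y ∈ ball y₁ R, ∀ x ∈ X, x ∈ ball v R → u x - y ∈ Λ → (inner ℂ v x = (1 : ℂ) → Θ (h x, y) = x) ∧ ∀ j, Bj j (h x, y) = Ψ j x

end Pool.Agent.G4.A
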