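import Pool.Agent.G4.A.CmDefs
import Pool.Agent.G4.A.GeoC
import Pool.Agent.G3.R.Nv

/-!
# G4 A MdA: the maximum principle for linear combinations of nearly equal curves

`md_all`: `MdX` holds for every `Cmb`.  PROOF.  `F j` normalised lifts of the curves `f j n` on `ball z 2`, `V = ∑ i, c i • (∏ j ≠ i, ⟨v, F j⟩) • F i`, equal to `(∏ j, ⟨v, F j⟩) • cX c f v`
where all factors are `≠ 0`; a circle `‖x - z‖ = r'` over `Gd D (2 δ)` without zeros of `⟨v, G₀⟩`, `G₀` a lift of `g`.  If the bound `3 b` failed on the circle at points `x n → x₀` then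
`cX c f v' n (x n) → a₀`, `‖a₀‖ ‖g₁ x₀‖ ≤ b` (`v'` the unit vector of `g x₀`) and `cX c f v n (x n) → Lf v v' a₀` (`MdA_seq`, from `Cmb.lin`), `‖Lf v v' a₀‖ ≤ (q⁻¹ + q⁻¹ ^ 2) ‖a₀‖`, `q = |⟨v, v'⟩|`, while
`|∏ j, ⟨v, F j⟩| ≤ ∏ j, √|nd v (f j n)| → q ^ M`; for `M ≥ 2` the limit of `‖V‖ ‖g₁‖` is at most `2 b`: contradiction.  For `M ≤ 1` the coefficients tend to `0` (`Cmb.lin` with `F = 1`).
-/

set_option autoImplicit false

open Topology Filter Metric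

namespace Pool.Agent.G4.A

open Pool.Agent.H36.BP (EN fs wd)
open Pool.Agent.H14.PP (IsCone CurveAt Tan)
open Pool.Agent.H62.EF (MN pr pr_smul)
open Pool.Agent.AD (Vd Chart Charts IsGerm)
open Pool.Agent.TG
open Pool.Agent.G3
open Pool.Agent.G3.A
open Pool.Agent.G3.R (nv_nv nv_self)
open Pool.Agent.G3.C (Gc nv nd nv_pr nd_cont nd_pr_ne nv_continuousAt)

variable {N k : ℕ} {X : Set (EN N)} {Λ : AddSubgroup (Vd (k + 1))} {u : EN N → Vd (k + 1)} {D B Bad : Set (Vd (k + 1))} {a : Vd (k + 1)}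

/-- a circle without zeros -/
private theorem MdA_circle {g : ℂ → ℂ} (hg : Differentiable ℂ g) (h0 : g 0 ≠ 0) {r₁ r₂ : ℝ} (h12 : r₁ < r₂) :
    ∃ r : ℝ, r₁ < r ∧ r < r₂ ∧ ∀ z : ℂ, ‖z‖ = r → g z ≠ 0 := by
  have hZ : {z : ℂ | g z = 0}.Countable := by
    have hd : DiscreteTopology {z : ℂ | g z = 0} := by
      rw [discreteTopology_subtype_iff]
      intro z hz
      rw [Filter.inf_principal_eq_bot]
      rcases (hg.analyticAt z).eventually_eq_zero_or_eventually_ne_zero with h | h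
      · exfalso
        have h2 : AnalyticOnNhd ℂ g Set.univ := fun w _ => hg.analyticAt w
        have h3 := h2.eqOn_zero_of_preconnected_of_eventuallyEq_zero isPreconnected_univ (Set.mem_univ z) h
        exact h0 (h3 (Set.mem_univ 0))
      · filter_upwards [h] with w hw hw2
        exact hw hw2
    rw [← Set.countable_coe_iff]
    exact countable_of_Lindelof_of_discrete
  have h1 : ((fun z : ℂ => ‖z‖) '' {z : ℂ | g z = 0}).Countable := hZ.image _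
  have h2 : ¬ (Set.Ioo r₁ r₂).Countable := by
    intro h
    have := Cardinal.mk_Ioo_real h12
    have h4 := Cardinal.le_aleph0_iff_set_countable.2 h
    rw [this] at h4
    exact absurd h4 (not_le.2 Cardinal.aleph0_lt_continuum)
  have h3 : ∃ r ∈ Set.Ioo r₁ r₂, r ∉ (fun z : ℂ => ‖z‖) '' {z : ℂ | g z = 0} := by
    by_contra hcon
    push Not at hcon
    exact h2 (h1.mono fun r hr => hcon r hr)
  obtain ⟨r, hr, hr2⟩ := h3
  exact ⟨r, hr.1, hr.2, fun z hz hgz => hr2 ⟨z, hgz, hz⟩⟩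

private theorem MdA_row (v x : EN N) (i : Fin (N + 1)) : ∑ j, pr x (i, j) * v j = (inner ℂ x v / ((‖x‖ ^ 2 : ℝ) : ℂ)) * x i := by
  have e : ∀ x y : EN N, (inner ℂ x y : ℂ) = ∑ j, (starRingEnd ℂ) (x j) * y j := by
    intro x y
    rw [PiLp.inner_apply]
    refine Finset.sum_congr rfl fun j _ => ?_
    rw [RCLike.inner_apply]
    ring
  rw [e, Finset.sum_div, Finset.sum_mul]
  refine Finset.sum_congr rfl fun j _ => ?_
  simp only [pr]
  ring

private theorem MdA_nd (v x : EN N) : nd v (pr x) = (inner ℂ x v / ((‖x‖ ^ 2 : ℝ) : ℂ)) * inner ℂ v x := by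
  have e : ∀ x y : EN N, (inner ℂ x y : ℂ) = ∑ j, (starRingEnd ℂ) (x j) * y j := by
    intro x y
    rw [PiLp.inner_apply]
    refine Finset.sum_congr rfl fun j _ => ?_
    rw [RCLike.inner_apply]
    ring
  unfold nd
  rw [e v x, Finset.mul_sum]
  refine Finset.sum_congr rfl fun i _ => ?_
  have h := MdA_row v x i
  calc ∑ j, (starRingEnd ℂ) (v i) * pr x (i, j) * v j = (starRingEnd ℂ) (v i) * ∑ j, pr x (i, j) * v j := by
        rw [Finset.mul_sum]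
        exact Finset.sum_congr rfl fun j _ => by ring
    _ = _ := by rw [h]; ring

private theorem MdA_ndn {v x : EN N} (hx : x ≠ 0) : ‖(inner ℂ v x : ℂ)‖ ^ 2 = ‖nd v (pr x)‖ * ‖x‖ ^ 2 := by
  have hx1 : 0 < ‖x‖ := norm_pos_iff.2 hx
  have h2 : ‖(((‖x‖ ^ 2 : ℝ)) : ℂ)‖ = ‖x‖ ^ 2 := by rw [Complex.norm_real, Real.norm_of_nonneg (by positivity)]
  rw [MdA_nd, norm_mul, norm_div, h2, norm_inner_symm x v]
  field_simp

private theorem MdA_inner_le {v x : EN N} (hx : x ≠ 0) (hx1 : ‖x‖ ≤ 1) : ‖(inner ℂ v x : ℂ)‖ ≤ Real.sqrt ‖nd v (pr x)‖ := by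
  refine Real.le_sqrt_of_sq_le ?_
  rw [MdA_ndn hx]
  refine mul_le_of_le_one_right (norm_nonneg _) ?_
  exact pow_le_one₀ (norm_nonneg _) hx1

/-- the derivative of the change of the chart -/
noncomputable def Lf (v v' h : EN N) : EN N := (inner ℂ v v' : ℂ)⁻¹ • h - (((inner ℂ v v' : ℂ)⁻¹ ^ 2) * inner ℂ v h) • v'

private theorem MdA_Lf {v v' h : EN N} (hv : ‖v‖ = 1) (hv' : ‖v'‖ = 1) :
    ‖Lf v v' h‖ ≤ (‖(inner ℂ v v' : ℂ)‖⁻¹ + ‖(inner ℂ v v' : ℂ)‖⁻¹ ^ 2) * ‖h‖ := by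
  unfold Lf
  refine (norm_sub_le _ _).trans ?_
  rw [norm_smul, norm_smul, norm_mul, norm_pow, norm_inv, hv', mul_one, add_mul]
  have h1 : ‖(inner ℂ v h : ℂ)‖ ≤ ‖h‖ := by
    have := norm_inner_le_norm (𝕜 := ℂ) v h
    rwa [hv, one_mul] at this
  have h2 : 0 ≤ ‖(inner ℂ v v' : ℂ)‖⁻¹ ^ 2 := by positivity
  have := mul_le_mul_of_nonneg_left h1 h2
  linarith

private theorem MdA_Lf_cont (v v' : EN N) : Continuous fun h : EN N => Lf v v' h := by
  have h1 : Continuous fun h : EN N => (inner ℂ v h : ℂ) := (innerSL ℂ v).continuous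
  unfold Lf
  fun_prop

private theorem MdA_fd {v v' : EN N} (hq : (inner ℂ v v' : ℂ) ≠ 0) (y : Vd (k + 1)) (j : Fin (N + 1)) :
    AnalyticAt ℂ (fun p : EN N × Vd (k + 1) => p.1 j * (inner ℂ v p.1 : ℂ)⁻¹) (v', y) ∧
      ∀ h : EN N, fderiv ℂ (fun p : EN N × Vd (k + 1) => p.1 j * (inner ℂ v p.1 : ℂ)⁻¹) (v', y) (h, 0) = Lf v v' h j := by
  let A : EN N × Vd (k + 1) →L[ℂ] ℂ := (EuclideanSpace.proj j).comp (ContinuousLinearMap.fst ℂ (EN N) (Vd (k + 1)))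
  let Bv : EN N × Vd (k + 1) →L[ℂ] ℂ := (innerSL ℂ v).comp (ContinuousLinearMap.fst ℂ (EN N) (Vd (k + 1)))
  have hA : ∀ p, A p = p.1 j := fun p => rfl
  have hB : ∀ p, Bv p = (inner ℂ v p.1 : ℂ) := fun p => rfl
  have hBne : Bv (v', y) ≠ 0 := hq
  refine ⟨(A.analyticAt _).fun_mul ((Bv.analyticAt _).fun_inv hBne), fun h => ?_⟩
  have h1 : HasFDerivAt (fun p => (Bv p)⁻¹) ((-((Bv (v', y)) ^ 2)⁻¹) • Bv) (v', y) :=
    (hasDerivAt_inv hBne).comp_hasFDerivAt (v', y) Bv.hasFDerivAt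
  have h2 := (A.hasFDerivAt (x := (v', y))).mul h1
  have h3 : fderiv ℂ (fun p : EN N × Vd (k + 1) => p.1 j * (inner ℂ v p.1 : ℂ)⁻¹) (v', y) = _ := h2.fderiv
  rw [h3]
  simp only [add_apply, smul_apply, smul_eq_mul, hA, hB]
  unfold Lf
  rw [PiLp.sub_apply, PiLp.smul_apply, PiLp.smul_apply, smul_eq_mul, smul_eq_mul]
  ring

/-- the change of the chart in the limit -/
private theorem MdA_seq {ι : Type*} {𝒰 : Ultrafilter ι} {M : ℕ} {y : Fin M → ι → Vd (k + 1)} {y₀ : Vd (k + 1)} {f : Fin M → ι → ℂ → MN N} {g : ℂ → MN N} {c : ι → Fin M → ℂ → ℂ}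
    (h0X : (0 : EN N) ∉ X) (hC : Cmb X Λ u D a 𝒰 y y₀ f g c) {x : ℂ} (hx : y₀ + x • a ∉ D) {v v' : EN N} (hv' : ‖v'‖ = 1) (hpv : pr v' = g x) (hq : (inner ℂ v v' : ℂ) ≠ 0)
    {w : ι → ℂ} (hw : Tendsto w 𝒰 (𝓝 x)) {a₀ : EN N} (ha₀ : Tendsto (fun n => cX c f v' n (w n)) 𝒰 (𝓝 a₀)) :
    Tendsto (fun n => cX c f v n (w n)) 𝒰 (𝓝 (Lf v v' a₀)) := by
  have hv'0 : v' ≠ 0 := norm_pos_iff.1 (by rw [hv']; exact one_pos)
  have hself : (inner ℂ v' v' : ℂ) ≠ 0 := by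
    rw [inner_self_eq_norm_sq_to_K, hv']
    simp
  -- the curves are near `pr v'`
  have hnd : ∀ (v'' : EN N), (inner ℂ v'' v' : ℂ) ≠ 0 → ∀ i, ∀ᶠ n in (𝒰 : Filter ι), nd v'' (f i n (w n)) ≠ 0 := by
    intro v'' hv'' i
    have h1 : Tendsto (fun n => nd v'' (f i n (w n))) 𝒰 (𝓝 (nd v'' (g x))) := ((nd_cont v'').tendsto _).comp (hC.lm i x hx w hw)
    refine h1.eventually_ne ?_
    rw [← hpv]
    exact (nd_pr_ne hv'0).2 hv''
  have hev : ∀ᶠ n in (𝒰 : Filter ι), ∀ i, nv v (f i n (w n)) = (inner ℂ v (nv v' (f i n (w n))) : ℂ)⁻¹ • nv v' (f i n (w n)) := by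
    rw [Filter.eventually_all]
    intro i
    filter_upwards [hnd v hq i, hnd v' hself i, hC.f_mem i] with n h1 h2 h3
    obtain ⟨G, ⟨-, hGX, -⟩, hGe⟩ := h3
    have hG0 : G (w n) ≠ 0 := fun h => h0X (h ▸ hGX _)
    have e : f i n (w n) = pr (G (w n)) := congrFun hGe _
    rw [e] at h1 h2 ⊢
    exact nv_nv ((nd_pr_ne hG0).1 h1) ((nd_pr_ne hG0).1 h2)
  have hco : ∀ j, Tendsto (fun n => (cX c f v n (w n)) j) 𝒰 (𝓝 (Lf v v' a₀ j)) := by
    intro j
    obtain ⟨hFa, hFd⟩ := MdA_fd hq (y₀ + x • a) j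
    have h1 : Tendsto (fun n => (∑ i, c n i (w n) * ((nv v' (f i n (w n))) j * (inner ℂ v (nv v' (f i n (w n))) : ℂ)⁻¹)) - Lf v v' (cX c f v' n (w n)) j) 𝒰 (𝓝 0) := by
      rw [Metric.tendsto_nhds]
      intro ε hε
      obtain ⟨t, ht, h2⟩ := hC.lin x hx v' hv' hpv _ hFa (ε / 2) (by positivity)
      filter_upwards [h2, hw.eventually (ball_mem_nhds x ht)] with n h3 h4
      have h5 := h3 (w n) h4
      rw [hFd] at h5
      rw [dist_zero_right]
      exact lt_of_le_of_lt h5 (by linarith)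
    have h2 : Tendsto (fun n => Lf v v' (cX c f v' n (w n)) j) 𝒰 (𝓝 (Lf v v' a₀ j)) := by
      have h3 : Continuous fun h : EN N => Lf v v' h j := (PiLp.continuous_apply 2 _ j).comp (MdA_Lf_cont v v')
      exact (h3.tendsto a₀).comp ha₀
    have h3 := h1.add h2
    rw [zero_add] at h3
    refine h3.congr' ?_
    filter_upwards [hev] with n hn
    rw [sub_add_cancel]
    unfold cX
    have e : (∑ i, c n i (w n) • nv v (f i n (w n))) j = ∑ i, (c n i (w n) • nv v (f i n (w n))) j := by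
      exact map_sum (EuclideanSpace.proj j : EN N →L[ℂ] ℂ) _ _
    rw [e]
    refine Finset.sum_congr rfl fun i _ => ?_
    rw [PiLp.smul_apply, hn i, PiLp.smul_apply, smul_eq_mul, smul_eq_mul]
    ring
  have h1 : Tendsto (fun n => (WithLp.toLp 2 fun j => (cX c f v n (w n)) j : EN N)) 𝒰 (𝓝 (WithLp.toLp 2 fun j => Lf v v' a₀ j)) :=
    ((PiLp.continuous_toLp 2 _).tendsto _).comp (tendsto_pi_nhds.2 hco)
  exact h1

/-- common denominators -/
private theorem MdA_alg {M : ℕ} {c : Fin M → ℂ} {F : Fin M → EN N} {v : EN N} (h : ∀ i, (inner ℂ v (F i) : ℂ) ≠ 0) :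
    ∑ i, c i • (∏ j ∈ Finset.univ.erase i, (inner ℂ v (F j) : ℂ)) • F i = (∏ j, (inner ℂ v (F j) : ℂ)) • ∑ i, c i • nv v (pr (F i)) := by
  rw [Finset.smul_sum]
  refine Finset.sum_congr rfl fun i _ => ?_
  rw [nv_pr (h i), ← Finset.mul_prod_erase _ _ (Finset.mem_univ i), smul_smul, smul_smul, smul_smul]
  congr 1
  have := h i
  field_simp

/-- the case of at most one curve: the combination tends to zero -/
private theorem MdA_one {ι : Type*} {𝒰 : Ultrafilter ι} {M : ℕ} {y : Fin M → ι → Vd (k + 1)} {y₀ : Vd (k + 1)} {f : Fin M → ι → ℂ → MN N} {g : ℂ → MN N} {c : ι → Fin M → ℂ → ℂ}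
    (hM : M ≤ 1) (hC : Cmb X Λ u D a 𝒰 y y₀ f g c) {z : ℂ} (hz : y₀ + z • a ∉ D) {v : EN N} (hv : ‖v‖ = 1) (hpv : pr v = g z) :
    Tendsto (fun n => cX c f v n z) 𝒰 (𝓝 0) := by
  have hv0 : v ≠ 0 := norm_pos_iff.1 (by rw [hv]; exact one_pos)
  have hself : (inner ℂ v v : ℂ) ≠ 0 := by
    rw [inner_self_eq_norm_sq_to_K, hv]
    simp
  have h1 : Tendsto (fun n => ∑ i, c n i z) 𝒰 (𝓝 0) := by
    rw [Metric.tendsto_nhds]
    intro ε hε
    obtain ⟨t, ht, h2⟩ := hC.lin z hz v hv hpv (fun _ => 1) analyticAt_const (ε / 2) (by positivity)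
    filter_upwards [h2] with n h3
    have h4 := h3 z (mem_ball_self ht)
    simp only [mul_one, fderiv_const_apply, zero_apply, sub_zero] at h4
    rw [dist_zero_right]
    exact lt_of_le_of_lt h4 (by linarith)
  interval_cases M
  · simp [cX]
  · have h2 : Tendsto (fun n => nv v (f 0 n z)) 𝒰 (𝓝 v) := by
      have h3 : Tendsto (fun n => f 0 n z) 𝒰 (𝓝 (pr v)) := by
        rw [hpv]
        exact hC.lm 0 z hz (fun _ => z) tendsto_const_nhds
      have h4 : ContinuousAt (nv v) (pr v) := nv_continuousAt ((nd_pr_ne hv0).2 hself)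
      have h5 := h4.tendsto.comp h3
      rwa [nv_self hv] at h5
    have h3 := h1.smul h2
    rw [zero_smul] at h3
    refine h3.congr fun n => ?_
    simp [cX]

/-- **The maximum principle for the combinations.** -/
theorem md_all {Γ : AddSubgroup (Vd (k + 1))} {J rW : ℕ} {W : Fin rW → Vd (k + 1) →L[ℂ] ℂ} {α : Fin J → VForm X Λ u} {c₀ C₀ ρ δ : ℝ} (S : DA X Λ u D B Bad a Γ W α c₀ C₀ ρ δ)
    {ι : Type*} {𝒰 : Ultrafilter ι} {M : ℕ} {y : Fin M → ι → Vd (k + 1)} {y₀ : Vd (k + 1)} {f : Fin M → ι → ℂ → MN N} {g : ℂ → MN N} {c : ι → Fin M → ℂ → ℂ}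
    (hC : Cmb X Λ u D a 𝒰 y y₀ f g c) : MdX D a 𝒰 y₀ f g c δ := by
  classical
  intro δ' hδ'
  have h0X : (0 : EN N) ∉ X := S.geo.cone.zero_notMem
  obtain ⟨cN, hcN, hnl⟩ := S.nl (δ' / 2) (by positivity)
  refine ⟨3 * (2 / cN) ^ M, by positivity, fun z hz g₁ hg₁ b hb hyp v hv hpv => ?_⟩
  have hzD : y₀ + z • a ∉ D := gd_notMem hδ' hz
  rcases le_or_gt M 1 with hM | hM
  · -- at most one curve
    have h1 := (MdA_one hM hC hzD hv hpv).norm.mul_const ‖g₁ z‖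
    rw [norm_zero, zero_mul] at h1
    exact (h1.eventually_lt_const (by positivity : (0 : ℝ) < 3 * (2 / cN) ^ M * b)).mono fun n hn => hn.le
  have hv0 : v ≠ 0 := norm_pos_iff.1 (by rw [hv]; exact one_pos)
  -- the circle
  obtain ⟨G₀, ⟨hG₀d, hG₀X, -⟩, hG₀e⟩ := hC.g_mem
  have hG₀0 : ∀ z, G₀ z ≠ 0 := fun z h0 => h0X (h0 ▸ hG₀X z)
  have hgG : ∀ z, g z = pr (G₀ z) := fun z => congrFun hG₀e z
  obtain ⟨rc, hrc0, hrc2, hthick⟩ := S.lc.thick (y₀ + z • a)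
  have hδ := S.lc.δ_pos
  have hgd : Differentiable ℂ fun x : ℂ => (inner ℂ v (G₀ (z + x)) : ℂ) :=
    (innerSL ℂ v).differentiable.comp (hG₀d.comp (differentiable_id.const_add z))
  have hself : (inner ℂ v v : ℂ) ≠ 0 := by
    rw [inner_self_eq_norm_sq_to_K, hv]
    simp
  have hg0 : (inner ℂ v (G₀ (z + 0)) : ℂ) ≠ 0 := by
    rw [add_zero]
    have h1 : nd v (pr v) ≠ 0 := (nd_pr_ne hv0).2 hself
    rw [hpv, hgG] at h1
    exact (nd_pr_ne (hG₀0 z)).1 h1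
  obtain ⟨r', hr'1, hr'2, hr'0⟩ := MdA_circle hgd hg0 (lt_add_of_pos_right rc hδ)
  have hr'pos : 0 < r' := hrc0.trans hr'1
  have hr'le : r' ≤ 3 / 8 := by
    have h1 := S.lc.ρ_le
    have h2 := S.lc.δ_le
    linarith
  have hcore : ∀ x : ℂ, ‖x - z‖ = r' → y₀ + x • a ∈ Gd D (2 * δ) := by
    intro x hx
    have h1 := hthick (y₀ + z • a) (by rw [sub_self, norm_zero]; exact hδ.le) (x - z) (by rw [hx, abs_of_pos (by linarith)]; linarith)
    have e : y₀ + z • a + (x - z) • a = y₀ + x • a := by rw [sub_smul]; abel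
    rw [e] at h1
    exact h1
  -- the lifts
  have hF : ∀ (i : Fin M) (n : ι), ∃ F : ℂ → EN N, f i n ∈ Hc X Λ u a (y i n) → DifferentiableOn ℂ F (ball z 2) ∧
      (∀ x ∈ ball z 2, F x ∈ X ∧ f i n x = pr (F x) ∧ ‖F x‖ ≤ 1) ∧ ∀ x ∈ closedBall z 1, y i n + x • a ∈ Gd D (δ' / 2) → cN ≤ ‖F x‖ := by
    intro i n
    by_cases h : f i n ∈ Hc X Λ u a (y i n)
    · obtain ⟨F, hF⟩ := hnl (y i n) (f i n) h z
      exact ⟨F, fun _ => hF⟩
    · exact ⟨fun _ => 0, fun h' => absurd h' h⟩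
  choose F hF using hF
  have hmem : ∀ᶠ n in (𝒰 : Filter ι), ∀ i, f i n ∈ Hc X Λ u a (y i n) := Filter.eventually_all.2 hC.f_mem
  set V : ι → ℂ → EN N := fun n x => ∑ i, c n i x • (∏ j ∈ Finset.univ.erase i, (inner ℂ v (F j n x) : ℂ)) • F i n x with hV
  have hVeq : ∀ n, (∀ i, f i n ∈ Hc X Λ u a (y i n)) → ∀ x ∈ ball z 2, (∀ i, nd v (f i n x) ≠ 0) → V n x = (∏ j, (inner ℂ v (F j n x) : ℂ)) • cX c f v n x := by
    intro n hn x hx hne
    have h1 : ∀ i, f i n x = pr (F i n x) := fun i => ((hF i n (hn i)).2.1 x hx).2.1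
    have h2 : ∀ i, (inner ℂ v (F i n x) : ℂ) ≠ 0 := by
      intro i
      have h3 : F i n x ≠ 0 := fun h => h0X (h ▸ ((hF i n (hn i)).2.1 x hx).1)
      have h4 := hne i
      rw [h1 i] at h4
      exact (nd_pr_ne h3).1 h4
    have h3 := MdA_alg (c := fun i => c n i x) h2
    rw [hV]
    refine h3.trans ?_
    unfold cX
    congr 1
    exact Finset.sum_congr rfl fun i _ => by rw [h1 i]
  have hVd : ∀ n, (∀ i, f i n ∈ Hc X Λ u a (y i n)) → (∀ i, Differentiable ℂ (c n i)) → DifferentiableOn ℂ (V n) (ball z 2) := by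
    intro n hn hc
    have hin : ∀ j, DifferentiableOn ℂ (fun x => (inner ℂ v (F j n x) : ℂ)) (ball z 2) := fun j => (innerSL ℂ v).differentiable.comp_differentiableOn (hF j n (hn j)).1
    refine DifferentiableOn.fun_sum fun i _ => ?_
    exact (hc i).differentiableOn.fun_smul ((DifferentiableOn.fun_finsetProd fun j _ => hin j).fun_smul (hF i n (hn i)).1)
  -- the bound on the circle
  have hcirc : ∀ᶠ n in (𝒰 : Filter ι), ∀ x : ℂ, ‖x - z‖ = r' → ‖V n x‖ * ‖g₁ x‖ ≤ 3 * b := by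
    by_contra hcon
    rw [← Ultrafilter.eventually_not] at hcon
    have h1 : ∀ n, ∃ x : ℂ, ‖x - z‖ = r' ∧ ((¬ ∀ x : ℂ, ‖x - z‖ = r' → ‖V n x‖ * ‖g₁ x‖ ≤ 3 * b) → 3 * b < ‖V n x‖ * ‖g₁ x‖) := by
      intro n
      by_cases h : ∀ x : ℂ, ‖x - z‖ = r' → ‖V n x‖ * ‖g₁ x‖ ≤ 3 * b
      · refine ⟨z + r', ?_, fun h' => absurd h h'⟩
        rw [add_sub_cancel_left, Complex.norm_real, Real.norm_of_nonneg hr'pos.le]
      · have h' := h
        push Not at h'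
        obtain ⟨x, hx1, hx2⟩ := h'
        exact ⟨x, hx1, fun _ => hx2⟩
    choose xs hxs1 hxs2 using h1
    obtain ⟨x₀, hx₀, hlim⟩ : ∃ x₀ ∈ sphere z r', (𝒰.map xs : Filter ℂ) ≤ 𝓝 x₀ := by
      refine (isCompact_sphere z r').ultrafilter_le_nhds (𝒰.map xs) ?_
      rw [le_principal_iff]
      have h2 : ∀ᶠ n in (𝒰 : Filter ι), xs n ∈ sphere z r' := Eventually.of_forall fun n => by
        rw [mem_sphere, dist_eq_norm]
        exact hxs1 n
      exact h2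
    have hxs : Tendsto xs 𝒰 (𝓝 x₀) := hlim
    have hx₀r : ‖x₀ - z‖ = r' := by rw [← dist_eq_norm]; exact hx₀
    have hx₀G := hcore x₀ hx₀r
    have hx₀D : y₀ + x₀ • a ∉ D := gd_notMem (by positivity) hx₀G
    -- the unit vector
    set v' : EN N := ((‖G₀ x₀‖⁻¹ : ℝ) : ℂ) • G₀ x₀ with hv'
    have hGn : 0 < ‖G₀ x₀‖ := norm_pos_iff.2 (hG₀0 x₀)
    have hcne : ((‖G₀ x₀‖⁻¹ : ℝ) : ℂ) ≠ 0 := by exact_mod_cast inv_ne_zero hGn.ne'
    have hv'1 : ‖v'‖ = 1 := by rw [hv', norm_smul, Complex.norm_real, norm_inv, norm_norm, inv_mul_cancel₀ hGn.ne']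
    have hv'0 : v' ≠ 0 := norm_pos_iff.1 (by rw [hv'1]; exact one_pos)
    have hpv' : pr v' = g x₀ := by rw [hv', pr_smul _ hcne, hgG]
    have hq : (inner ℂ v v' : ℂ) ≠ 0 := by
      have h2 := hr'0 (x₀ - z) hx₀r
      have e : z + (x₀ - z) = x₀ := by ring
      rw [e] at h2
      rw [hv', inner_smul_right]
      exact mul_ne_zero hcne h2
    set q : ℝ := ‖(inner ℂ v v' : ℂ)‖ with hqd
    have hq0 : 0 < q := norm_pos_iff.2 hq
    have hq1 : q ≤ 1 := by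
      have := norm_inner_le_norm (𝕜 := ℂ) v v'
      rwa [hv, hv'1, one_mul] at this
    -- the limit of the combinations
    obtain ⟨t, C, ht, hbd⟩ := hC.bdd x₀ hx₀D v' hv'1 hpv'
    obtain ⟨a₀, -, hlim2⟩ : ∃ a₀ ∈ closedBall (0 : EN N) C, (𝒰.map fun n => cX c f v' n (xs n) : Filter (EN N)) ≤ 𝓝 a₀ := by
      refine (isCompact_closedBall (0 : EN N) C).ultrafilter_le_nhds (𝒰.map fun n => cX c f v' n (xs n)) ?_
      rw [le_principal_iff]
      have h2 : ∀ᶠ n in (𝒰 : Filter ι), cX c f v' n (xs n) ∈ closedBall (0 : EN N) C := by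
        filter_upwards [hbd, hxs.eventually (ball_mem_nhds x₀ ht)] with n h3 h4
        rw [mem_closedBall_zero_iff]
        exact h3 _ h4
      exact h2
    have ha₀ : Tendsto (fun n => cX c f v' n (xs n)) 𝒰 (𝓝 a₀) := hlim2
    have ha₀b : ‖a₀‖ * ‖g₁ x₀‖ ≤ b := by
      refine le_of_tendsto (ha₀.norm.mul_const ‖g₁ x₀‖) ?_
      exact hyp x₀ (by rw [hx₀r]; exact hr'le) hx₀G v' hv'1 hpv' xs hxs
    have hT := MdA_seq h0X hC hx₀D hv'1 hpv' hq hxs ha₀
    -- the factors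
    have hfac : ∀ i, Tendsto (fun n => Real.sqrt ‖nd v (f i n (xs n))‖) 𝒰 (𝓝 q) := by
      intro i
      have h2 : Tendsto (fun n => nd v (f i n (xs n))) 𝒰 (𝓝 (nd v (pr v'))) := by
        rw [hpv']
        exact ((nd_cont v).tendsto _).comp (hC.lm i x₀ hx₀D xs hxs)
      have h3 : Real.sqrt ‖nd v (pr v')‖ = q := by
        have h4 := MdA_ndn (v := v) hv'0
        rw [hv'1, one_pow, mul_one] at h4
        rw [← h4, Real.sqrt_sq (norm_nonneg _)]
      rw [← h3]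
      exact (Real.continuous_sqrt.tendsto _).comp h2.norm
    have hnd : ∀ᶠ n in (𝒰 : Filter ι), ∀ i, nd v (f i n (xs n)) ≠ 0 := by
      rw [Filter.eventually_all]
      intro i
      have h2 : Tendsto (fun n => nd v (f i n (xs n))) 𝒰 (𝓝 (nd v (pr v'))) := by
        rw [hpv']
        exact ((nd_cont v).tendsto _).comp (hC.lm i x₀ hx₀D xs hxs)
      exact h2.eventually_ne ((nd_pr_ne hv'0).2 hq)
    have hg₁c : Tendsto (fun n => ‖g₁ (xs n)‖) 𝒰 (𝓝 ‖g₁ x₀‖) := by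
      have h2 : x₀ ∈ ball z (1 / 2 : ℝ) := by
        rw [mem_ball, dist_eq_norm, hx₀r]
        linarith
      have h3 : ContinuousAt g₁ x₀ := (hg₁.differentiableAt (isOpen_ball.mem_nhds h2)).continuousAt
      exact (h3.tendsto.comp hxs).norm
    have hprod : Tendsto (fun n => (∏ i, Real.sqrt ‖nd v (f i n (xs n))‖) * ‖cX c f v n (xs n)‖ * ‖g₁ (xs n)‖) 𝒰 (𝓝 ((∏ _i : Fin M, q) * ‖Lf v v' a₀‖ * ‖g₁ x₀‖)) :=
      ((tendsto_finsetProd _ fun i _ => hfac i).mul hT.norm).mul hg₁c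
    have hge : 3 * b ≤ (∏ _i : Fin M, q) * ‖Lf v v' a₀‖ * ‖g₁ x₀‖ := by
      refine ge_of_tendsto hprod ?_
      filter_upwards [hcon, hmem, hnd] with n h2 h3 h4
      have hxb : xs n ∈ ball z 2 := by
        rw [mem_ball, dist_eq_norm, hxs1 n]
        linarith
      have h5 := hxs2 n h2
      rw [hVeq n h3 (xs n) hxb h4, norm_smul, norm_prod] at h5
      refine h5.le.trans ?_
      refine mul_le_mul_of_nonneg_right (mul_le_mul_of_nonneg_right ?_ (norm_nonneg _)) (norm_nonneg _)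
      refine Finset.prod_le_prod (fun _ _ => norm_nonneg _) fun i _ => ?_
      obtain ⟨h6, h7, h8⟩ := (hF i n (h3 i)).2.1 (xs n) hxb
      rw [h7]
      exact MdA_inner_le (fun h => h0X (h ▸ h6)) h8
    have hle : (∏ _i : Fin M, q) * ‖Lf v v' a₀‖ * ‖g₁ x₀‖ ≤ 2 * b := by
      rw [Finset.prod_const, Finset.card_univ, Fintype.card_fin]
      have h2 : q ^ M ≤ q ^ 2 := pow_le_pow_of_le_one hq0.le hq1 hM
      have h3 : ‖Lf v v' a₀‖ ≤ (q⁻¹ + q⁻¹ ^ 2) * ‖a₀‖ := MdA_Lf hv hv'1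
      have h4 : q ^ 2 * (q⁻¹ + q⁻¹ ^ 2) ≤ 2 := by
        have e : q ^ 2 * (q⁻¹ + q⁻¹ ^ 2) = q + 1 := by field_simp
        rw [e]
        linarith
      calc q ^ M * ‖Lf v v' a₀‖ * ‖g₁ x₀‖ ≤ q ^ 2 * ((q⁻¹ + q⁻¹ ^ 2) * ‖a₀‖) * ‖g₁ x₀‖ := by
            refine mul_le_mul_of_nonneg_right ?_ (norm_nonneg _)
            exact mul_le_mul h2 h3 (norm_nonneg _) (by positivity)
        _ = q ^ 2 * (q⁻¹ + q⁻¹ ^ 2) * (‖a₀‖ * ‖g₁ x₀‖) := by ring
        _ ≤ 2 * b := mul_le_mul h4 ha₀b (by positivity) (by norm_num)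
    linarith
  -- the maximum principle and the centre
  have hndz : ∀ᶠ n in (𝒰 : Filter ι), ∀ i, 1 / 4 ≤ ‖nd v (f i n z)‖ := by
    rw [Filter.eventually_all]
    intro i
    have h2 : Tendsto (fun n => ‖nd v (f i n z)‖) 𝒰 (𝓝 1) := by
      have h3 : Tendsto (fun n => nd v (f i n z)) 𝒰 (𝓝 (nd v (pr v))) := by
        rw [hpv]
        exact ((nd_cont v).tendsto _).comp (hC.lm i z hzD (fun _ => z) tendsto_const_nhds)
      have h4 : ‖nd v (pr v)‖ = 1 := by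
        have h5 := MdA_ndn (v := v) hv0
        rw [hv, one_pow, mul_one] at h5
        rw [← h5, inner_self_eq_norm_sq_to_K, hv]
        simp
      rw [← h4]
      exact h3.norm
    exact h2.eventually_const_le (by norm_num)
  have hyi : ∀ᶠ n in (𝒰 : Filter ι), ∀ i, y i n + z • a ∈ Gd D (δ' / 2) := by
    rw [Filter.eventually_all]
    intro i
    filter_upwards [(hC.y_lim i).eventually (ball_mem_nhds y₀ (by positivity : (0 : ℝ) < δ' / 2))] with n hn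
    have h2 : ‖y i n + z • a - (y₀ + z • a)‖ ≤ δ' / 2 := by
      have e : y i n + z • a - (y₀ + z • a) = y i n - y₀ := by abel
      rw [e, ← dist_eq_norm]
      exact (mem_ball.1 hn).le
    have h3 := gd_near hz h2
    have e : δ' - δ' / 2 = δ' / 2 := by ring
    rwa [e] at h3
  filter_upwards [hcirc, hmem, hndz, hyi, hC.c_diff] with n h1 h2 h3 h4 h5
  have hz2 : z ∈ ball z 2 := mem_ball_self two_pos
  have hmax : ‖V n z‖ * ‖g₁ z‖ ≤ 3 * b := by
    have h6 : ‖g₁ z • V n z‖ ≤ 3 * b := by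
      refine Complex.norm_le_of_forall_mem_frontier_norm_le (f := fun x => g₁ x • V n x) (U := ball z r') isBounded_ball ?_ ?_ (subset_closure (mem_ball_self hr'pos))
      · refine DifferentiableOn.diffContOnCl (DifferentiableOn.fun_smul (hg₁.mono ?_) ((hVd n h2 h5).mono ?_))
        · rw [closure_ball _ hr'pos.ne']
          exact closedBall_subset_ball (by linarith)
        · rw [closure_ball _ hr'pos.ne']
          exact closedBall_subset_ball (by linarith)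
      · intro x hx
        rw [frontier_ball _ hr'pos.ne', mem_sphere, dist_eq_norm] at hx
        change ‖g₁ x • V n x‖ ≤ 3 * b
        rw [norm_smul, mul_comm]
        exact h1 x hx
    rwa [norm_smul, mul_comm] at h6
  have hne : ∀ i, nd v (f i n z) ≠ 0 := fun i h => by
    have := h3 i
    rw [h, norm_zero] at this
    linarith
  rw [hVeq n h2 z hz2 hne, norm_smul, norm_prod] at hmax
  have hlow : (cN / 2) ^ M ≤ ∏ j, ‖(inner ℂ v (F j n z) : ℂ)‖ := by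
    calc (cN / 2) ^ M = ∏ _j : Fin M, cN / 2 := by rw [Finset.prod_const, Finset.card_univ, Fintype.card_fin]
      _ ≤ _ := Finset.prod_le_prod (fun _ _ => (half_pos hcN).le) fun j _ => ?_
    obtain ⟨h6, h7, h8⟩ := (hF j n (h2 j)).2.1 z hz2
    have h9 := (hF j n (h2 j)).2.2 z (mem_closedBall_self zero_le_one) (h4 j)
    have hF0 : F j n z ≠ 0 := fun h => h0X (h ▸ h6)
    have h10 := MdA_ndn (v := v) hF0
    have h11 := h3 j
    rw [h7] at h11
    refine le_of_sq_le_sq ?_ (norm_nonneg _)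
    rw [h10]
    have h12 : cN ^ 2 ≤ ‖F j n z‖ ^ 2 := pow_le_pow_left₀ hcN.le h9 2
    nlinarith [sq_nonneg cN]
  have hfin : (cN / 2) ^ M * (‖cX c f v n z‖ * ‖g₁ z‖) ≤ 3 * b := by
    refine le_trans ?_ hmax
    rw [mul_assoc]
    exact mul_le_mul_of_nonneg_right hlow (by positivity)
  have h6 : (2 / cN) ^ M * (cN / 2) ^ M = 1 := by
    rw [← mul_pow]
    have : 2 / cN * (cN / 2) = 1 := by field_simp
    rw [this, one_pow]
  calc ‖cX c f v n z‖ * ‖g₁ z‖ = (2 / cN) ^ M * ((cN / 2) ^ M * (‖cX c f v n z‖ * ‖g₁ z‖)) := by rw [← mul_assoc, h6, one_mul]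
    _ ≤ (2 / cN) ^ M * (3 * b) := mul_le_mul_of_nonneg_left hfin (by positivity)
    _ = 3 * (2 / cN) ^ M * b := by ring

end Pool.Agent.G4.A
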