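import Pool.Agent.G4.A.CmZ
import Pool.Agent.G4.A.MdA

/-!
# G4 A CmF: the combinations tend to zero, final form

`cmb_null`: `cmb_zero` with `md_all`: combinations (`Cmb`) with the bounds `C exp (κ ‖x‖²)`, `κ < c₀`, over `Gd D δ'` for every `δ'`, tend to `0` off `D`.
-/

set_option autoImplicit false

open Topology Filter Metric

namespace Pool.Agent.G4.A

open Pool.Agent.H36.BP (EN fs wd)
open Pool.Agent.H14.PP (IsCone CurveAt Tan)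
open Pool.Agent.H62.EF (MN pr)
open Pool.Agent.AD (Vd Chart Charts IsGerm)
open Pool.Agent.TG
open Pool.Agent.G3
open Pool.Agent.G3.A
open Pool.Agent.G3.R (Prm)
open Pool.Agent.G3.C (Gc nv nd nv_pr)

variable {N k : ℕ} {X : Set (EN N)} {Λ : AddSubgroup (Vd (k + 1))} {u : EN N → Vd (k + 1)} {D B Bad : Set (Vd (k + 1))} {a : Vd (k + 1)}
  {Γ : AddSubgroup (Vd (k + 1))} {J rW : ℕ} {W : Fin rW → Vd (k + 1) →L[ℂ] ℂ} {α : Fin J → VForm X Λ u} {c₀ C₀ ρ δ : ℝ}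

theorem cmb_null (S : DA X Λ u D B Bad a Γ W α c₀ C₀ ρ δ) {ι : Type} {𝒰 : Ultrafilter ι} {M : ℕ} {y : Fin M → ι → Vd (k + 1)} {y₀ : Vd (k + 1)}
    {f : Fin M → ι → ℂ → MN N} {g : ℂ → MN N} {c : ι → Fin M → ℂ → ℂ} (hC : Cmb X Λ u D a 𝒰 y y₀ f g c) {κ : ℝ} (hκ : 0 ≤ κ) (hκ₀ : κ < c₀)
    (hb : ∀ δ' : ℝ, 0 < δ' → ∃ C : ℝ, ∀ x : ℂ, y₀ + x • a ∈ Gd D δ' → ∀ v : EN N, ‖v‖ = 1 → pr v = g x → ∀ᶠ n in (𝒰 : Filter ι), ‖cX c f v n x‖ ≤ C * Real.exp (κ * ‖x‖ ^ 2))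
    {x : ℂ} (hx : y₀ + x • a ∉ D) {v : EN N} (hv : ‖v‖ = 1) (hvg : pr v = g x) {w : ι → ℂ} (hw : Tendsto w 𝒰 (𝓝 x)) :
    Tendsto (fun n => cX c f v n (w n)) 𝒰 (𝓝 0) := cmb_zero S hC hκ hκ₀ hb (md_all S hC) hx hv hvg hw

end Pool.Agent.G4.A
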