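import Pool.Agent.G3.A.Ul

/-!
# G4 A Lls: limits of families of locally defined holomorphic functions

`E ⊆ H` are closed discrete sets; `g z₀ n` is holomorphic on `ball z₀ (r z₀)`, the functions agree in the limit on the overlaps, and they are bounded near the points off `H`.  Then they converge along the ultrafilter
to a function `K`, holomorphic off `E`.

Proof.  `lls_loc`: for `z ∈ ball z₀ (r z₀)` choose a small circle around `z` which does not meet `H` (finitely many points in a closed disc); the compact circle has a uniform bound, by the maximum principle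
also the disc; `ul_diff`.  `K z` is the limit of `g z n z`.
-/

set_option autoImplicit false

open Topology Filter Metric

namespace Pool.Agent.G4.A

private theorem lls_fin {H : Set ℂ} (hH : ∀ z : ℂ, ∀ᶠ x in 𝓝[≠] z, x ∉ H) {K : Set ℂ} (hK : IsCompact K) : (H ∩ K).Finite := by
  by_contra h
  obtain ⟨x, -, hx⟩ := Set.Infinite.exists_accPt_of_subset_isCompact h hK Set.inter_subset_right
  rw [accPt_iff_frequently] at hx
  have h1 := hH x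
  rw [eventually_nhdsWithin_iff] at h1
  obtain ⟨w, ⟨hw1, hw2⟩, hw3⟩ := (hx.and_eventually h1).exists
  exact hw3 hw1 hw2.1

/-- a circle which avoids `H` -/
private theorem lls_circle {H : Set ℂ} (hH : ∀ z : ℂ, ∀ᶠ x in 𝓝[≠] z, x ∉ H) (z : ℂ) {s : ℝ} (hs : 0 < s) :
    ∃ t : ℝ, 0 < t ∧ t < s ∧ ∀ x, dist x z = t → x ∉ H := by
  have hfin := lls_fin hH (isCompact_closedBall z s)
  have h1 : ((fun x : ℂ => dist x z) '' (H ∩ closedBall z s)).Countable := (hfin.image _).countable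
  obtain ⟨t, htI, htn⟩ := (h1.dense_compl ℝ).inter_open_nonempty (Set.Ioo 0 s) isOpen_Ioo (Set.nonempty_Ioo.2 hs)
  refine ⟨t, htI.1, htI.2, fun x hx hxH => htn ⟨x, ⟨hxH, ?_⟩, hx⟩⟩
  rw [mem_closedBall, hx]
  exact htI.2.le

private theorem lls_loc {ι : Type*} {𝒰 : Ultrafilter ι} {H : Set ℂ} (hH : ∀ z : ℂ, ∀ᶠ x in 𝓝[≠] z, x ∉ H) {z₀ : ℂ} {r : ℝ} {g : ι → ℂ → ℂ}
    (h1 : ∀ᶠ n in (𝒰 : Filter ι), DifferentiableOn ℂ (g n) (ball z₀ r))
    (h3 : ∀ x ∈ ball z₀ r, x ∉ H → ∃ t C : ℝ, 0 < t ∧ ∀ᶠ n in (𝒰 : Filter ι), ∀ x' ∈ ball x t, ‖g n x'‖ ≤ C) {z : ℂ} (hz : z ∈ ball z₀ r) :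
    ∃ (δ : ℝ) (K : ℂ → ℂ), 0 < δ ∧ ball z δ ⊆ ball z₀ r ∧ DifferentiableOn ℂ K (ball z δ) ∧
      ∀ x ∈ ball z δ, ∀ w : ι → ℂ, Tendsto w (𝒰 : Filter ι) (𝓝 x) → Tendsto (fun n => g n (w n)) (𝒰 : Filter ι) (𝓝 (K x)) := by
  obtain ⟨s, hs, hsub⟩ := Metric.isOpen_iff.1 isOpen_ball z hz
  obtain ⟨t, ht, hts, htH⟩ := lls_circle hH z hs
  have hcb : closedBall z t ⊆ ball z₀ r := (closedBall_subset_ball hts).trans hsub
  -- the bound on the circle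
  have hbd : ∃ C : ℝ, ∀ᶠ n in (𝒰 : Filter ι), ∀ x ∈ sphere z t, ‖g n x‖ ≤ C := by
    refine (isCompact_sphere z t).induction_on (p := fun T => ∃ C : ℝ, ∀ᶠ n in (𝒰 : Filter ι), ∀ x ∈ T, ‖g n x‖ ≤ C) ?_ ?_ ?_ ?_
    · exact ⟨0, Eventually.of_forall fun n x hx => absurd hx (Set.notMem_empty x)⟩
    · rintro T T' hTT ⟨C, hC⟩
      exact ⟨C, hC.mono fun n hn x hx => hn x (hTT hx)⟩
    · rintro T T' ⟨C, hC⟩ ⟨C', hC'⟩
      refine ⟨max C C', ?_⟩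
      filter_upwards [hC, hC'] with n h4 h5 x hx
      rcases hx with hx | hx
      · exact (h4 x hx).trans (le_max_left _ _)
      · exact (h5 x hx).trans (le_max_right _ _)
    · intro x hx
      obtain ⟨t', C, ht', hC⟩ := h3 x (hcb (sphere_subset_closedBall hx)) (htH x (mem_sphere.1 hx))
      exact ⟨ball x t', mem_nhdsWithin_of_mem_nhds (ball_mem_nhds x ht'), C, hC⟩
  obtain ⟨C, hC⟩ := hbd
  have hall : ∀ᶠ n in (𝒰 : Filter ι), DifferentiableOn ℂ (g n) (ball z t) ∧ ∀ x ∈ ball z t, ‖g n x‖ ≤ C := by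
    filter_upwards [h1, hC] with n hn1 hn2
    refine ⟨hn1.mono (ball_subset_closedBall.trans hcb), fun x hx => ?_⟩
    have hcl : DiffContOnCl ℂ (g n) (ball z t) := by
      refine DifferentiableOn.diffContOnCl ?_
      rw [closure_ball z ht.ne']
      exact hn1.mono hcb
    refine Complex.norm_le_of_forall_mem_frontier_norm_le isBounded_ball hcl (fun w hw => ?_) (subset_closure hx)
    rw [frontier_ball z ht.ne'] at hw
    exact hn2 w hw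
  obtain ⟨K, hK1, -, hK3⟩ := Pool.Agent.G3.A.ul_diff hall
  exact ⟨t, K, ht, ball_subset_closedBall.trans hcb, hK1, hK3⟩

theorem lls {ι : Type*} {𝒰 : Ultrafilter ι} {E H : Set ℂ} (hEH : E ⊆ H) (hE : IsClosed E) (hH : ∀ z : ℂ, ∀ᶠ x in 𝓝[≠] z, x ∉ H) {r : ℂ → ℝ} {g : ℂ → ι → ℂ → ℂ}
    (h1 : ∀ z₀ ∉ E, 0 < r z₀ ∧ ∀ᶠ n in (𝒰 : Filter ι), DifferentiableOn ℂ (g z₀ n) (ball z₀ (r z₀)))
    (h2 : ∀ z₀ ∉ E, ∀ z₁ ∉ E, ∀ ε : ℝ, 0 < ε → ∀ᶠ n in (𝒰 : Filter ι), ∀ x ∈ ball z₀ (r z₀) ∩ ball z₁ (r z₁), ‖g z₀ n x - g z₁ n x‖ ≤ ε)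
    (h3 : ∀ z₀ ∉ E, ∀ x ∈ ball z₀ (r z₀), x ∉ H → ∃ t C : ℝ, 0 < t ∧ ∀ᶠ n in (𝒰 : Filter ι), ∀ x' ∈ ball x t, ‖g z₀ n x'‖ ≤ C) :
    ∃ K : ℂ → ℂ, (∀ z ∉ E, DifferentiableAt ℂ K z) ∧ ∀ z₀ ∉ E, ∀ z ∈ ball z₀ (r z₀), z ∉ E → ∀ w : ι → ℂ, Tendsto w 𝒰 (𝓝 z) → Tendsto (fun n => g z₀ n (w n)) 𝒰 (𝓝 (K z)) := by
  have hloc : ∀ z₀, z₀ ∉ E → ∀ z, z ∈ ball z₀ (r z₀) → ∃ (δ : ℝ) (K : ℂ → ℂ), 0 < δ ∧ ball z δ ⊆ ball z₀ (r z₀) ∧ DifferentiableOn ℂ K (ball z δ) ∧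
      ∀ x ∈ ball z δ, ∀ w : ι → ℂ, Tendsto w (𝒰 : Filter ι) (𝓝 x) → Tendsto (fun n => g z₀ n (w n)) (𝒰 : Filter ι) (𝓝 (K x)) := fun z₀ hz₀ z hz =>
    lls_loc hH (h1 z₀ hz₀).2 (h3 z₀ hz₀) hz
  choose! δ K hδ hsub hKd hKt using hloc
  have hself : ∀ z, z ∉ E → z ∈ ball z (r z) := fun z hz => mem_ball_self (h1 z hz).1
  -- the limits agree
  have hag : ∀ z₀, z₀ ∉ E → ∀ z, z ∈ ball z₀ (r z₀) → z ∉ E → K z₀ z z = K z z z := by
    intro z₀ hz₀ z hz hzE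
    have t1 := hKt z₀ hz₀ z hz z (mem_ball_self (hδ z₀ hz₀ z hz)) (fun _ => z) tendsto_const_nhds
    have t2 := hKt z hzE z (hself z hzE) z (mem_ball_self (hδ z hzE z (hself z hzE))) (fun _ => z) tendsto_const_nhds
    have t3 : Tendsto (fun n => g z₀ n z - g z n z) (𝒰 : Filter ι) (𝓝 0) := by
      rw [Metric.tendsto_nhds]
      intro ε hε
      filter_upwards [h2 z₀ hz₀ z hzE (ε / 2) (half_pos hε)] with n hn
      rw [dist_zero_right]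
      have := hn z ⟨hz, hself z hzE⟩
      linarith
    have t4 := tendsto_nhds_unique t3 (t1.sub t2)
    exact (sub_eq_zero.1 t4.symm)
  refine ⟨fun z => K z z z, fun z hz => ?_, fun z₀ hz₀ z hz hzE w hw => ?_⟩
  · have hzz := hself z hz
    have hd : DifferentiableAt ℂ (K z z) z := (hKd z hz z hzz).differentiableAt (ball_mem_nhds z (hδ z hz z hzz))
    refine hd.congr_of_eventuallyEq ?_
    filter_upwards [ball_mem_nhds z (hδ z hz z hzz), hE.isOpen_compl.mem_nhds hz] with x hx hxE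
    have hxz : x ∈ ball z (r z) := hsub z hz z hzz hx
    have t1 := hKt z hz z hzz x hx (fun _ => x) tendsto_const_nhds
    have t2 := hKt z hz x hxz x (mem_ball_self (hδ z hz x hxz)) (fun _ => x) tendsto_const_nhds
    rw [tendsto_nhds_unique t1 t2]
    exact (hag z hz x hxz hxE).symm
  · have h4 := hKt z₀ hz₀ z hz z (mem_ball_self (hδ z₀ hz₀ z hz)) w hw
    rw [hag z₀ hz₀ z hz hzE] at h4
    exact h4

end Pool.Agent.G4.A
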