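import Pool.Agent.G4.A.CmB
import Pool.Agent.G4.A.Lls
import Pool.Agent.G4.A.GeoC
import Pool.Agent.G4.R.Scal
import Pool.Agent.G3.R.PrmA

/-!
# G4 A CmK: the limit of the integrals of a form

`cmb_K`: for a form `β` the derivatives `fderiv ℂ Ψ v (cX c f v n (w n))` of the local primitives along `cX` converge to `K x`, `w n → x` off `D`, `K` holomorphic off the exact bad hits.  `exists_scal` (G4/R/Scal)
gives functions `T i n` which are holomorphic near any point which is not an exact bad hit and equal to the integrals off `D`; `∑ i, c n i * T i n` satisfies the hypotheses of `lls` (`Cmb.prm`).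
-/

set_option autoImplicit false

open Topology Filter Metric

namespace Pool.Agent.G4.A

open Pool.Agent.H36.BP (EN fs wd)
open Pool.Agent.H14.PP (IsCone CurveAt Tan)
open Pool.Agent.H62.EF (MN pr)
open Pool.Agent.AD (Vd Chart Charts IsGerm)
open Pool.Agent.TG
open Pool.Agent.G3
open Pool.Agent.G3.A
open Pool.Agent.G3.R (Prm jj_prm nv_near inner_near nv_self exists_prm)
open Pool.Agent.G4.R (exists_scal)
open Pool.Agent.G3.C (Gc nv nd nv_pr)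

variable {N k : ℕ} {X : Set (EN N)} {Λ : AddSubgroup (Vd (k + 1))} {u : EN N → Vd (k + 1)} {D B Bad : Set (Vd (k + 1))} {a : Vd (k + 1)}

variable {ι : Type} {𝒰 : Ultrafilter ι} {M : ℕ} {y : Fin M → ι → Vd (k + 1)} {y₀ : Vd (k + 1)} {f : Fin M → ι → ℂ → MN N} {g : ℂ → MN N} {c : ι → Fin M → ℂ → ℂ}

/-- two local sections through the same point -/
private theorem ck_two (G : Geo X Λ u D B) {α : VForm X Λ u} (hC : Cmb X Λ u D a 𝒰 y y₀ f g c) {x₀ : ℂ} (hx₀ : y₀ + x₀ • a ∉ D)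
    {S S' : Vd (k + 1) → EN N} (hS : AnalyticAt ℂ S (y₀ + x₀ • a)) (hSX : ∀ᶠ y in 𝓝 (y₀ + x₀ • a), S y ∈ X ∧ u (S y) - y ∈ Λ) (hSg : pr (S (y₀ + x₀ • a)) = g x₀)
    (hS' : AnalyticAt ℂ S' (y₀ + x₀ • a)) (hSX' : ∀ᶠ y in 𝓝 (y₀ + x₀ • a), S' y ∈ X ∧ u (S' y) - y ∈ Λ) (hSg' : pr (S' (y₀ + x₀ • a)) = g x₀) {ε : ℝ} (hε : 0 < ε) :
    ∃ t : ℝ, 0 < t ∧ ∀ᶠ n in (𝒰 : Filter ι), ∀ x ∈ ball x₀ t,
      ‖(∑ i, c n i x * JJ α (y i n + x • a) (pr (S (y i n + x • a))) (f i n x)) - ∑ i, c n i x * JJ α (y i n + x • a) (pr (S' (y i n + x • a))) (f i n x)‖ ≤ ε := by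
  obtain ⟨hSX0, hSu0⟩ := hSX.self_of_nhds
  obtain ⟨e, he, hvX, hv1⟩ := exists_unit G.cone hSX0
  have hv1 : ‖e • S (y₀ + x₀ • a)‖ = 1 := mem_sphere_zero_iff_norm.1 hv1
  have hvu := smul_mem_lat G.tor hSX0 hSu0 he
  have hvg : pr (e • S (y₀ + x₀ • a)) = g x₀ := by rw [Pool.Agent.H62.EF.pr_smul _ he, hSg]
  generalize e • S (y₀ + x₀ • a) = v at hvX hv1 hvu hvg
  obtain ⟨R, Ψ, hΨ⟩ := exists_prm G hx₀ hvX hv1 hvu α
  obtain ⟨t₁, ht₁, h1⟩ := hC.prm G hx₀ hS hSX hSg hΨ hvg (half_pos hε)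
  obtain ⟨t₂, ht₂, h2⟩ := hC.prm G hx₀ hS' hSX' hSg' hΨ hvg (half_pos hε)
  refine ⟨min t₁ t₂, lt_min ht₁ ht₂, ?_⟩
  filter_upwards [h1, h2] with n h3 h4 x hx
  have h5 := h3 x (ball_subset_ball (min_le_left _ _) hx)
  have h6 := h4 x (ball_subset_ball (min_le_right _ _) hx)
  have h7 := norm_sub_le_norm_sub_add_norm_sub (∑ i, c n i x * JJ α (y i n + x • a) (pr (S (y i n + x • a))) (f i n x)) (fderiv ℂ Ψ v (cX c f v n x))
    (∑ i, c n i x * JJ α (y i n + x • a) (pr (S' (y i n + x • a))) (f i n x))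
  rw [norm_sub_rev (fderiv ℂ Ψ v (cX c f v n x))] at h7
  linarith

theorem cmb_K (G : Geo X Λ u D B) (hL : LG Λ D Bad a) (hCR : ∀ p ∈ D, p ∉ Bad → CRL X Λ u D a p) (hgood : ∀ p ∈ D, p ∉ Bad → p ∉ B ∧ TransAt D p a)
    (hC : Cmb X Λ u D a 𝒰 y y₀ f g c) (β : VForm X Λ u) : ∃ K : ℂ → ℂ, (∀ z : ℂ, y₀ + z • a ∉ Bad → DifferentiableAt ℂ K z) ∧
      ∀ x : ℂ, y₀ + x • a ∉ D → ∀ (v : EN N) (R : ℝ) (Ψ : EN N → ℂ), Prm β (y₀ + x • a) v R Ψ → pr v = g x → ∀ w : ι → ℂ, Tendsto w 𝒰 (𝓝 x) →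
        Tendsto (fun n => fderiv ℂ Ψ v (cX c f v n (w n))) 𝒰 (𝓝 (K x)) := by
  classical
  have hg := hC.g_mem
  have hgc : Continuous g := hc_cont G.cone hg
  have hsm : ∀ z : ℂ, ‖z • a‖ = ‖z‖ := fun z => by rw [norm_smul, hL.norm, mul_one]
  have hcont : Continuous fun x : ℂ => y₀ + x • a := by fun_prop
  -- local data
  have hsc : ∀ z₀ : ℂ, ∃ (r : ℝ) (S : Vd (k + 1) → EN N) (T : Fin M → ι → ℂ → ℂ), y₀ + z₀ • a ∉ Bad → 0 < r ∧
      (∀ y' ∈ ball (y₀ + z₀ • a) r, AnalyticAt ℂ S y' ∧ S y' ∈ X ∧ u (S y') - y' ∈ Λ) ∧ (∀ z ∈ ball z₀ r, pr (S (y₀ + z • a)) = g z) ∧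
      (∀ z ∈ ball z₀ r, z ≠ z₀ → y₀ + z • a ∉ D) ∧ ∀ i, (∀ᶠ n in (𝒰 : Filter ι), DifferentiableOn ℂ (T i n) (ball z₀ r)) ∧
        ∀ K : Set ℂ, IsCompact K → K ⊆ ball z₀ r → (∀ z ∈ K, y₀ + z • a ∉ D) → ∀ᶠ n in (𝒰 : Filter ι), ∀ z ∈ K, T i n z = JJ β (y i n + z • a) (pr (S (y i n + z • a))) (f i n z) := by
    intro z₀
    by_cases h : y₀ + z₀ • a ∈ Bad
    · exact ⟨0, fun _ => 0, fun _ _ _ => 0, fun h' => absurd h h'⟩
    · obtain ⟨r, S, h1, h2, h3, h4, h5⟩ := exists_scal G hL hCR hgood hg h β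
      choose T hT using fun i => h5 𝒰 (y i) (f i) (hC.y_lim i) (hC.f_mem i) (hC.lm i)
      exact ⟨r, S, T, fun _ => ⟨h1, h2, h3, h4, hT⟩⟩
  choose r₀ S T hT using hsc
  have hball : ∀ {z₀ x : ℂ} {t : ℝ}, x ∈ ball z₀ t → y₀ + x • a ∈ ball (y₀ + z₀ • a) t := by
    intro z₀ x t hx
    rw [mem_ball, dist_eq_norm] at hx ⊢
    have h1 : y₀ + x • a - (y₀ + z₀ • a) = (x - z₀) • a := by rw [sub_smul]; abel
    rwa [h1, hsm]
  have hSan : ∀ {z₀ x : ℂ}, y₀ + z₀ • a ∉ Bad → x ∈ ball z₀ (r₀ z₀) → AnalyticAt ℂ (S z₀) (y₀ + x • a) := fun h hx => ((hT _ h).2.1 _ (hball hx)).1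
  have hSX : ∀ {z₀ x : ℂ}, y₀ + z₀ • a ∉ Bad → x ∈ ball z₀ (r₀ z₀) → ∀ᶠ y' in 𝓝 (y₀ + x • a), S z₀ y' ∈ X ∧ u (S z₀ y') - y' ∈ Λ := by
    intro z₀ x h hx
    filter_upwards [isOpen_ball.mem_nhds (hball hx)] with y' hy'
    exact ((hT _ h).2.1 _ hy').2
  -- the values of the functions on compact sets without hits
  have hval : ∀ {z₀ : ℂ} {K : Set ℂ}, y₀ + z₀ • a ∉ Bad → IsCompact K → K ⊆ ball z₀ (r₀ z₀) → (∀ z ∈ K, y₀ + z • a ∉ D) → ∀ᶠ n in (𝒰 : Filter ι), ∀ x ∈ K,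
      ∑ i, c n i x * T z₀ i n x = ∑ i, c n i x * JJ β (y i n + x • a) (pr (S z₀ (y i n + x • a))) (f i n x) := by
    intro z₀ K h hK hKb hKD
    have h1 : ∀ᶠ n in (𝒰 : Filter ι), ∀ i, ∀ z ∈ K, T z₀ i n z = JJ β (y i n + z • a) (pr (S z₀ (y i n + z • a))) (f i n z) :=
      Filter.eventually_all.2 fun i => ((hT _ h).2.2.2.2 i).2 K hK hKb hKD
    filter_upwards [h1] with n h2 x hx
    exact Finset.sum_congr rfl fun i _ => by rw [h2 i x hx]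
  -- the values near a point off `D`
  have hnear : ∀ {z₀ x : ℂ}, y₀ + z₀ • a ∉ Bad → x ∈ ball z₀ (r₀ z₀) → y₀ + x • a ∉ D → ∀ {v : EN N} {R : ℝ} {Ψ : EN N → ℂ}, Prm β (y₀ + x • a) v R Ψ → pr v = g x → ∀ ε : ℝ, 0 < ε →
      ∃ t : ℝ, 0 < t ∧ ∀ᶠ n in (𝒰 : Filter ι), ∀ x' ∈ ball x t, ‖(∑ i, c n i x' * T z₀ i n x') - fderiv ℂ Ψ v (cX c f v n x')‖ ≤ ε := by
    intro z₀ x h hx hxD v R Ψ hΨ hv ε hε
    obtain ⟨t, ht, h1⟩ := hC.prm G hxD (hSan h hx) (hSX h hx) ((hT _ h).2.2.1 _ hx) hΨ hv hε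
    have e0 : ∀ᶠ x' in 𝓝 x, x' ∈ ball z₀ (r₀ z₀) := isOpen_ball.mem_nhds hx
    have e1 : ∀ᶠ x' in 𝓝 x, x' ∈ ball z₀ (r₀ z₀) ∧ y₀ + x' • a ∉ D := e0.and (hcont.continuousAt.eventually (G.D_closed.isOpen_compl.mem_nhds hxD))
    obtain ⟨s, hs, h2⟩ := Metric.eventually_nhds_iff_ball.1 e1
    have h3 := hval h (K := closedBall x (s / 2)) (isCompact_closedBall _ _) (fun x' hx' => (h2 x' (closedBall_subset_ball (by linarith) hx')).1)
      (fun x' hx' => (h2 x' (closedBall_subset_ball (by linarith) hx')).2)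
    refine ⟨min t (s / 2), lt_min ht (by linarith), ?_⟩
    filter_upwards [h1, h3] with n a1 a2 x' hx'
    rw [a2 x' (ball_subset_closedBall (ball_subset_ball (min_le_right _ _) hx'))]
    exact a1 x' (ball_subset_ball (min_le_left _ _) hx')
  have s0 : ∀ z : ℂ, ∀ᶠ x in 𝓝[≠] z, x ∉ {z : ℂ | y₀ + z • a ∈ D} := by
    intro z
    have h1 := hL.iso (y₀ + z • a)
    rw [eventually_nhdsWithin_iff] at h1 ⊢
    have h2 : Tendsto (fun x : ℂ => x - z) (𝓝 z) (𝓝 0) := by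
      have : Continuous fun x : ℂ => x - z := by fun_prop
      have h3 := this.tendsto z
      rwa [sub_self] at h3
    filter_upwards [h2.eventually h1] with x hx hxz
    have h3 := hx (by
      rw [Set.mem_compl_iff, Set.mem_singleton_iff] at hxz ⊢
      exact sub_ne_zero.2 hxz)
    have e : y₀ + z • a + (x - z) • a = y₀ + x • a := by rw [sub_smul]; abel
    rwa [e] at h3
  have s1 : ∀ z₀ ∉ {z : ℂ | y₀ + z • a ∈ Bad}, 0 < r₀ z₀ / 2 ∧ ∀ᶠ n in (𝒰 : Filter ι), DifferentiableOn ℂ (fun x => ∑ i, c n i x * T z₀ i n x) (ball z₀ (r₀ z₀ / 2)) := by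
    intro z₀ h
    have hr := (hT _ h).1
    refine ⟨half_pos hr, ?_⟩
    have h1 : ∀ᶠ n in (𝒰 : Filter ι), ∀ i, DifferentiableOn ℂ (T z₀ i n) (ball z₀ (r₀ z₀)) := Filter.eventually_all.2 fun i => ((hT _ h).2.2.2.2 i).1
    filter_upwards [h1, hC.c_diff] with n h2 h3
    refine DifferentiableOn.fun_sum fun i _ => ?_
    exact (h3 i).differentiableOn.mul ((h2 i).mono (ball_subset_ball (by linarith)))
  have s2 : ∀ z₀ ∉ {z : ℂ | y₀ + z • a ∈ Bad}, ∀ z₁ ∉ {z : ℂ | y₀ + z • a ∈ Bad}, ∀ ε : ℝ, 0 < ε → ∀ᶠ n in (𝒰 : Filter ι), ∀ x ∈ ball z₀ (r₀ z₀ / 2) ∩ ball z₁ (r₀ z₁ / 2),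
      ‖(∑ i, c n i x * T z₀ i n x) - ∑ i, c n i x * T z₁ i n x‖ ≤ ε := by
    intro z₀ h z₁ h' ε hε
    have h : y₀ + z₀ • a ∉ Bad := h
    have h' : y₀ + z₁ • a ∉ Bad := h'
    have hr := (hT _ h).1
    have hr' := (hT _ h').1
    by_cases hz : z₀ = z₁
    · subst hz
      refine Eventually.of_forall fun n x _ => ?_
      rw [sub_self, norm_zero]
      exact hε.le
    · set K : Set ℂ := closedBall z₀ (r₀ z₀ / 2) ∩ closedBall z₁ (r₀ z₁ / 2) with hKdef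
      have hK : IsCompact K := (isCompact_closedBall _ _).inter_right isClosed_closedBall
      have hK0 : K ⊆ ball z₀ (r₀ z₀) := Set.inter_subset_left.trans (closedBall_subset_ball (by linarith))
      have hK1 : K ⊆ ball z₁ (r₀ z₁) := Set.inter_subset_right.trans (closedBall_subset_ball (by linarith))
      have hKD : ∀ x ∈ K, y₀ + x • a ∉ D := by
        intro x hx
        by_cases hxz : x = z₀
        · exact (hT _ h').2.2.2.1 x (hK1 hx) (by rw [hxz]; exact hz)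
        · exact (hT _ h).2.2.2.1 x (hK0 hx) hxz
      have hcov : ∀ᶠ n in (𝒰 : Filter ι), ∀ x ∈ K, ‖(∑ i, c n i x * JJ β (y i n + x • a) (pr (S z₀ (y i n + x • a))) (f i n x)) -
          ∑ i, c n i x * JJ β (y i n + x • a) (pr (S z₁ (y i n + x • a))) (f i n x)‖ ≤ ε := by
        refine hK.induction_on (p := fun s : Set ℂ => ∀ᶠ n in (𝒰 : Filter ι), ∀ x ∈ s, ‖(∑ i, c n i x * JJ β (y i n + x • a) (pr (S z₀ (y i n + x • a))) (f i n x)) -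
          ∑ i, c n i x * JJ β (y i n + x • a) (pr (S z₁ (y i n + x • a))) (f i n x)‖ ≤ ε) ?_ ?_ ?_ ?_
        · exact Eventually.of_forall fun n x hx => absurd hx (Set.notMem_empty x)
        · intro s s' hss h1
          filter_upwards [h1] with n h2 x hx
          exact h2 x (hss hx)
        · intro s s' h1 h2
          filter_upwards [h1, h2] with n h3 h4 x hx
          rcases hx with hx | hx
          · exact h3 x hx
          · exact h4 x hx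
        · intro x hx
          obtain ⟨t, ht, h1⟩ := ck_two G (α := β) hC (hKD x hx) (hSan h (hK0 hx)) (hSX h (hK0 hx)) ((hT _ h).2.2.1 _ (hK0 hx))
            (hSan h' (hK1 hx)) (hSX h' (hK1 hx)) ((hT _ h').2.2.1 _ (hK1 hx)) hε
          exact ⟨ball x t, mem_nhdsWithin_of_mem_nhds (ball_mem_nhds x ht), h1⟩
      filter_upwards [hcov, hval h hK hK0 hKD, hval h' hK hK1 hKD] with n h1 h2 h3 x hx
      have hxK : x ∈ K := ⟨ball_subset_closedBall hx.1, ball_subset_closedBall hx.2⟩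
      rw [h2 x hxK, h3 x hxK]
      exact h1 x hxK
  have s3 : ∀ z₀ ∉ {z : ℂ | y₀ + z • a ∈ Bad}, ∀ x ∈ ball z₀ (r₀ z₀ / 2), x ∉ {z : ℂ | y₀ + z • a ∈ D} → ∃ t C : ℝ, 0 < t ∧ ∀ᶠ n in (𝒰 : Filter ι), ∀ x' ∈ ball x t,
      ‖∑ i, c n i x' * T z₀ i n x'‖ ≤ C := by
    intro z₀ h x hx hxH
    have h : y₀ + z₀ • a ∉ Bad := h
    have hr := (hT _ h).1
    have hxD : y₀ + x • a ∉ D := hxH
    have hx0 : x ∈ ball z₀ (r₀ z₀) := ball_subset_ball (by linarith) hx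
    obtain ⟨hSX0, hSu0⟩ := (hSX h hx0).self_of_nhds
    obtain ⟨e, he, hvX, hv1⟩ := exists_unit G.cone hSX0
    have hv1 : ‖e • S z₀ (y₀ + x • a)‖ = 1 := mem_sphere_zero_iff_norm.1 hv1
    have hvu := smul_mem_lat G.tor hSX0 hSu0 he
    have hvg : pr (e • S z₀ (y₀ + x • a)) = g x := by rw [Pool.Agent.H62.EF.pr_smul _ he, (hT _ h).2.2.1 _ hx0]
    generalize e • S z₀ (y₀ + x • a) = v at hvX hv1 hvu hvg
    obtain ⟨R, Ψ, hΨ⟩ := exists_prm G hxD hvX hv1 hvu β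
    obtain ⟨t₁, ht₁, h1⟩ := hnear h hx0 hxD hΨ hvg 1 one_pos
    obtain ⟨t₂, C, ht₂, h2⟩ := hC.bdd x hxD v hv1 hvg
    refine ⟨min t₁ t₂, ‖fderiv ℂ Ψ v‖ * C + 1, lt_min ht₁ ht₂, ?_⟩
    filter_upwards [h1, h2] with n a1 a2 x' hx'
    have b1 := a1 x' (ball_subset_ball (min_le_left _ _) hx')
    have b2 := a2 x' (ball_subset_ball (min_le_right _ _) hx')
    have b3 := (fderiv ℂ Ψ v).le_opNorm (cX c f v n x')
    have b4 : ‖fderiv ℂ Ψ v‖ * ‖cX c f v n x'‖ ≤ ‖fderiv ℂ Ψ v‖ * C := mul_le_mul_of_nonneg_left b2 (norm_nonneg _)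
    have b5 := norm_le_norm_add_norm_sub' (∑ i, c n i x' * T z₀ i n x') (fderiv ℂ Ψ v (cX c f v n x'))
    linarith

  obtain ⟨K, hKd, hKt⟩ := lls (𝒰 := 𝒰) (E := {z : ℂ | y₀ + z • a ∈ Bad}) (H := {z : ℂ | y₀ + z • a ∈ D}) (r := fun z₀ => r₀ z₀ / 2)
    (g := fun z₀ n x => ∑ i, c n i x * T z₀ i n x) (fun z hz => hL.bad_sub hz) (hits_closed hL.iso hL.bad_sub y₀) s0 s1 s2 s3
  refine ⟨K, fun z hz => hKd z hz, fun x hx v R Ψ hΨ hv w hw => ?_⟩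
  have hxB : y₀ + x • a ∉ Bad := fun h => hx (hL.bad_sub h)
  have hr := (hT _ hxB).1
  have h1 := hKt x hxB x (mem_ball_self (by positivity)) hxB w hw
  rw [Metric.tendsto_nhds] at h1 ⊢
  intro ε hε
  obtain ⟨t, ht, h2⟩ := hnear hxB (mem_ball_self hr) hx hΨ hv (ε / 2) (by linarith)
  filter_upwards [h1 (ε / 2) (by linarith), h2, hw.eventually (ball_mem_nhds x ht)] with n a1 a2 a3
  have a4 := a2 (w n) a3
  rw [← dist_eq_norm, dist_comm] at a4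
  have a5 := dist_triangle (fderiv ℂ Ψ v (cX c f v n (w n))) (∑ i, c n i (w n) * T x i n (w n)) (K x)
  linarith

end Pool.Agent.G4.A
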