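import Pool.Agent.G4.A.CmB
import Pool.Agent.G4.A.Fch

/-!
# G4 A CmL: the limit of the combinations and the integrals of the forms

`fch_lim`: if the derivatives of the primitives along `cX` converge to `K j x` (`cmb_K`), then `cX c f v n (w n)` converges to a vector `Z`, and over `Gd D δ'` the norm of `Z` and the numbers `‖K j x‖ exp (wt W)` bound each other.
-/

set_option autoImplicit false

open Topology Filter Metric

namespace Pool.Agent.G4.A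

open Pool.Agent.H36.BP (EN fs wd)
open Pool.Agent.H14.PP (IsCone CurveAt Tan)
open Pool.Agent.H62.EF (MN pr)
open Pool.Agent.AD (Vd Chart Charts IsGerm)
open Pool.Agent.TG
open Pool.Agent.G3
open Pool.Agent.G3.A
open Pool.Agent.G3.R (Prm jj_prm nv_near inner_near nv_self)
open Pool.Agent.G3.C (Gc nv nd nv_pr)

variable {N k : ℕ} {X : Set (EN N)} {Λ : AddSubgroup (Vd (k + 1))} {u : EN N → Vd (k + 1)} {D B Bad : Set (Vd (k + 1))} {a : Vd (k + 1)}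
  {Γ : AddSubgroup (Vd (k + 1))} {J rW : ℕ} {W : Fin rW → Vd (k + 1) →L[ℂ] ℂ} {α : Fin J → VForm X Λ u} {c₀ C₀ ρ δ : ℝ}

variable {ι : Type*} {𝒰 : Ultrafilter ι} {M : ℕ} {y : Fin M → ι → Vd (k + 1)} {y₀ : Vd (k + 1)} {f : Fin M → ι → ℂ → MN N} {g : ℂ → MN N} {c : ι → Fin M → ℂ → ℂ}

/-- the unit vectors over the points of a curve -/
theorem hc_unit (hX : IsCone X) (hu : TMap X Λ u) {f : ℂ → MN N} {y : Vd (k + 1)} (hf : f ∈ Hc X Λ u a y) {z : ℂ} {v : EN N} (hv : ‖v‖ = 1) (hvf : pr v = f z) :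
    v ∈ X ∧ u v - (y + z • a) ∈ Λ := by
  obtain ⟨p, hp, hpm, hpu⟩ := hc_mem hf z
  have hv0 : v ≠ 0 := by
    intro h
    rw [h, norm_zero] at hv
    exact zero_ne_one hv
  obtain ⟨e, he, hev⟩ := (Pool.Agent.H62.EF.pr_eq_iff hv0 (ne_zero hX hp)).1 (hvf.trans hpm.symm)
  rw [hev]
  exact ⟨hX.smul_mem p hp _ he, smul_mem_lat hu hp hpu he⟩

theorem hc_exu (hX : IsCone X) {f : ℂ → MN N} {y : Vd (k + 1)} (hf : f ∈ Hc X Λ u a y) (z : ℂ) : ∃ v : EN N, ‖v‖ = 1 ∧ pr v = f z := by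
  obtain ⟨p, hp, hpm, hpu⟩ := hc_mem hf z
  obtain ⟨e, he, hvX, hv1⟩ := exists_unit hX hp
  exact ⟨e • p, mem_sphere_zero_iff_norm.1 hv1, by rw [Pool.Agent.H62.EF.pr_smul _ he, hpm]⟩

private theorem two_lim {Y : Type*} [NormedAddCommGroup Y] {x : ℂ} {s P Q : ι → ℂ → Y} (h1 : ∀ ε : ℝ, 0 < ε → ∃ t : ℝ, 0 < t ∧ ∀ᶠ n in (𝒰 : Filter ι), ∀ x' ∈ ball x t, ‖s n x' - P n x'‖ ≤ ε)
    (h2 : ∀ ε : ℝ, 0 < ε → ∃ t : ℝ, 0 < t ∧ ∀ᶠ n in (𝒰 : Filter ι), ∀ x' ∈ ball x t, ‖s n x' - Q n x'‖ ≤ ε) {w : ι → ℂ} (hw : Tendsto w 𝒰 (𝓝 x)) :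
    Tendsto (fun n => P n (w n) - Q n (w n)) 𝒰 (𝓝 0) := by
  rw [Metric.tendsto_nhds]
  intro ε hε
  obtain ⟨t₁, ht₁, h3⟩ := h1 (ε / 3) (by linarith)
  obtain ⟨t₂, ht₂, h4⟩ := h2 (ε / 3) (by linarith)
  filter_upwards [h3, h4, hw.eventually (ball_mem_nhds x ht₁), hw.eventually (ball_mem_nhds x ht₂)] with n a1 a2 b1 b2
  have a3 := a1 (w n) b1
  have a4 := a2 (w n) b2
  rw [dist_zero_right]
  have e : P n (w n) - Q n (w n) = (s n (w n) - Q n (w n)) - (s n (w n) - P n (w n)) := by abel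
  rw [e]
  refine (norm_sub_le _ _).trans_lt ?_
  linarith

private theorem fd_comp {Y : Type*} [NormedAddCommGroup Y] [NormedSpace ℂ Y] {h : EN N → ℂ} {v : EN N} {y₁ : Vd (k + 1)} {G : ℂ × Vd (k + 1) → Y} (hh : AnalyticAt ℂ h v)
    (hG : AnalyticAt ℂ G (h v, y₁)) (w : EN N) : fderiv ℂ (fun p : EN N × Vd (k + 1) => G (h p.1, p.2)) (v, y₁) (w, 0) = fderiv ℂ h v w • fderiv ℂ G (h v, y₁) (1, 0) := by
  have h1 : HasFDerivAt (fun p : EN N × Vd (k + 1) => h p.1) ((fderiv ℂ h v).comp (ContinuousLinearMap.fst ℂ (EN N) (Vd (k + 1)))) (v, y₁) :=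
    HasFDerivAt.comp (g := h) (f := fun p : EN N × Vd (k + 1) => p.1) (v, y₁) hh.differentiableAt.hasFDerivAt hasFDerivAt_fst
  have h2 : HasFDerivAt (fun p : EN N × Vd (k + 1) => (h p.1, p.2)) (((fderiv ℂ h v).comp (ContinuousLinearMap.fst ℂ (EN N) (Vd (k + 1)))).prod (ContinuousLinearMap.snd ℂ (EN N) (Vd (k + 1)))) (v, y₁) :=
    h1.prodMk hasFDerivAt_snd
  have h3 : HasFDerivAt (fun p : EN N × Vd (k + 1) => G (h p.1, p.2)) ((fderiv ℂ G (h v, y₁)).comp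
      (((fderiv ℂ h v).comp (ContinuousLinearMap.fst ℂ (EN N) (Vd (k + 1)))).prod (ContinuousLinearMap.snd ℂ (EN N) (Vd (k + 1))))) (v, y₁) :=
    HasFDerivAt.comp (g := G) (f := fun p : EN N × Vd (k + 1) => (h p.1, p.2)) (v, y₁) hG.differentiableAt.hasFDerivAt h2
  rw [h3.fderiv]
  have e : ((fderiv ℂ h v w, (0 : Vd (k + 1))) : ℂ × Vd (k + 1)) = fderiv ℂ h v w • ((1 : ℂ), (0 : Vd (k + 1))) := by
    ext
    · simp
    · simp
  have e2 : ((fderiv ℂ G (h v, y₁)).comp (((fderiv ℂ h v).comp (ContinuousLinearMap.fst ℂ (EN N) (Vd (k + 1)))).prod (ContinuousLinearMap.snd ℂ (EN N) (Vd (k + 1))))) (w, 0) =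
      fderiv ℂ G (h v, y₁) (fderiv ℂ h v w, 0) := rfl
  rw [e2, e, map_smul]

private theorem fd_an {Y : Type*} [NormedAddCommGroup Y] [NormedSpace ℂ Y] {h : EN N → ℂ} {v : EN N} {y₁ : Vd (k + 1)} {G : ℂ × Vd (k + 1) → Y} (hh : AnalyticAt ℂ h v)
    (hG : AnalyticAt ℂ G (h v, y₁)) : AnalyticAt ℂ (fun p : EN N × Vd (k + 1) => G (h p.1, p.2)) (v, y₁) := by
  have h1 : AnalyticAt ℂ (fun p : EN N × Vd (k + 1) => h p.1) (v, y₁) := AnalyticAt.fun_comp (g := h) (f := fun p : EN N × Vd (k + 1) => p.1) hh analyticAt_fst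
  exact AnalyticAt.fun_comp (g := G) (f := fun p : EN N × Vd (k + 1) => (h p.1, p.2)) hG (h1.prod analyticAt_snd)

theorem fch_lim (S : DA X Λ u D B Bad a Γ W α c₀ C₀ ρ δ) (hC : Cmb X Λ u D a 𝒰 y y₀ f g c) {K : Fin J → ℂ → ℂ}
    (hK : ∀ j, ∀ x : ℂ, y₀ + x • a ∉ D → ∀ (v : EN N) (R : ℝ) (Ψ : EN N → ℂ), Prm (α j) (y₀ + x • a) v R Ψ → pr v = g x → ∀ w : ι → ℂ, Tendsto w 𝒰 (𝓝 x) →
        Tendsto (fun n => fderiv ℂ Ψ v (cX c f v n (w n))) 𝒰 (𝓝 (K j x))) {δ' : ℝ} (hδ' : 0 < δ') :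
    ∃ A : ℝ, 0 < A ∧ ∀ x : ℂ, y₀ + x • a ∈ Gd D δ' → ∀ v : EN N, ‖v‖ = 1 → pr v = g x → ∃ Z : EN N,
      (∀ w : ι → ℂ, Tendsto w 𝒰 (𝓝 x) → Tendsto (fun n => cX c f v n (w n)) 𝒰 (𝓝 Z)) ∧
      (∀ j, ‖K j x‖ * Real.exp (wt W (y₀ + x • a)) ≤ A * ‖Z‖) ∧ ∃ j, ‖Z‖ ≤ A * (‖K j x‖ * Real.exp (wt W (y₀ + x • a))) := by
  obtain ⟨K₀, c₁, hK₀, hc₁, hF⟩ := exists_fch S.geo S.frm S.dec S.C_pos hδ'
  refine ⟨K₀ * K₀ + K₀ / c₁, by positivity, fun x hx v hv hvg => ?_⟩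
  have hxD : y₀ + x • a ∉ D := gd_notMem hδ' hx
  obtain ⟨hvX, hvu⟩ := hc_unit S.geo.cone S.geo.tor hC.g_mem hv hvg
  obtain ⟨R, h, Θ, Ψ, Bj, F⟩ := hF _ hx v hvX hv hvu
  set e : ℝ := Real.exp (wt W (y₀ + x • a)) with he
  have he0 : 0 < e := Real.exp_pos _
  have hee : Real.exp (-wt W (y₀ + x • a)) * e = 1 := by rw [he, ← Real.exp_add, neg_add_cancel, Real.exp_zero]
  set dB : Fin J → ℂ := fun j => fderiv ℂ (Bj j) (h v, y₀ + x • a) (1, 0) with hdB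
  set dΘ : EN N := fderiv ℂ Θ (h v, y₀ + x • a) (1, 0) with hdΘ
  -- the points
  obtain ⟨t₀, ht₀, hpt⟩ := hC.pts S.geo.cone S.geo.tor S.geo.D_closed hxD hv hvg F.R_pos
  -- the values of the coordinate
  have hBK : ∀ j, ∀ w : ι → ℂ, Tendsto w 𝒰 (𝓝 x) → Tendsto (fun n => fderiv ℂ h v (cX c f v n (w n)) * dB j) 𝒰 (𝓝 (K j x)) := by
    intro j w hw
    have h1 : ∀ ε : ℝ, 0 < ε → ∃ t : ℝ, 0 < t ∧ ∀ᶠ n in (𝒰 : Filter ι), ∀ x' ∈ ball x t,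
        ‖(∑ i, c n i x' * Ψ j (nv v (f i n x'))) - fderiv ℂ h v (cX c f v n x') * dB j‖ ≤ ε := by
      intro ε hε
      obtain ⟨t, ht, h2⟩ := hC.lin x hxD v hv hvg _ (fd_an F.h_an (F.B_an j)) ε hε
      refine ⟨min t t₀, lt_min ht ht₀, ?_⟩
      filter_upwards [h2, hpt] with n a1 a2 x' hx'
      have a3 := a1 x' (ball_subset_ball (min_le_left _ _) hx')
      rw [fd_comp F.h_an (F.B_an j), smul_eq_mul] at a3
      have a4 : ∀ i, Bj j (h (nv v (f i n x')), y i n + x' • a) = Ψ j (nv v (f i n x')) := by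
        intro i
        obtain ⟨b1, b2, b3, b4, b5, -⟩ := a2 x' (ball_subset_ball (min_le_right _ _) hx') i
        exact (F.eq _ b5 _ b1 b2 b3).2 j
      simp only [a4] at a3
      exact a3
    have h2 := two_lim h1 (fun ε hε => hC.lin₁ hxD hv hvg (prm_an (F.prm j)) hε) hw
    have h3 := hK j x hxD v R (Ψ j) (F.prm j) hvg w hw
    have h4 := h2.add h3
    rw [zero_add] at h4
    refine h4.congr fun n => ?_
    ring
  obtain ⟨j₀, hj₀⟩ := F.B_lb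
  have hd0 : 0 < ‖dB j₀‖ := lt_of_lt_of_le (by positivity) hj₀
  have hd0' : dB j₀ ≠ 0 := norm_pos_iff.1 hd0
  set H : ℂ := K j₀ x / dB j₀ with hH
  have hHn : ∀ w : ι → ℂ, Tendsto w 𝒰 (𝓝 x) → Tendsto (fun n => fderiv ℂ h v (cX c f v n (w n))) 𝒰 (𝓝 H) := by
    intro w hw
    have h1 := (hBK j₀ w hw).div_const (dB j₀)
    refine h1.congr fun n => ?_
    rw [mul_div_assoc, div_self hd0', mul_one]
  have hlim : ∀ w : ι → ℂ, Tendsto w 𝒰 (𝓝 x) → Tendsto (fun n => cX c f v n (w n)) 𝒰 (𝓝 (H • dΘ)) := by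
    intro w hw
    have h1 : ∀ ε : ℝ, 0 < ε → ∃ t : ℝ, 0 < t ∧ ∀ᶠ n in (𝒰 : Filter ι), ∀ x' ∈ ball x t,
        ‖cX c f v n x' - fderiv ℂ h v (cX c f v n x') • dΘ‖ ≤ ε := by
      intro ε hε
      obtain ⟨t, ht, h2⟩ := hC.linv hxD hv hvg (fd_an F.h_an F.Θ_an) hε
      refine ⟨min t t₀, lt_min ht ht₀, ?_⟩
      filter_upwards [h2, hpt] with n a1 a2 x' hx'
      have a3 := a1 x' (ball_subset_ball (min_le_left _ _) hx')
      rw [fd_comp F.h_an F.Θ_an] at a3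
      have a4 : ∀ i, Θ (h (nv v (f i n x')), y i n + x' • a) = nv v (f i n x') := by
        intro i
        obtain ⟨b1, b2, b3, b4, b5, -⟩ := a2 x' (ball_subset_ball (min_le_right _ _) hx') i
        exact (F.eq _ b5 _ b1 b2 b3).1 b4
      simp only [a4] at a3
      exact a3
    have h2 := two_lim (s := fun n x' => cX c f v n x') (P := fun n x' => cX c f v n x') (Q := fun n x' => fderiv ℂ h v (cX c f v n x') • dΘ)
      (fun ε hε => ⟨1, one_pos, Eventually.of_forall fun n x' _ => by rw [sub_self, norm_zero]; exact hε.le⟩) h1 hw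
    have h3 := h2.add ((hHn w hw).smul_const dΘ)
    rw [zero_add] at h3
    refine h3.congr fun n => ?_
    abel
  refine ⟨H • dΘ, hlim, ?_, ?_⟩
  · -- the upper bound of `K j`
    intro j
    have h1 : K j x = H * dB j := tendsto_nhds_unique (hBK j _ tendsto_const_nhds) ((hHn _ tendsto_const_nhds).mul_const (dB j))
    have h2 : H = fderiv ℂ h v (H • dΘ) := tendsto_nhds_unique (hHn _ tendsto_const_nhds) (((fderiv ℂ h v).continuous.tendsto _).comp (hlim _ tendsto_const_nhds))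
    have h3 : ‖H‖ ≤ K₀ * ‖H • dΘ‖ := by
      calc ‖H‖ = ‖fderiv ℂ h v (H • dΘ)‖ := by rw [← h2]
        _ ≤ ‖fderiv ℂ h v‖ * ‖H • dΘ‖ := (fderiv ℂ h v).le_opNorm _
        _ ≤ K₀ * ‖H • dΘ‖ := mul_le_mul_of_nonneg_right F.h_bd (norm_nonneg _)
    have h4 : ‖dB j‖ * e ≤ K₀ := by
      have := mul_le_mul_of_nonneg_right (F.B_ub j) he0.le
      rw [mul_assoc, hee, mul_one] at this
      exact this
    rw [h1, norm_mul]
    have h5 : 0 ≤ K₀ / c₁ * ‖H • dΘ‖ := by positivity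
    calc ‖H‖ * ‖dB j‖ * e = ‖H‖ * (‖dB j‖ * e) := by ring
      _ ≤ (K₀ * ‖H • dΘ‖) * K₀ := mul_le_mul h3 h4 (by positivity) (by positivity)
      _ ≤ (K₀ * K₀ + K₀ / c₁) * ‖H • dΘ‖ := by nlinarith
  · refine ⟨j₀, ?_⟩
    rw [norm_smul]
    have h1 : ‖dΘ‖ ≤ K₀ := F.Θ_bd
    have h2 : ‖H‖ * c₁ ≤ ‖K j₀ x‖ * e := by
      rw [hH, norm_div]
      have h3 : c₁ ≤ ‖dB j₀‖ * e := by
        have := mul_le_mul_of_nonneg_right hj₀ he0.le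
        rw [mul_assoc, hee, mul_one] at this
        exact this
      calc ‖K j₀ x‖ / ‖dB j₀‖ * c₁ ≤ ‖K j₀ x‖ / ‖dB j₀‖ * (‖dB j₀‖ * e) := by gcongr
        _ = ‖K j₀ x‖ * e := by field_simp
    have h3 : ‖H‖ ≤ ‖K j₀ x‖ * e / c₁ := by rwa [le_div_iff₀ hc₁]
    calc ‖H‖ * ‖dΘ‖ ≤ (‖K j₀ x‖ * e / c₁) * K₀ := mul_le_mul h3 h1 (norm_nonneg _) (by positivity)
      _ = K₀ / c₁ * (‖K j₀ x‖ * e) := by ring
      _ ≤ (K₀ * K₀ + K₀ / c₁) * (‖K j₀ x‖ * e) := by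
        have : 0 ≤ K₀ * K₀ * (‖K j₀ x‖ * e) := by positivity
        nlinarith

end Pool.Agent.G4.A
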