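import Pool.Agent.G4.A.CmK
import Pool.Agent.G4.A.CmL
import Pool.Agent.G4.U.UStar

/-!
# G4 A CmZ: the combinations tend to zero

`kap W K y₀ a κ x = max_j ‖K j x‖ exp (wt W (y₀ + x a) - κ ‖x‖²)` for the limits `K j` of the integrals (`cmb_K`).  The exponent is a quadratic polynomial with the positive leading form
`(wt W a - κ) ‖h‖²`, so `kap` satisfies a strict maximum principle on small circles without exact bad hits (`kmax`).  With `fch_lim` and `MdX` the hypotheses of `ustar` hold, so `kap = 0`, and `cX` tends to `0` (`cmb_zero`).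
-/

set_option autoImplicit false

open Topology Filter Metric

namespace Pool.Agent.G4.A

open Pool.Agent.H36.BP (EN fs wd)
open Pool.Agent.H14.PP (IsCone CurveAt Tan)
open Pool.Agent.H62.EF (MN pr)
open Pool.Agent.AD (Vd Chart Charts IsGerm)
open Pool.Agent.TG
open Pool.Agent.G3
open Pool.Agent.G3.A
open Pool.Agent.G3.R (Prm)
open Pool.Agent.G3.C (Gc nv nd nv_pr)

variable {N k : ℕ} {X : Set (EN N)} {Λ : AddSubgroup (Vd (k + 1))} {u : EN N → Vd (k + 1)} {D B Bad : Set (Vd (k + 1))} {a : Vd (k + 1)}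
  {Γ : AddSubgroup (Vd (k + 1))} {J rW : ℕ} {W : Fin rW → Vd (k + 1) →L[ℂ] ℂ} {α : Fin J → VForm X Λ u} {c₀ C₀ ρ δ : ℝ}

/-- the weighted norm of the limits of the integrals -/
noncomputable def kap (W : Fin rW → Vd (k + 1) →L[ℂ] ℂ) (K : Fin J → ℂ → ℂ) (y₀ a : Vd (k + 1)) (κ : ℝ) (x : ℂ) : ℝ :=
  ‖(fun j => K j x : Fin J → ℂ)‖ * Real.exp (wt W (y₀ + x • a) - κ * ‖x‖ ^ 2)

theorem kap_nonneg (K : Fin J → ℂ → ℂ) (y₀ a : Vd (k + 1)) (κ : ℝ) (x : ℂ) : 0 ≤ kap W K y₀ a κ x := mul_nonneg (norm_nonneg _) (Real.exp_pos _).le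

private theorem nsq_add (A h : ℂ) : ‖A + h‖ ^ 2 = ‖A‖ ^ 2 + (2 * (starRingEnd ℂ) A * h).re + ‖h‖ ^ 2 := by
  rw [Complex.sq_norm, Complex.sq_norm, Complex.sq_norm, Complex.normSq_apply, Complex.normSq_apply, Complex.normSq_apply]
  simp only [Complex.add_re, Complex.add_im, Complex.mul_re, Complex.mul_im, Complex.conj_re, Complex.conj_im, Complex.re_ofNat, Complex.im_ofNat]
  ring

/-- the exponent of `kap` as a quadratic polynomial -/
private theorem qexp (W : Fin rW → Vd (k + 1) →L[ℂ] ℂ) (y₀ a : Vd (k + 1)) (κ : ℝ) (z : ℂ) :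
    ∃ L : ℂ, ∀ h : ℂ, wt W (y₀ + (z + h) • a) - κ * ‖z + h‖ ^ 2 = (wt W (y₀ + z • a) - κ * ‖z‖ ^ 2) + (L * h).re + (wt W a - κ) * ‖h‖ ^ 2 := by
  refine ⟨(∑ i, 2 * (starRingEnd ℂ) (W i (y₀ + z • a)) * W i a) - (κ : ℂ) * (2 * (starRingEnd ℂ) z), fun h => ?_⟩
  have h1 : wt W (y₀ + (z + h) • a) = wt W (y₀ + z • a) + ((∑ i, 2 * (starRingEnd ℂ) (W i (y₀ + z • a)) * W i a) * h).re + wt W a * ‖h‖ ^ 2 := by
    simp only [wt]
    rw [Finset.sum_mul, Complex.re_sum, Finset.sum_mul, ← Finset.sum_add_distrib, ← Finset.sum_add_distrib]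
    refine Finset.sum_congr rfl fun i _ => ?_
    have e : W i (y₀ + (z + h) • a) = W i (y₀ + z • a) + h * W i a := by
      rw [add_smul, ← add_assoc, map_add, map_smul, smul_eq_mul]
    rw [e, nsq_add, norm_mul, mul_pow]
    have e2 : 2 * (starRingEnd ℂ) (W i (y₀ + z • a)) * (h * W i a) = 2 * (starRingEnd ℂ) (W i (y₀ + z • a)) * W i a * h := by ring
    rw [e2]
    ring
  rw [h1, nsq_add, sub_mul, Complex.sub_re]
  have e3 : ((κ : ℂ) * (2 * (starRingEnd ℂ) z) * h).re = κ * (2 * (starRingEnd ℂ) z * h).re := by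
    rw [mul_assoc, Complex.re_ofReal_mul]
  rw [e3]
  ring

/-- the maximum principle for `kap` -/
theorem kmax {K : Fin J → ℂ → ℂ} {y₀ a : Vd (k + 1)} {κ : ℝ} {z : ℂ} {r r' : ℝ} (hr : 0 < r) (hr' : r < r') (hK : ∀ j, ∀ x ∈ closedBall z r, DifferentiableAt ℂ (K j) x)
    {g : ℂ → ℂ} (hg : DifferentiableOn ℂ g (ball z r')) {S : ℝ} (hS : ∀ w : ℂ, dist w z = r → kap W K y₀ a κ w * ‖g w‖ ≤ S) :
    kap W K y₀ a κ z * ‖g z‖ ≤ Real.exp (-((wt W a - κ) * r ^ 2)) * S := by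
  obtain ⟨L, hL⟩ := qexp W y₀ a κ z
  set Q : ℂ → ℝ := fun x => wt W (y₀ + x • a) - κ * ‖x‖ ^ 2 with hQ
  have hQL : ∀ x : ℂ, dist x z = r → Q x = Q z + (L * (x - z)).re + (wt W a - κ) * r ^ 2 := by
    intro x hx
    have h1 := hL (x - z)
    rw [add_sub_cancel] at h1
    rw [← dist_eq_norm, hx] at h1
    exact h1
  have hS0 : 0 ≤ S := by
    have h1 := hS (z + r) (by rw [dist_eq_norm, add_sub_cancel_left, Complex.norm_real, Real.norm_eq_abs, abs_of_pos hr])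
    exact (mul_nonneg (kap_nonneg K y₀ a κ _) (norm_nonneg _)).trans h1
  have hj : ∀ j, ‖K j z‖ * ‖g z‖ ≤ Real.exp (-Q z - (wt W a - κ) * r ^ 2) * S := by
    intro j
    set F : ℂ → ℂ := fun x => K j x * g x * Complex.exp (L * (x - z)) with hF
    have hFd : DiffContOnCl ℂ F (ball z r) := by
      have h1 : ∀ x ∈ closedBall z r, DifferentiableAt ℂ F x := by
        intro x hx
        have h2 : DifferentiableAt ℂ g x := hg.differentiableAt (isOpen_ball.mem_nhds (closedBall_subset_ball hr' hx))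
        have h3 : DifferentiableAt ℂ (fun x : ℂ => Complex.exp (L * (x - z))) x := by fun_prop
        exact ((hK j x hx).mul h2).mul h3
      refine ⟨fun x hx => (h1 x (ball_subset_closedBall hx)).differentiableWithinAt, ?_⟩
      rw [closure_ball z hr.ne']
      exact fun x hx => (h1 x hx).continuousAt.continuousWithinAt
    have h4 : ‖F z‖ ≤ Real.exp (-Q z - (wt W a - κ) * r ^ 2) * S := by
      refine Complex.norm_le_of_forall_mem_frontier_norm_le isBounded_ball hFd (fun x hx => ?_) (subset_closure (mem_ball_self hr))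
      rw [frontier_ball z hr.ne'] at hx
      have hxr : dist x z = r := mem_sphere.1 hx
      have h5 := hS x hxr
      have h6 : ‖F x‖ = ‖K j x‖ * ‖g x‖ * Real.exp (L * (x - z)).re := by
        rw [hF]
        simp only
        rw [norm_mul, norm_mul, Complex.norm_exp]
      have h7 : (L * (x - z)).re = Q x + (-Q z - (wt W a - κ) * r ^ 2) := by
        rw [hQL x hxr]
        ring
      rw [h6, h7, Real.exp_add]
      have h8 : ‖K j x‖ ≤ ‖(fun j => K j x : Fin J → ℂ)‖ := norm_le_pi_norm (fun j => K j x : Fin J → ℂ) j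
      calc ‖K j x‖ * ‖g x‖ * (Real.exp (Q x) * Real.exp (-Q z - (wt W a - κ) * r ^ 2))
          ≤ ‖(fun j => K j x : Fin J → ℂ)‖ * ‖g x‖ * (Real.exp (Q x) * Real.exp (-Q z - (wt W a - κ) * r ^ 2)) := by gcongr
        _ = Real.exp (-Q z - (wt W a - κ) * r ^ 2) * (kap W K y₀ a κ x * ‖g x‖) := by
            rw [kap, hQ]
            ring
        _ ≤ Real.exp (-Q z - (wt W a - κ) * r ^ 2) * S := mul_le_mul_of_nonneg_left h5 (Real.exp_pos _).le
    have h5 : ‖F z‖ = ‖K j z‖ * ‖g z‖ := by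
      rw [hF]
      simp only
      rw [sub_self, mul_zero, Complex.exp_zero, mul_one, norm_mul]
    rwa [h5] at h4
  have hall : ‖(fun j => K j z : Fin J → ℂ)‖ * ‖g z‖ ≤ Real.exp (-Q z - (wt W a - κ) * r ^ 2) * S := by
    rcases eq_or_ne (g z) 0 with h0 | h0
    · rw [h0, norm_zero, mul_zero]
      positivity
    · have hg0 : 0 < ‖g z‖ := norm_pos_iff.2 h0
      rw [← le_div_iff₀ hg0, pi_norm_le_iff_of_nonneg (by positivity)]
      intro j
      rw [le_div_iff₀ hg0]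
      exact hj j
  have e : Real.exp (-Q z - (wt W a - κ) * r ^ 2) = Real.exp (-((wt W a - κ) * r ^ 2)) * (Real.exp (Q z))⁻¹ := by
    rw [← Real.exp_neg, ← Real.exp_add]
    congr 1
    ring
  calc kap W K y₀ a κ z * ‖g z‖ = (‖(fun j => K j z : Fin J → ℂ)‖ * ‖g z‖) * Real.exp (Q z) := by
        rw [kap, hQ]
        ring
    _ ≤ (Real.exp (-Q z - (wt W a - κ) * r ^ 2) * S) * Real.exp (Q z) := mul_le_mul_of_nonneg_right hall (Real.exp_pos _).le
    _ = Real.exp (-((wt W a - κ) * r ^ 2)) * S := by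
        rw [e]
        have := (Real.exp_pos (Q z)).ne'
        field_simp

private theorem fin_of_card {T : Set ℂ} {b : ℝ} (h : ∀ S : Finset ℂ, (∀ z ∈ S, z ∈ T) → (S.card : ℝ) ≤ b) : T.Finite ∧ (T.ncard : ℝ) ≤ b := by
  have hf : T.Finite := by
    by_contra hinf
    obtain ⟨S, hST, hSc⟩ := Set.Infinite.exists_subset_card_eq hinf (⌊b⌋₊ + 1)
    have h1 := h S (fun z hz => hST hz)
    rw [hSc] at h1
    push_cast at h1
    have := Nat.lt_floor_add_one b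
    linarith
  refine ⟨hf, ?_⟩
  have h1 := h hf.toFinset (fun z hz => hf.mem_toFinset.1 hz)
  rwa [← Set.ncard_eq_toFinset_card T hf] at h1

theorem few_ncard (hL : LC D Bad a ρ δ) (y₀ : Vd (k + 1)) {ε : ℝ} (hε : 0 < ε) : ∃ C : ℝ, ∀ (z : ℂ) (R : ℝ), 0 ≤ R → ({x : ℂ | y₀ + x • a ∈ Bad} ∩ closedBall z R).Finite ∧
    ((({x : ℂ | y₀ + x • a ∈ Bad} ∩ closedBall z R).ncard : ℕ) : ℝ) ≤ ε * R ^ 2 + C := by
  obtain ⟨C, hC⟩ := hL.few ε hε
  refine ⟨C, fun z R hR => fin_of_card fun S hS => ?_⟩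
  have h1 := hC (y₀ + z • a) R hR (S.image fun x => x - z) (fun x hx => by
    obtain ⟨x', hx', rfl⟩ := Finset.mem_image.1 hx
    obtain ⟨h2, h3⟩ := hS x' hx'
    rw [mem_closedBall, dist_eq_norm] at h3
    have e : y₀ + z • a + (x' - z) • a = y₀ + x' • a := by rw [sub_smul]; abel
    exact ⟨h3, by rw [e]; exact h2⟩)
  rwa [Finset.card_image_of_injective S (fun x x' h => by simpa using h)] at h1

variable {ι : Type} {𝒰 : Ultrafilter ι} {M : ℕ} {y : Fin M → ι → Vd (k + 1)} {y₀ : Vd (k + 1)} {f : Fin M → ι → ℂ → MN N} {g : ℂ → MN N} {c : ι → Fin M → ℂ → ℂ}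

/-- the limits of the integrals vanish -/
private theorem cmb_K0 (S : DA X Λ u D B Bad a Γ W α c₀ C₀ ρ δ) (hC : Cmb X Λ u D a 𝒰 y y₀ f g c) {K : Fin J → ℂ → ℂ} (hKd : ∀ j, ∀ z : ℂ, y₀ + z • a ∉ Bad → DifferentiableAt ℂ (K j) z)
    (hK : ∀ j, ∀ x : ℂ, y₀ + x • a ∉ D → ∀ (v : EN N) (R : ℝ) (Ψ : EN N → ℂ), Prm (α j) (y₀ + x • a) v R Ψ → pr v = g x → ∀ w : ι → ℂ, Tendsto w 𝒰 (𝓝 x) →
        Tendsto (fun n => fderiv ℂ Ψ v (cX c f v n (w n))) 𝒰 (𝓝 (K j x))) {κ : ℝ} (hκ : 0 ≤ κ) (hκ₀ : κ < c₀)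
    (hb : ∀ δ' : ℝ, 0 < δ' → ∃ C : ℝ, ∀ x : ℂ, y₀ + x • a ∈ Gd D δ' → ∀ v : EN N, ‖v‖ = 1 → pr v = g x → ∀ᶠ n in (𝒰 : Filter ι), ‖cX c f v n x‖ ≤ C * Real.exp (κ * ‖x‖ ^ 2))
    (hm : MdX D a 𝒰 y₀ f g c δ) {x : ℂ} (hx : y₀ + x • a ∉ Bad) : kap W K y₀ a κ x = 0 := by
  have hδ := S.lc.δ_pos
  have hδρ := S.lc.δ_le
  have hρ8 := S.lc.ρ_le
  have hδ64 : δ ≤ 1 / 64 := by linarith
  have hX := S.geo.cone
  have hgm := hC.g_mem
  have ha : ‖a‖ = 1 := S.lc.norm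
  have hsm : ∀ z : ℂ, ‖z • a‖ = ‖z‖ := fun z => by rw [norm_smul, ha, mul_one]
  have hc₁ : 0 < wt W a - κ := by
    have := S.wtc a
    rw [ha, one_pow, mul_one] at this
    linarith
  set E : Set ℂ := {z : ℂ | y₀ + z • a ∈ Bad} with hE
  have hEc : IsClosed E := hits_closed S.lg.iso S.lc.bad_sub y₀
  obtain ⟨C₂, hC₂⟩ := few_ncard S.lc y₀ one_pos
  obtain ⟨M₀, hM₀⟩ : ∃ M₀ : ℕ, M₀ = ⌈1 * (2 : ℝ) ^ 2 + C₂⌉₊ := ⟨_, rfl⟩
  -- the radius
  obtain ⟨d₀, hd₀, hd₁⟩ : ∃ d₀ : ℝ, 0 < d₀ ∧ ∀ e ∈ E, d₀ ≤ dist x e := by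
    obtain ⟨d₀, h1, h2⟩ := Metric.isOpen_iff.1 hEc.isOpen_compl x hx
    refine ⟨d₀, h1, fun e he => ?_⟩
    by_contra h3
    push Not at h3
    exact h2 (mem_ball'.2 h3) he
  obtain ⟨r₀, hr₀, hr₁, hr₂⟩ : ∃ r₀ : ℝ, 0 < r₀ ∧ r₀ ≤ d₀ ∧ r₀ ≤ δ ^ (M₀ + 1) := ⟨min d₀ (δ ^ (M₀ + 1)), lt_min hd₀ (by positivity), min_le_left _ _, min_le_right _ _⟩
  have hr₃ : r₀ / (2 * δ) * (1 / δ) ^ M₀ ≤ 1 / 2 := by
    have h1 : r₀ / (2 * δ) * (1 / δ) ^ M₀ ≤ δ ^ (M₀ + 1) / (2 * δ) * (1 / δ) ^ M₀ := by gcongr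
    refine h1.trans (le_of_eq ?_)
    rw [pow_succ, one_div, inv_pow]
    have := hδ.ne'
    have := pow_ne_zero M₀ hδ.ne'
    field_simp
  have hr₄ : r₀ ≤ 1 / 64 := (hr₂.trans (pow_le_of_le_one hδ.le (by linarith) (Nat.succ_ne_zero _))).trans hδ64
  -- the circles
  obtain ⟨δ₁, hδ₁, hcirc⟩ := S.lc.circ (r₀ / 4) (by positivity)
  have hcirc' : ∀ z : ℂ, ∃ r : ℝ, 0 < r ∧ r < r₀ / 4 ∧ ∀ w : ℂ, dist w z = r → y₀ + w • a ∈ Gd D δ₁ := by
    intro z
    obtain ⟨r, h1, h2, h3⟩ := hcirc (y₀ + z • a)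
    refine ⟨r, h1, h2, fun w hw => ?_⟩
    have h4 := h3 (w - z) (by rw [← dist_eq_norm, hw])
    have e : y₀ + z • a + (w - z) • a = y₀ + w • a := by rw [sub_smul]; abel
    rwa [e] at h4
  obtain ⟨A, hA, hAl⟩ := fch_lim S hC hK hδ₁
  obtain ⟨A', hA', hAl'⟩ := fch_lim S hC hK (δ' := 2 * δ) (by positivity)
  obtain ⟨Cb, hCb⟩ := hb δ₁ hδ₁
  obtain ⟨Cm, hCm, hmd⟩ := hm δ₁ hδ₁
  -- the bound over `Gd D δ₁`
  have hkb : ∀ w : ℂ, y₀ + w • a ∈ Gd D δ₁ → kap W K y₀ a κ w ≤ A * max Cb 0 := by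
    intro w hw
    obtain ⟨v, hv, hvg⟩ := hc_exu hX hgm w
    obtain ⟨Z, hZ, h1, -⟩ := hAl w hw v hv hvg
    have h2 : ‖Z‖ ≤ max Cb 0 * Real.exp (κ * ‖w‖ ^ 2) := by
      refine le_of_tendsto (hZ (fun _ => w) tendsto_const_nhds).norm ?_
      filter_upwards [hCb w hw v hv hvg] with n hn
      refine hn.trans ?_
      gcongr
      exact le_max_left _ _
    have h3 : ‖(fun j => K j w : Fin J → ℂ)‖ ≤ A * ‖Z‖ * (Real.exp (wt W (y₀ + w • a)))⁻¹ := by
      rw [pi_norm_le_iff_of_nonneg (by positivity)]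
      intro j
      rw [← div_eq_mul_inv, le_div_iff₀ (Real.exp_pos _)]
      exact h1 j
    have e : Real.exp (wt W (y₀ + w • a) - κ * ‖w‖ ^ 2) = Real.exp (wt W (y₀ + w • a)) * (Real.exp (κ * ‖w‖ ^ 2))⁻¹ := by
      rw [← Real.exp_neg, ← Real.exp_add]
      congr 1
    rw [kap, e]
    calc ‖(fun j => K j w : Fin J → ℂ)‖ * (Real.exp (wt W (y₀ + w • a)) * (Real.exp (κ * ‖w‖ ^ 2))⁻¹)
        ≤ (A * (max Cb 0 * Real.exp (κ * ‖w‖ ^ 2)) * (Real.exp (wt W (y₀ + w • a)))⁻¹) * (Real.exp (wt W (y₀ + w • a)) * (Real.exp (κ * ‖w‖ ^ 2))⁻¹) := by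
          refine mul_le_mul_of_nonneg_right (h3.trans ?_) (by positivity)
          gcongr
      _ = A * max Cb 0 := by
          have := (Real.exp_pos (wt W (y₀ + w • a))).ne'
          have := (Real.exp_pos (κ * ‖w‖ ^ 2)).ne'
          field_simp
  -- the bound by the values in the core
  have hkm : ∀ z w : ℂ, dist w z < r₀ / 4 → y₀ + w • a ∈ Gd D δ₁ → ∀ G : ℂ → ℂ, DifferentiableOn ℂ G (ball z 1) → ∀ T : ℝ, 0 ≤ T →
      (∀ x, dist x z ≤ 1 / 2 → (∀ e ∈ E, 2 * δ ≤ dist x e) → kap W K y₀ a κ x * ‖G x‖ ≤ T) → kap W K y₀ a κ w * ‖G w‖ ≤ A * Cm * A' * Real.exp κ * T := by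
    intro z w hwz hw G hG T hT0 hT
    have hwz' := hwz
    rw [dist_eq_norm] at hwz'
    -- the factor
    obtain ⟨G₁, hG₁⟩ : ∃ G₁ : ℂ → ℂ, G₁ = fun x => G x * Complex.exp (-((κ * ‖w‖ ^ 2 : ℝ) : ℂ) - (2 * κ : ℝ) * ((starRingEnd ℂ) w * (x - w))) := ⟨_, rfl⟩
    have hG₁d : DifferentiableOn ℂ G₁ (ball w (1 / 2)) := by
      rw [hG₁]
      refine DifferentiableOn.mul (hG.mono ?_) (Differentiable.differentiableOn (by fun_prop))
      intro x hx
      rw [mem_ball] at hx ⊢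
      have := dist_triangle x w z
      linarith
    have hG₁n : ∀ x, ‖G₁ x‖ = ‖G x‖ * Real.exp (-(κ * ‖x‖ ^ 2) + κ * ‖x - w‖ ^ 2) := by
      intro x
      rw [hG₁]
      simp only
      rw [norm_mul, Complex.norm_exp]
      congr 2
      have h1 : ‖x‖ ^ 2 = ‖w‖ ^ 2 + (2 * (starRingEnd ℂ) w * (x - w)).re + ‖x - w‖ ^ 2 := by
        have := nsq_add w (x - w)
        rwa [add_sub_cancel] at this
      rw [h1, Complex.sub_re, Complex.neg_re, Complex.ofReal_re, Complex.re_ofReal_mul, mul_assoc (2 : ℂ)]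
      have h2 : (2 * ((starRingEnd ℂ) w * (x - w))).re = 2 * ((starRingEnd ℂ) w * (x - w)).re := by
        rw [Complex.mul_re]
        simp
      rw [h2]
      ring
    obtain ⟨v, hv, hvg⟩ := hc_exu hX hgm w
    obtain ⟨Z, hZ, h1, -⟩ := hAl w hw v hv hvg
    -- the bound for every `η`
    have hη : ∀ η : ℝ, 0 < η → ‖Z‖ * ‖G₁ w‖ ≤ Cm * (A' * Real.exp κ * T + η) := by
      intro η hη
      have h2 := hmd w hw G₁ hG₁d (A' * Real.exp κ * T + η) (by positivity) (fun z' hz' hz'G v' hv' hvg' w' hw' => ?_) v hv hvg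
      · exact le_of_tendsto (((hZ (fun _ => w) tendsto_const_nhds).norm).mul_const _) h2
      · obtain ⟨Z', hZ', -, j, hj⟩ := hAl' z' hz'G v' hv' hvg'
        have h3 : ‖Z'‖ * ‖G₁ z'‖ ≤ A' * Real.exp κ * T := by
          have h4 : kap W K y₀ a κ z' * ‖G z'‖ ≤ T := by
            refine hT z' ?_ ?_
            · have := dist_triangle z' w z
              rw [← dist_eq_norm] at hz'
              linarith
            · intro e he
              have h5 := hz'G (y₀ + e • a) (S.lc.bad_sub he)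
              have e1 : y₀ + z' • a - (y₀ + e • a) = (z' - e) • a := by rw [sub_smul]; abel
              rw [e1, hsm] at h5
              rwa [dist_eq_norm]
          have h5 : ‖z' - w‖ ^ 2 ≤ 1 := by
            have : ‖z' - w‖ ≤ 1 := by linarith
            exact pow_le_one₀ (norm_nonneg _) this
          have h6 : Real.exp (-(κ * ‖z'‖ ^ 2) + κ * ‖z' - w‖ ^ 2) ≤ Real.exp (-(κ * ‖z'‖ ^ 2)) * Real.exp κ := by
            rw [← Real.exp_add]
            refine Real.exp_le_exp.2 ?_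
            nlinarith
          have h7 : ‖K j z'‖ ≤ ‖(fun j => K j z' : Fin J → ℂ)‖ := norm_le_pi_norm (fun j => K j z' : Fin J → ℂ) j
          rw [hG₁n]
          calc ‖Z'‖ * (‖G z'‖ * Real.exp (-(κ * ‖z'‖ ^ 2) + κ * ‖z' - w‖ ^ 2))
              ≤ (A' * (‖(fun j => K j z' : Fin J → ℂ)‖ * Real.exp (wt W (y₀ + z' • a)))) * (‖G z'‖ * (Real.exp (-(κ * ‖z'‖ ^ 2)) * Real.exp κ)) := by
                refine mul_le_mul (hj.trans ?_) (mul_le_mul_of_nonneg_left h6 (norm_nonneg _)) (by positivity) (by positivity)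
                gcongr
            _ = A' * Real.exp κ * (kap W K y₀ a κ z' * ‖G z'‖) := by
                rw [kap, sub_eq_add_neg, Real.exp_add]
                ring
            _ ≤ A' * Real.exp κ * T := mul_le_mul_of_nonneg_left h4 (by positivity)
        have h8 := ((hZ' w' hw').norm).mul_const ‖G₁ z'‖
        filter_upwards [h8.eventually_lt_const (show ‖Z'‖ * ‖G₁ z'‖ < A' * Real.exp κ * T + η by linarith)] with n hn
        exact hn.le
    have h2 : ‖Z‖ * ‖G₁ w‖ ≤ Cm * (A' * Real.exp κ * T) := by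
      refine le_of_forall_pos_le_add fun η hη0 => ?_
      have h3 := hη (η / Cm) (by positivity)
      have e : Cm * (A' * Real.exp κ * T + η / Cm) = Cm * (A' * Real.exp κ * T) + η := by
        field_simp
      rwa [e] at h3
    have h3 : ‖(fun j => K j w : Fin J → ℂ)‖ * Real.exp (wt W (y₀ + w • a)) ≤ A * ‖Z‖ := by
      rw [← le_div_iff₀ (Real.exp_pos _), pi_norm_le_iff_of_nonneg (by positivity)]
      intro j
      rw [le_div_iff₀ (Real.exp_pos _)]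
      exact h1 j
    have h4 : ‖G₁ w‖ = ‖G w‖ * Real.exp (-(κ * ‖w‖ ^ 2)) := by
      rw [hG₁n, sub_self, norm_zero]
      congr 2
      ring
    calc kap W K y₀ a κ w * ‖G w‖ = (‖(fun j => K j w : Fin J → ℂ)‖ * Real.exp (wt W (y₀ + w • a))) * (‖G w‖ * Real.exp (-(κ * ‖w‖ ^ 2))) := by
          rw [kap, sub_eq_add_neg, Real.exp_add]
          ring
      _ ≤ A * ‖Z‖ * ‖G₁ w‖ := by
          rw [h4]
          exact mul_le_mul_of_nonneg_right h3 (by positivity)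
      _ = A * (‖Z‖ * ‖G₁ w‖) := by ring
      _ ≤ A * (Cm * (A' * Real.exp κ * T)) := mul_le_mul_of_nonneg_left h2 hA.le
      _ = A * Cm * A' * Real.exp κ * T := by ring
  -- the disc of a small circle contains no exact bad hit
  have hdisc : ∀ z : ℂ, (∀ e ∈ E, r₀ / 2 ≤ dist z e) → ∀ r : ℝ, r ≤ r₀ / 4 → ∀ j, ∀ x ∈ closedBall z r, DifferentiableAt ℂ (K j) x := by
    intro z hz r hr j x hx
    refine hKd j x fun hxB => ?_
    have h1 := hz x hxB
    rw [mem_closedBall, dist_comm] at hx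
    linarith
  have hlt : ∀ r : ℝ, Real.exp (-((wt W a - κ) * r ^ 2)) ≤ 1 := by
    intro r
    rw [Real.exp_le_one_iff]
    have : 0 ≤ (wt W a - κ) * r ^ 2 := by positivity
    linarith
  refine Pool.Agent.G4.U.ustar (E := E) hEc ?_ (M := M₀) ?_ ?_ hδ (by linarith) (ρ := 1 / 2) (by norm_num) le_rfl hr₀ hr₃ (q := Real.exp (-((wt W a - κ) * (r₀ / 4) ^ 2)))
    ?_ (κ := kap W K y₀ a κ) (C₁ := max (A * max Cb 0) (A * Cm * A' * Real.exp κ)) (kap_nonneg K y₀ a κ) ?_ ?_ ?_ x (fun e he => hr₁.trans (hd₁ e he))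
  · intro z R
    rcases le_or_gt 0 R with hR | hR
    · exact (hC₂ z R hR).1
    · rw [closedBall_eq_empty.2 hR, Set.inter_empty]
      exact Set.finite_empty
  · intro z
    have h1 := (hC₂ z 2 (by norm_num)).2
    rw [hM₀]
    have h2 := h1.trans (Nat.le_ceil _)
    exact_mod_cast h2
  · intro ε hε
    obtain ⟨C, hC⟩ := few_ncard S.lc y₀ hε
    exact ⟨C, fun z R hR => (hC z R (by linarith)).2⟩
  · rw [Real.exp_lt_one_iff]
    have : 0 < (wt W a - κ) * (r₀ / 4) ^ 2 := by positivity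
    linarith
  · intro z hz
    obtain ⟨r, hr, hr', hc⟩ := hcirc' z
    have h1 := kmax (W := W) (K := K) (y₀ := y₀) (a := a) (κ := κ) (z := z) (r' := r + 1) hr (by linarith) (hdisc z hz r hr'.le) (g := fun _ => 1) (differentiableOn_const _)
      (S := A * max Cb 0) (fun w hw => by
        rw [norm_one, mul_one]
        exact hkb w (hc w hw))
    rw [norm_one, mul_one] at h1
    refine h1.trans (le_trans ?_ (le_max_left _ _))
    have : 0 ≤ A * max Cb 0 := by positivity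
    exact mul_le_of_le_one_left this (hlt r)
  · intro z hz G hG _ T hT
    refine kmax (r' := r₀ / 2) (by positivity) (by linarith) (hdisc z (fun e he => by linarith [hz e he]) _ le_rfl) hG hT
  · intro z hz _ G hG _ T hT
    -- `T` is not negative
    have hT0 : 0 ≤ T := by
      obtain ⟨r, hr, hr', hc⟩ := S.lc.circC (y₀ + z • a)
      have h1 := hc (r : ℂ) (by rw [Complex.norm_real, Real.norm_eq_abs, abs_of_pos hr])
      have e : y₀ + z • a + (r : ℂ) • a = y₀ + (z + r) • a := by rw [add_smul]; abel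
      rw [e] at h1
      refine (mul_nonneg (kap_nonneg K y₀ a κ _) (norm_nonneg _)).trans (hT (z + r) ?_ ?_)
      · rw [dist_eq_norm, add_sub_cancel_left, Complex.norm_real, Real.norm_eq_abs, abs_of_pos hr]
        linarith
      · intro e he
        have h5 := h1 (y₀ + e • a) (S.lc.bad_sub he)
        have e1 : y₀ + (z + r) • a - (y₀ + e • a) = (z + r - e) • a := by rw [sub_smul]; abel
        rw [e1, hsm] at h5
        rw [dist_eq_norm]
        linarith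
    obtain ⟨r, hr, hr', hc⟩ := hcirc' z
    have h1 := kmax (W := W) (K := K) (y₀ := y₀) (a := a) (κ := κ) (z := z) (r' := 1) hr (by linarith) (hdisc z hz r hr'.le) hG
      (S := A * Cm * A' * Real.exp κ * T) (fun w hw => hkm z w (by rw [hw]; exact hr') (hc w hw) G hG T hT0 hT)
    refine h1.trans ?_
    have h2 : 0 ≤ A * Cm * A' * Real.exp κ * T := by positivity
    refine (mul_le_of_le_one_left h2 (hlt r)).trans ?_
    exact mul_le_mul_of_nonneg_right (le_max_right _ _) hT0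

theorem cmb_zero (S : DA X Λ u D B Bad a Γ W α c₀ C₀ ρ δ) (hC : Cmb X Λ u D a 𝒰 y y₀ f g c) {κ : ℝ} (hκ : 0 ≤ κ) (hκ₀ : κ < c₀)
    (hb : ∀ δ' : ℝ, 0 < δ' → ∃ C : ℝ, ∀ x : ℂ, y₀ + x • a ∈ Gd D δ' → ∀ v : EN N, ‖v‖ = 1 → pr v = g x → ∀ᶠ n in (𝒰 : Filter ι), ‖cX c f v n x‖ ≤ C * Real.exp (κ * ‖x‖ ^ 2))
    (hm : MdX D a 𝒰 y₀ f g c δ) {x : ℂ} (hx : y₀ + x • a ∉ D) {v : EN N} (hv : ‖v‖ = 1) (hvg : pr v = g x) {w : ι → ℂ} (hw : Tendsto w 𝒰 (𝓝 x)) :
    Tendsto (fun n => cX c f v n (w n)) 𝒰 (𝓝 0) := by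
  choose K hKd hK using fun j => cmb_K S.geo S.lg S.cr S.good hC (α j)
  have hxB : y₀ + x • a ∉ Bad := fun h => hx (S.lc.bad_sub h)
  have h0 := cmb_K0 S hC hKd hK hκ hκ₀ hb hm hxB
  have hK0 : ∀ j, K j x = 0 := by
    intro j
    have h1 : ‖(fun j => K j x : Fin J → ℂ)‖ = 0 := by
      rw [kap] at h0
      rcases mul_eq_zero.1 h0 with h | h
      · exact h
      · exact absurd h (Real.exp_pos _).ne'
    have h2 := norm_le_pi_norm (fun j => K j x : Fin J → ℂ) j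
    rw [h1] at h2
    exact norm_le_zero_iff.1 h2
  obtain ⟨δ', hδ', hxG⟩ : ∃ δ' : ℝ, 0 < δ' ∧ y₀ + x • a ∈ Gd D δ' := by
    obtain ⟨r, hr, hrD⟩ := Metric.isOpen_iff.1 S.lg.D_closed.isOpen_compl _ hx
    refine ⟨r, hr, fun d hd => ?_⟩
    by_contra h
    push Not at h
    exact hrD (show d ∈ ball (y₀ + x • a) r by rw [mem_ball, dist_comm, dist_eq_norm]; exact h) hd
  obtain ⟨A, hA, hAl⟩ := fch_lim S hC hK hδ'
  obtain ⟨Z, hZ, -, j, hj⟩ := hAl x hxG v hv hvg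
  rw [hK0 j, norm_zero, zero_mul, mul_zero] at hj
  have hZ0 : Z = 0 := norm_le_zero_iff.1 hj
  have h1 := hZ w hw
  rwa [hZ0] at h1

end Pool.Agent.G4.A
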