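import Pool.Agent.G4.A.Defs
import Pool.Agent.G4.Z.JW
import Pool.Agent.TG.Y.Dv

/-!
# G4 A FrmW: the bounds of the forms with the weight

As `G3/A/FrmA`: `|α j (y, x, v)| ≤ C₀ exp (- wt W y)` for the tangent vectors `v` of norm at most `‖x‖` (`DecW`).
-/

set_option autoImplicit false

open Topology Filter Metric

namespace Pool.Agent.G4.A

open Pool.Agent.H36.BP (EN fs wd)
open Pool.Agent.H14.PP (IsCone CurveAt Tan)
open Pool.Agent.H62.EF (MN pr)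
open Pool.Agent.AD (Vd Chart Charts IsGerm)
open Pool.Agent.TG
open Pool.Agent.G3 (wt)
open Pool.Agent.G3.A (Frm)
open Pool.Agent.G3.C (Gc HP)

variable {N k : ℕ} {X : Set (EN N)} {Λ : AddSubgroup (Vd (k + 1))} {u : EN N → Vd (k + 1)} {D B Bad : Set (Vd (k + 1))} {a : Vd (k + 1)}

/-- a determinant with entries of norm at most `C` -/
private theorem FrmW_det {n : ℕ} (M : Matrix (Fin n) (Fin n) ℂ) {C : ℝ} (hM : ∀ i j, ‖M i j‖ ≤ C) : ‖M.det‖ ≤ (n.factorial : ℝ) * C ^ n := by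
  rw [Matrix.det_apply']
  calc ‖∑ σ : Equiv.Perm (Fin n), ((Equiv.Perm.sign σ : ℤ) : ℂ) * ∏ i, M (σ i) i‖
      ≤ ∑ σ : Equiv.Perm (Fin n), ‖((Equiv.Perm.sign σ : ℤ) : ℂ) * ∏ i, M (σ i) i‖ := norm_sum_le _ _
    _ ≤ ∑ _σ : Equiv.Perm (Fin n), C ^ n := by
        refine Finset.sum_le_sum fun σ _ => ?_
        rw [norm_mul, norm_prod]
        have h1 : ‖((Equiv.Perm.sign σ : ℤ) : ℂ)‖ = 1 := by
          rcases Int.units_eq_one_or (Equiv.Perm.sign σ) with h | h <;> simp [h]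
        rw [h1, one_mul]
        calc ∏ i, ‖M (σ i) i‖ ≤ ∏ _i : Fin n, C := Finset.prod_le_prod (fun i _ => norm_nonneg _) fun i _ => hM _ _
          _ = C ^ n := by simp
    _ = (n.factorial : ℝ) * C ^ n := by
        rw [Finset.sum_const, Finset.card_univ, Fintype.card_perm, Fintype.card_fin, nsmul_eq_mul]

/-- the local bound -/
private theorem FrmW_loc (hX : IsCone X) (hch : Charts (k + 2) X) (hu : TMap X Λ u) (hΛ : Lat Λ) (α : VForm X Λ u) (y₀ : Vd (k + 1)) {x₀ : EN N} (hx₀ : x₀ ∈ X) :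
    ∃ C : ℝ, ∀ᶠ p in 𝓝 ((y₀, x₀) : Vd (k + 1) × EN N), p.2 ∈ X → u p.2 - p.1 ∈ Λ → ∀ v : Fin (k + 2) → EN N, (∀ i, Tan X p.2 (v i)) → (∀ i, ‖v i‖ ≤ 1) →
      ‖α.toFun p.1 p.2 v‖ ≤ C := by
  have hfst : Tendsto (fun p : Vd (k + 1) × EN N => p.1) (𝓝 (y₀, x₀)) (𝓝 y₀) := continuousAt_fst
  have hsnd : Tendsto (fun p : Vd (k + 1) × EN N => p.2) (𝓝 (y₀, x₀)) (𝓝 x₀) := continuousAt_snd
  by_cases h : u x₀ - y₀ ∈ Λ
  · obtain ⟨χ, hU, hq0⟩ := hch x₀ hx₀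
    obtain ⟨υ, hυ, hυe, hl⟩ := exists_lift_chart hX hu χ hx₀ hU h
    have hb : χ.q x₀ ∈ ball (0 : Vd (k + 2)) 2 := (χ.surj x₀ hx₀ hU).1
    obtain ⟨δ, hδ, hdisc⟩ := hΛ.disc
    set C₁ : ℝ := ‖tc α χ υ (χ.q x₀)‖ + 1 with hC₁
    set C₂ : ℝ := ‖fderiv ℂ χ.q x₀‖ + 1 with hC₂
    have hqc : Tendsto χ.q (𝓝 x₀) (𝓝 (χ.q x₀)) := (χ.q_an x₀ hU).continuousAt
    have h1 : ∀ᶠ q in 𝓝 (χ.q x₀), ‖tc α χ υ q‖ < C₁ :=
      (tc_an α χ hb hυ hl).continuousAt.norm.eventually_lt_const (by show ‖tc α χ υ (χ.q x₀)‖ < C₁; linarith)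
    have h2 : ∀ᶠ x in 𝓝 x₀, ‖fderiv ℂ χ.q x‖ < C₂ :=
      (χ.q_an x₀ hU).fderiv.continuousAt.norm.eventually_lt_const (by show ‖fderiv ℂ χ.q x₀‖ < C₂; linarith)
    have h3 : ∀ᶠ p in 𝓝 ((y₀, x₀) : Vd (k + 1) × EN N), ‖p.1 - υ (χ.q p.2)‖ < δ := by
      have h4 : Tendsto (fun p : Vd (k + 1) × EN N => ‖p.1 - υ (χ.q p.2)‖) (𝓝 (y₀, x₀)) (𝓝 ‖y₀ - υ (χ.q x₀)‖) :=
        (hfst.sub (hυ.continuousAt.tendsto.comp (hqc.comp hsnd))).norm
      refine h4.eventually_lt_const ?_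
      rw [hυe, sub_self, norm_zero]
      exact hδ
    refine ⟨((k + 2).factorial : ℝ) * C₂ ^ (k + 2) * C₁, ?_⟩
    filter_upwards [hsnd.eventually (hqc.eventually h1), hsnd.eventually h2, h3, hsnd.eventually (χ.isOpen_U.mem_nhds hU), hsnd.eventually (hqc.eventually hl)]
      with p hp1 hp2 hp3 hp4 hp5 hpX hpu v hv hv1
    obtain ⟨hqb, c, hc, hcx⟩ := χ.surj p.2 hpX hp4
    have hσX : χ.σ (χ.q p.2) ∈ X := (χ.σ_mem _ hqb).1
    have h6 : u p.2 - υ (χ.q p.2) ∈ Λ := by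
      have h7 : u (c • χ.σ (χ.q p.2)) - u (χ.σ (χ.q p.2)) ∈ Λ := hu.smul _ hσX c hc
      rw [← hcx] at h7
      have h8 := Λ.add_mem h7 hp5
      have e : u p.2 - u (χ.σ (χ.q p.2)) + (u (χ.σ (χ.q p.2)) - υ (χ.q p.2)) = u p.2 - υ (χ.q p.2) := by abel
      rwa [e] at h8
    have h7 : υ (χ.q p.2) = p.1 := by
      have h8 := Λ.sub_mem h6 hpu
      have e : u p.2 - υ (χ.q p.2) - (u p.2 - p.1) = p.1 - υ (χ.q p.2) := by abel
      rw [e] at h8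
      exact (sub_eq_zero.1 (hdisc _ h8 hp3)).symm
    rw [toFun_eq hX hu α χ hpX hp4 hpu h7 v hv, norm_mul]
    have h8 : ‖(Matrix.of fun i j => fderiv ℂ χ.q p.2 (v i) j).det‖ ≤ ((k + 2).factorial : ℝ) * C₂ ^ (k + 2) := by
      refine FrmW_det _ fun i j => ?_
      show ‖fderiv ℂ χ.q p.2 (v i) j‖ ≤ C₂
      have h9 : ‖fderiv ℂ χ.q p.2 (v i) j‖ ≤ ‖fderiv ℂ χ.q p.2 (v i)‖ := norm_le_pi_norm _ j
      have h10 := (fderiv ℂ χ.q p.2).le_opNorm (v i)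
      have h11 : ‖fderiv ℂ χ.q p.2‖ * ‖v i‖ ≤ C₂ * 1 := mul_le_mul hp2.le (hv1 i) (norm_nonneg _) (by positivity)
      linarith
    exact mul_le_mul h8 hp1.le (norm_nonneg _) (by positivity)
  · refine ⟨0, ?_⟩
    obtain ⟨w, hw, hwl⟩ := hu.loc x₀ hx₀
    have h1 : w x₀ - y₀ ∉ Λ := by
      intro h2
      apply h
      have h3 := Λ.add_mem (hwl.self_of_nhds hx₀) h2
      have e : u x₀ - w x₀ + (w x₀ - y₀) = u x₀ - y₀ := by abel
      rwa [e] at h3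
    have h2 : Tendsto (fun p : Vd (k + 1) × EN N => w p.2 - p.1) (𝓝 (y₀, x₀)) (𝓝 (w x₀ - y₀)) :=
      (hw.continuousAt.tendsto.comp hsnd).sub hfst
    have h3 : ∀ᶠ p in 𝓝 ((y₀, x₀) : Vd (k + 1) × EN N), w p.2 - p.1 ∈ ((Λ : Set (Vd (k + 1))))ᶜ :=
      h2.eventually (hΛ.closed.isOpen_compl.mem_nhds h1)
    filter_upwards [h3, hsnd.eventually hwl] with p hp1 hp2 hpX hpu
    exfalso
    apply hp1
    have h4 := Λ.sub_mem hpu (hp2 hpX)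
    have e : u p.2 - p.1 - (u p.2 - w p.2) = w p.2 - p.1 := by abel
    rw [e] at h4
    exact h4

/-- the bound over a ball -/
private theorem FrmW_ball (hX : IsCone X) (hch : Charts (k + 2) X) (hu : TMap X Λ u) (hΛ : Lat Λ) (α : VForm X Λ u) (R : ℝ) :
    ∃ C : ℝ, 0 ≤ C ∧ ∀ y : Vd (k + 1), ‖y‖ ≤ R → ∀ x ∈ X, u x - y ∈ Λ → ∀ v : Fin (k + 2) → EN N, (∀ i, Tan X x (v i)) → (∀ i, ‖v i‖ ≤ ‖x‖) →
      ‖α.toFun y x v‖ ≤ C := by
  have hK : IsCompact (closedBall (0 : Vd (k + 1)) R ×ˢ (X ∩ sphere (0 : EN N) 1)) := (isCompact_closedBall _ _).prod (compact_unit hX)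
  have h1 : ∃ C : ℝ, ∀ p ∈ closedBall (0 : Vd (k + 1)) R ×ˢ (X ∩ sphere (0 : EN N) 1), p.2 ∈ X → u p.2 - p.1 ∈ Λ → ∀ v : Fin (k + 2) → EN N,
      (∀ i, Tan X p.2 (v i)) → (∀ i, ‖v i‖ ≤ 1) → ‖α.toFun p.1 p.2 v‖ ≤ C := by
    refine hK.induction_on (p := fun S : Set (Vd (k + 1) × EN N) => ∃ C : ℝ, ∀ p ∈ S, p.2 ∈ X → u p.2 - p.1 ∈ Λ → ∀ v : Fin (k + 2) → EN N,
      (∀ i, Tan X p.2 (v i)) → (∀ i, ‖v i‖ ≤ 1) → ‖α.toFun p.1 p.2 v‖ ≤ C) ?_ ?_ ?_ ?_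
    · exact ⟨0, fun p hp => absurd hp (Set.notMem_empty p)⟩
    · rintro S T hST ⟨C, hC⟩
      exact ⟨C, fun p hp => hC p (hST hp)⟩
    · rintro S T ⟨C, hC⟩ ⟨C', hC'⟩
      refine ⟨max C C', fun p hp h1 h2 v h3 h4 => ?_⟩
      rcases hp with hp | hp
      · exact (hC p hp h1 h2 v h3 h4).trans (le_max_left _ _)
      · exact (hC' p hp h1 h2 v h3 h4).trans (le_max_right _ _)
    · rintro ⟨y, x⟩ ⟨hy, hx, hx'⟩
      obtain ⟨C, hC⟩ := FrmW_loc hX hch hu hΛ α y hx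
      exact ⟨_, mem_nhdsWithin_of_mem_nhds hC, C, fun p hp => hp⟩
  obtain ⟨C, hC⟩ := h1
  refine ⟨max C 0, le_max_right _ _, fun y hy x hx hxy v hv hvn => ?_⟩
  have hn : 0 < ‖x‖ := norm_pos_iff.2 (ne_zero hX hx)
  have hc : (((‖x‖⁻¹ : ℝ)) : ℂ) ≠ 0 := by
    exact_mod_cast inv_ne_zero hn.ne'
  set c : ℂ := (((‖x‖⁻¹ : ℝ)) : ℂ) with hcd
  have hcn : ‖c‖ = ‖x‖⁻¹ := by rw [hcd, Complex.norm_real, norm_inv, norm_norm]
  have hcx : c • x ∈ X := hX.smul_mem x hx c hc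
  have hcs : c • x ∈ sphere (0 : EN N) 1 := by
    rw [mem_sphere_zero_iff_norm, norm_smul, hcn]
    exact inv_mul_cancel₀ hn.ne'
  have ht : ∀ i, Tan X (c • x) (c • v i) := by
    intro i
    obtain ⟨F, hF, hF0, hFd⟩ := hv i
    refine ⟨fun z => c • F z, ⟨AnalyticAt.fun_smul analyticAt_const hF.1, ?_⟩, ?_, ?_⟩
    · filter_upwards [hF.2] with z hz
      exact hX.smul_mem _ hz c hc
    · show c • F 0 = c • x
      rw [hF0]
    · have h1 : HasDerivAt (fun z => c • F z) (c • deriv F 0) 0 := hF.1.differentiableAt.hasDerivAt.const_smul c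
      rw [h1.deriv, hFd]
  have h2 := hC (y, c • x) ⟨by rwa [mem_closedBall_zero_iff], hcx, hcs⟩ hcx (smul_mem_lat hu hx hxy hc) (fun i => c • v i) ht (fun i => by
    rw [norm_smul, hcn]
    calc ‖x‖⁻¹ * ‖v i‖ ≤ ‖x‖⁻¹ * ‖x‖ := mul_le_mul_of_nonneg_left (hvn i) (by positivity)
      _ = 1 := inv_mul_cancel₀ hn.ne')
  rw [α.scale y x hx hxy v hv c hc] at h2
  exact h2.trans (le_max_left _ _)

/-- the weight is bounded on balls -/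
private theorem FrmW_wt_le {r : ℕ} (W : Fin r → Vd (k + 1) →L[ℂ] ℂ) (R : ℝ) : ∃ M : ℝ, ∀ y : Vd (k + 1), ‖y‖ ≤ R → wt W y ≤ M := by
  refine ⟨∑ i, (‖W i‖ * R) ^ 2, fun y hy => ?_⟩
  unfold wt
  refine Finset.sum_le_sum fun i _ => ?_
  refine pow_le_pow_left₀ (norm_nonneg _) ?_ 2
  exact ((W i).le_opNorm y).trans (mul_le_mul_of_nonneg_left hy (norm_nonneg _))

/-- the weight is positive definite -/
theorem decW (G : Geo X Λ u D B) {Γ : AddSubgroup (Vd (k + 1))} {J r : ℕ} {W : Fin r → Vd (k + 1) →L[ℂ] ℂ} {α : Fin J → VForm X Λ u} (h : Frm X Λ u D Γ W α) :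
    ∃ C₀ : ℝ, 0 < C₀ ∧ ∀ j, DecW W (α j) C₀ := by
  obtain ⟨R, hR, hcpt⟩ := h.lat.cpt
  obtain ⟨M, hM⟩ := FrmW_wt_le W R
  have hb := fun j => FrmW_ball G.cone G.charts G.tor G.lat (α j) R
  choose C hC0 hC using hb
  refine ⟨1 + ∑ j, C j * Real.exp M, ?_, ?_⟩
  · have : 0 ≤ ∑ j, C j * Real.exp M := Finset.sum_nonneg fun j _ => mul_nonneg (hC0 j) (Real.exp_nonneg _)
    linarith
  · intro j y x hx hxy v hv hvn
    obtain ⟨l, hl, hyl⟩ := hcpt y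
    obtain ⟨L, c, hLc, hθ⟩ := h.per j l hl
    have hxy' : u x - (y - l) ∈ Λ := by
      have h1 := Λ.add_mem hxy (h.le hl)
      have e : u x - y + l = u x - (y - l) := by abel
      rwa [e] at h1
    have h1 := hθ (y - l) x hx hxy' v hv
    rw [sub_add_cancel] at h1
    have h2 := hLc (y - l)
    rw [sub_add_cancel] at h2
    rw [h1, norm_mul, h2]
    have h3 := hC j (y - l) hyl x hx hxy' v hv hvn
    have h4 : Real.exp (wt W (y - l) - wt W y) ≤ Real.exp M * Real.exp (-wt W y) := by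
      rw [← Real.exp_add]
      refine Real.exp_le_exp.2 ?_
      have h5 := hM (y - l) hyl
      linarith
    have h5 : C j * Real.exp M ≤ 1 + ∑ j, C j * Real.exp M := by
      have h6 := Finset.single_le_sum (f := fun j => C j * Real.exp M) (fun j _ => mul_nonneg (hC0 j) (Real.exp_nonneg _)) (Finset.mem_univ j)
      linarith
    calc Real.exp (wt W (y - l) - wt W y) * ‖(α j).toFun (y - l) x v‖ ≤ (Real.exp M * Real.exp (-wt W y)) * C j :=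
          mul_le_mul h4 h3 (norm_nonneg _) (by positivity)
      _ = (C j * Real.exp M) * Real.exp (-wt W y) := by ring
      _ ≤ _ := mul_le_mul_of_nonneg_right h5 (Real.exp_nonneg _)

end Pool.Agent.G4.A
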