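import Pool.Agent.G4.A.GeoC
import Pool.Agent.G4.A.FrmW
import Pool.Agent.G4.Z.CDefs
import Pool.Agent.G4.Z.JW
import Pool.Agent.G3.A.NLp
import Pool.Agent.G3.A.FrmA
import Pool.Agent.G3.Z.Sit

/-!
# G4 A DAx: the data of block (A) from the hypotheses

`exists_lg4`: the geometry of the lines from `LDi D` (no line in `D`) and `Few (Ba D B a) a`.  `exists_da`: `LC`, `NL`, `DecW`; `CRL` at `p ∈ D`, `p ∉ Ba D B a` from `Crs` (`Z/Sit`) with the arc `γ z = p' + z • a`.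
-/

set_option autoImplicit false

open Topology Filter Metric

namespace Pool.Agent.G4.A

open Pool.Agent.H36.BP (EN fs wd)
open Pool.Agent.H14.PP (IsCone CurveAt Tan)
open Pool.Agent.H62.EF (MN pr)
open Pool.Agent.AD (Vd Chart Charts IsGerm)
open Pool.Agent.TG
open Pool.Agent.G3
open Pool.Agent.G3.A
open Pool.Agent.G3.C (Gc HP)

variable {N k : ℕ} {X : Set (EN N)} {Λ : AddSubgroup (Vd (k + 1))} {u : EN N → Vd (k + 1)} {D B Bad : Set (Vd (k + 1))} {a : Vd (k + 1)}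

private theorem dax_trans {Γ : AddSubgroup (Vd (k + 1))} (hinv : ∀ y ∈ D, ∀ l ∈ Γ, y + l ∈ D) {β l a : Vd (k + 1)} (hl : l ∈ Γ) (h : TransAt D (β + l) a) :
    TransAt D β a := by
  refine ⟨h.1, fun κ hκ q hq => ?_⟩
  have hfd : fderiv ℂ (fun q => κ q + l) 0 = fderiv ℂ κ 0 := by rw [fderiv_add_const]
  have hκ' : IsCoord D (fun q => κ q + l) (β + l) := by
    refine ⟨hκ.an.add analyticAt_const, by rw [hκ.zero], by rw [hfd]; exact hκ.inj, ?_⟩
    filter_upwards [hκ.mem_iff] with q hq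
    rw [← hq]
    constructor
    · intro h1
      have h2 := hinv _ h1 _ (Γ.neg_mem hl)
      rwa [add_neg_cancel_right] at h2
    · intro h1
      exact hinv _ h1 l hl
  have h1 := h.2 _ hκ' q hq
  rwa [hfd] at h1

theorem exists_lg4 (G : Geo X Λ u D B) (hB : ∀ β ∈ B, ∀ l ∈ Λ, β + l ∈ B) (hL : Pool.Agent.G4.LDi D) (ha : ‖a‖ = 1) (hfew : Pool.Agent.G4.Few (Ba D B a) a) :
    LG Λ D (Ba D B a) a := by
  have ha0 : a ≠ 0 := by
    intro h
    rw [h, norm_zero] at ha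
    exact zero_ne_one ha
  refine ⟨ha, G.lat, G.D_closed, G.D_inv, fun q hq => hq.1, ?_, fun y => ?_, hfew⟩
  · intro β hβ l hl
    refine ⟨G.D_inv β hβ.1 l hl, ?_⟩
    rcases hβ.2 with h | h
    · exact Or.inl (hB β h l hl)
    · exact Or.inr fun h' => h (dax_trans G.D_inv hl h')
  · refine (hL a ha0 y 0).mono fun w hw => ?_
    rwa [add_comm y (w • a)]

/-- crossing for lines, from the crossing for arcs -/
private theorem DAx_cr (hcr : Pool.Agent.G3.Crs X Λ u D B) {p : Vd (k + 1)} (hp : p ∈ D) (hpB : p ∉ B) (ht : TransAt D p a) : CRL X Λ u D a p := by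
  obtain ⟨s₁, hs₁, h⟩ := hcr p a hp hpB ht
  intro η hη
  obtain ⟨s₀, ρ₀, h1, h2, h3, h4, -, h5⟩ := h η hη
  refine ⟨s₀, ρ₀, h1, h2.le, h4, fun δ ε ε₀ hc => ?_⟩
  obtain ⟨ε₁, h6, h7, h8⟩ := h5 δ ε ε₀ hc
  refine ⟨ε₁, h6, h7, fun p' hp' hG α F H hFd hF hHd hH hdist => ?_⟩
  have hd : Differentiable ℂ fun z : ℂ => p' + z • a := (differentiable_id.smul_const a).const_add p'
  refine h8 (fun z => p' + z • a) hd.differentiableOn (fun z _ => ?_) hG α F H ⟨hFd, hd.differentiableOn, fun z hz => (hF z hz).1, fun z hz => (hF z hz).2⟩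
    ⟨hHd, hd.differentiableOn, fun z hz => (hH z hz).1, fun z hz => (hH z hz).2⟩ hdist
  rw [mem_ball_iff_norm] at hp'
  have e : p' + z • a - (p + z • a) = p' - p := by abel
  rw [e]
  exact hp'.le

theorem exists_da {p : EN N → EN N → ℝ} {m J r : ℕ} {C : ℝ} {α : Fin J → VForm X Λ u} {Γ : AddSubgroup (Vd (k + 1))} {W : Fin r → Vd (k + 1) →L[ℂ] ℂ} (G : Geo X Λ u D B)
    (hB : ∀ β ∈ B, ∀ l ∈ Λ, β + l ∈ B) (hL : Pool.Agent.G4.LDi D) (hP : Pool.Agent.G3.PS X Λ u D p m C) (hcr : Pool.Agent.G3.Crs X Λ u D B) (hF : Frm X Λ u D Γ W α) (ha : ‖a‖ = 1)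
    (hfew : Pool.Agent.G4.Few (Ba D B a) a) : ∃ c₀ C₀ ρ δ : ℝ, DA X Λ u D B (Ba D B a) a Γ W α c₀ C₀ ρ δ := by
  have hlg : LG Λ D (Ba D B a) a := exists_lg4 G hB hL ha hfew
  obtain ⟨c₀, hc₀, hwt⟩ := Pool.Agent.G4.wt_ge hF.pos
  obtain ⟨C₀, hC₀, hdec⟩ := decW G hF
  obtain ⟨δ₀, hδ₀, hlc'⟩ := exists_lc hlg (ρ := 1 / 8) (by norm_num) le_rfl
  have hgood : ∀ q ∈ D, q ∉ Ba D B a → q ∉ B ∧ TransAt D q a := by
    intro q hq hqb
    refine ⟨fun h => hqb ⟨hq, Or.inl h⟩, ?_⟩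
    by_contra h
    exact hqb ⟨hq, Or.inr h⟩
  exact ⟨c₀, C₀, 1 / 8, δ₀,
    { geo := G
      lg := hlg
      lc := hlc' δ₀ hδ₀ le_rfl
      nl := exists_nl G.cone hP ha
      c_pos := hc₀
      C_pos := hC₀
      wtc := hwt
      dec := hdec
      frm := hF
      cr := fun q hq hqb => DAx_cr hcr hq (hgood q hq hqb).1 (hgood q hq hqb).2
      good := hgood }⟩

end Pool.Agent.G4.A
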