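import Pool.Agent.G3.A.Defs

/-!
# G4 A Defs: curves over the lines of one direction, any dimension

As `G3/A/Defs`; unchanged and used from there: `Ba`, `Hc`, `Dec`, `Sepa`, `Tht`, `Frm`, `NL`, `Lm`, `CRL`, `Tb`, `ToE`, `CE`, `Sht` (and `Shs`, `Prm`, `DDb` of `G3/R/SDefs`).  New:

* `LG`: the geometry of the lines of direction `a`: no finiteness of the bad points modulo `Λ`; instead `few`: `o (R²)` exact bad hits in the discs of radius `R` of the lines, uniformly (with `R = 2`: a uniform bound in the small discs).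
* `Co`: the core is `Gd D (2 δ)`; `LC`: the constants `ρ`, `δ`, circles at every scale; no separation of the bad points, no strips.
* `DecW`: the bound of a form with the weight `wt W`; `DA`: with the data `Γ`, `W` of the theta factors (`Frm`).
-/

set_option autoImplicit false

open Topology Filter Metric

namespace Pool.Agent.G4.A

open Pool.Agent.H36.BP (EN fs wd)
open Pool.Agent.H14.PP (IsCone CurveAt Tan)
open Pool.Agent.H62.EF (MN pr)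
open Pool.Agent.AD (Vd Chart Charts IsGerm)
open Pool.Agent.TG
open Pool.Agent.G3 (wt)
open Pool.Agent.G3.A (Ba Hc Dec Sepa Tht Frm NL Lm CRL Tb ToE CE Sht)

variable {N k : ℕ}

/-- the bound of the form `α` with the weight `wt W` -/
def DecW {X : Set (EN N)} {Λ : AddSubgroup (Vd (k + 1))} {u : EN N → Vd (k + 1)} {r : ℕ} (W : Fin r → Vd (k + 1) →L[ℂ] ℂ) (α : VForm X Λ u) (C₀ : ℝ) : Prop :=
  ∀ y, ∀ x ∈ X, u x - y ∈ Λ → ∀ v : Fin (k + 2) → EN N, (∀ i, Tan X x (v i)) → (∀ i, ‖v i‖ ≤ ‖x‖) → ‖α.toFun y x v‖ ≤ C₀ * Real.exp (-wt W y)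

/-- the geometry of the lines of direction `a` -/
structure LG (Λ : AddSubgroup (Vd (k + 1))) (D Bad : Set (Vd (k + 1))) (a : Vd (k + 1)) : Prop where
  norm : ‖a‖ = 1
  lat : Lat Λ
  D_closed : IsClosed D
  D_inv : ∀ y ∈ D, ∀ l ∈ Λ, y + l ∈ D
  bad_sub : Bad ⊆ D
  bad_inv : ∀ β ∈ Bad, ∀ l ∈ Λ, β + l ∈ Bad
  iso : ∀ y : Vd (k + 1), ∀ᶠ z in 𝓝[≠] (0 : ℂ), y + z • a ∉ D
  /-- few exact bad hits in large discs -/
  few : ∀ ε : ℝ, 0 < ε → ∃ C : ℝ, ∀ (y : Vd (k + 1)) (R : ℝ), 0 ≤ R → ∀ S : Finset ℂ, (∀ z ∈ S, ‖z‖ ≤ R ∧ y + z • a ∈ Bad) → (S.card : ℝ) ≤ ε * R ^ 2 + C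

/-- the core: points of distance at least `2 δ` from `D` -/
def Co (D _Bad : Set (Vd (k + 1))) (δ _ρ : ℝ) : Set (Vd (k + 1)) := Gd D (2 * δ)

/-- the constants of the geometry of the lines of direction `a` -/
structure LC (D Bad : Set (Vd (k + 1))) (a : Vd (k + 1)) (ρ δ : ℝ) : Prop where
  norm : ‖a‖ = 1
  D_closed : IsClosed D
  bad_sub : Bad ⊆ D
  ρ_pos : 0 < ρ
  ρ_le : ρ ≤ 1 / 8
  δ_pos : 0 < δ
  δ_le : 8 * δ ≤ ρ
  iso : ∀ y : Vd (k + 1), ∀ᶠ z in 𝓝[≠] (0 : ℂ), y + z • a ∉ D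
  /-- small circles -/
  circ : ∀ η : ℝ, 0 < η → ∃ δ' : ℝ, 0 < δ' ∧ ∀ y : Vd (k + 1), ∃ r : ℝ, 0 < r ∧ r < η ∧ ∀ z : ℂ, ‖z‖ = r → y + z • a ∈ Gd D δ'
  /-- circles in the core -/
  circC : ∀ y : Vd (k + 1), ∃ r : ℝ, 0 < r ∧ r ≤ 2 * ρ ∧ ∀ z : ℂ, ‖z‖ = r → y + z • a ∈ Gd D (4 * δ)
  few : ∀ ε : ℝ, 0 < ε → ∃ C : ℝ, ∀ (y : Vd (k + 1)) (R : ℝ), 0 ≤ R → ∀ S : Finset ℂ, (∀ z ∈ S, ‖z‖ ≤ R ∧ y + z • a ∈ Bad) → (S.card : ℝ) ≤ ε * R ^ 2 + C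

/-- the data of block (A) for the direction `a` -/
structure DA (X : Set (EN N)) (Λ : AddSubgroup (Vd (k + 1))) (u : EN N → Vd (k + 1)) (D B Bad : Set (Vd (k + 1))) (a : Vd (k + 1)) (Γ : AddSubgroup (Vd (k + 1))) {J r : ℕ}
    (W : Fin r → Vd (k + 1) →L[ℂ] ℂ) (α : Fin J → VForm X Λ u) (c₀ C₀ ρ δ : ℝ) : Prop where
  geo : Geo X Λ u D B
  lg : LG Λ D Bad a
  lc : LC D Bad a ρ δ
  nl : NL X Λ u D a
  c_pos : 0 < c₀
  C_pos : 0 < C₀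
  wtc : ∀ y : Vd (k + 1), c₀ * ‖y‖ ^ 2 ≤ wt W y
  dec : ∀ j, DecW W (α j) C₀
  frm : Frm X Λ u D Γ W α
  cr : ∀ p ∈ D, p ∉ Bad → CRL X Λ u D a p
  good : ∀ p ∈ D, p ∉ Bad → p ∉ B ∧ TransAt D p a

theorem LC.mono {D Bad : Set (Vd (k + 1))} {a : Vd (k + 1)} {ρ δ δ' : ℝ} (h : LC D Bad a ρ δ) (h0 : 0 < δ') (hle : δ' ≤ δ) : LC D Bad a ρ δ' where
  norm := h.norm
  D_closed := h.D_closed
  bad_sub := h.bad_sub
  ρ_pos := h.ρ_pos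
  ρ_le := h.ρ_le
  δ_pos := h0
  δ_le := by linarith [h.δ_le]
  iso := h.iso
  circ := h.circ
  circC := fun y => by
    obtain ⟨r, h1, h2, h3⟩ := h.circC y
    exact ⟨r, h1, h2, fun z hz => gd_mono (by linarith) (h3 z hz)⟩
  few := h.few

end Pool.Agent.G4.A
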