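import Pool.Agent.G4.A.P1

/-!
# G4 A FinC: the number of the curves over a line is upper semicontinuous

`ncard_usc'`: `m + 1` different curves over the lines near `y₀`, chosen for every `y`; their limits along an ultrafilter (`hc_closed`) are different (`lm_sep`, here the hypothesis `hsep`).
-/

set_option autoImplicit false

open Topology Filter Metric

namespace Pool.Agent.G4.A

open Pool.Agent.H36.BP (EN fs wd)
open Pool.Agent.H14.PP (IsCone CurveAt Tan)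
open Pool.Agent.H62.EF (MN pr)
open Pool.Agent.AD (Vd Chart Charts IsGerm)
open Pool.Agent.TG
open Pool.Agent.G3
open Pool.Agent.G3.A
open Pool.Agent.G3.C (Gc HP)

variable {N k : ℕ} {X : Set (EN N)} {Λ : AddSubgroup (Vd (k + 1))} {u : EN N → Vd (k + 1)} {D B Bad : Set (Vd (k + 1))} {a : Vd (k + 1)}

variable {Γ : AddSubgroup (Vd (k + 1))} {J rW : ℕ} {W : Fin rW → Vd (k + 1) →L[ℂ] ℂ} {α : Fin J → VForm X Λ u} {c₀ C₀ ρ δ : ℝ}

theorem ncard_usc' (S : DA X Λ u D B Bad a Γ W α c₀ C₀ ρ δ) (hfin : ∀ y : Vd (k + 1), (Hc X Λ u a y).Finite)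
    (hsep : ∀ (𝒰 : Ultrafilter (Vd (k + 1))) (y₀ : Vd (k + 1)) (f g : Vd (k + 1) → ℂ → MN N) (h : ℂ → MN N), Tendsto (fun y => y) 𝒰 (𝓝 y₀) →
      (∀ᶠ y in (𝒰 : Filter (Vd (k + 1))), f y ∈ Hc X Λ u a y) → (∀ᶠ y in (𝒰 : Filter (Vd (k + 1))), g y ∈ Hc X Λ u a y) → h ∈ Hc X Λ u a y₀ →
      Lm D a 𝒰 y₀ f h → Lm D a 𝒰 y₀ g h → ∀ᶠ y in (𝒰 : Filter (Vd (k + 1))), f y = g y)
    (y₀ : Vd (k + 1)) : ∀ᶠ y in 𝓝 y₀, (Hc X Λ u a y).ncard ≤ (Hc X Λ u a y₀).ncard := by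
  classical
  obtain ⟨m, hm⟩ : ∃ m, (Hc X Λ u a y₀).ncard = m := ⟨_, rfl⟩
  rw [hm]
  by_contra hcon
  have hfr : ∃ᶠ y in 𝓝 y₀, m < (Hc X Λ u a y).ncard := fun h => hcon (h.mono fun y hy => not_lt.1 hy)
  have hne : (𝓝 y₀ ⊓ 𝓟 {y | m < (Hc X Λ u a y).ncard}).NeBot := frequently_mem_iff_neBot.1 hfr
  set 𝒰 : Ultrafilter (Vd (k + 1)) := Ultrafilter.of (𝓝 y₀ ⊓ 𝓟 {y | m < (Hc X Λ u a y).ncard}) with h𝒰
  have h1 : (𝒰 : Filter (Vd (k + 1))) ≤ 𝓝 y₀ ⊓ 𝓟 {y | m < (Hc X Λ u a y).ncard} := Ultrafilter.of_le _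
  have hy : Tendsto (fun y : Vd (k + 1) => y) 𝒰 (𝓝 y₀) := h1.trans inf_le_left
  have hgt : ∀ᶠ y in (𝒰 : Filter (Vd (k + 1))), m < (Hc X Λ u a y).ncard := h1.trans inf_le_right (mem_principal_self _)
  have hex : ∀ y : Vd (k + 1), ∃ e : Fin (m + 1) → ℂ → MN N, m < (Hc X Λ u a y).ncard → Function.Injective e ∧ ∀ i, e i ∈ Hc X Λ u a y := by
    intro y
    by_cases h : m < (Hc X Λ u a y).ncard
    · obtain ⟨t, ht, htc⟩ := Set.exists_subset_card_eq (s := Hc X Λ u a y) (n := m + 1) h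
      have hcard : Nat.card t = m + 1 := by rw [Nat.card_coe_set_eq, htc]
      have : Finite t := (hfin y).subset ht
      have eqv := Finite.equivFinOfCardEq hcard
      exact ⟨fun i => (eqv.symm i : ℂ → MN N), fun _ => ⟨fun i j hij => eqv.symm.injective (Subtype.ext hij), fun i => ht (eqv.symm i).2⟩⟩
    · exact ⟨fun _ _ => pr 0, fun h' => absurd h' h⟩
  choose e he using hex
  have hmem : ∀ i, ∀ᶠ y in (𝒰 : Filter (Vd (k + 1))), e y i ∈ Hc X Λ u a y := fun i => hgt.mono fun y hy => (he y hy).2 i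
  choose G hG hGl using fun i => hc_closed S.geo S.lg S.nl hy (hmem i)
  have hinj : Function.Injective G := by
    intro i j hij
    by_contra hne
    have h1 := hsep 𝒰 y₀ (fun y => e y i) (fun y => e y j) (G i) hy (hmem i) (hmem j) (hG i) (hGl i) (hij ▸ hGl j)
    obtain ⟨y, h2, h3⟩ := (h1.and hgt).exists
    exact hne ((he y h3).1 h2)
  have h2 : (Set.range G).ncard = m + 1 := by
    rw [← Set.image_univ, Set.ncard_image_of_injective _ hinj, Set.ncard_univ, Nat.card_eq_fintype_card, Fintype.card_fin]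
  have h3 := Set.ncard_le_ncard (Set.range_subset_iff.2 hG) (hfin y₀)
  rw [h2, hm] at h3
  omega

end Pool.Agent.G4.A
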