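import Pool.Agent.G4.A.CmDefs
import Pool.Agent.G4.A.P1
import Pool.Agent.G4.A.GeoC
import Pool.Agent.G3.R.HolD
import Pool.Agent.G3.A.MD

/-!
# G4 A HPa: the combination of two nearly equal curves

Two curves `f n`, `g n` over `y n + ℂ a`, both converging to `f₀`, with the coefficients `q n`, `- q n`.  `cmb_pair`: the properties `Cmb`, if `dist (f n x) (g n x) ‖q n x‖` is bounded over `Gd D δ'`.  `pair_bound`: the bound of the combination.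
`dist_pr_le2`, `nv_lower`: `pr` is Lipschitz near unit vectors, so the combination controls the distance.
-/

set_option autoImplicit false

open Topology Filter Metric

namespace Pool.Agent.G4.A

open Pool.Agent.H36.BP (EN fs wd)
open Pool.Agent.H14.PP (IsCone CurveAt Tan)
open Pool.Agent.H62.EF (MN pr)
open Pool.Agent.AD (Vd Chart Charts IsGerm)
open Pool.Agent.TG
open Pool.Agent.G3 (wt)
open Pool.Agent.G3.A (Ba Hc Dec Sepa Tht Frm NL Lm CRL Tb ToE CE Sht md)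
open Pool.Agent.G3.R (nv_lip nv_self nv_near inner_near)
open Pool.Agent.G3.C (Gc HP nv nd nv_pr pr_nv nd_pr_ne)

variable {N k : ℕ} {X : Set (EN N)} {Λ : AddSubgroup (Vd (k + 1))} {u : EN N → Vd (k + 1)} {D B Bad : Set (Vd (k + 1))} {a : Vd (k + 1)}
  {Γ : AddSubgroup (Vd (k + 1))} {J rW : ℕ} {W : Fin rW → Vd (k + 1) →L[ℂ] ℂ} {α : Fin J → VForm X Λ u} {c₀ C₀ ρ δ : ℝ}

/-! ### `pr` is Lipschitz near unit vectors -/

theorem dist_pr_le2 {p q : EN N} (hp : 1 ≤ ‖p‖) (hq : q ≠ 0) : dist (pr p) (pr q) ≤ 2 * ‖p - q‖ := by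
  have hp0 : p ≠ 0 := by
    rintro rfl
    rw [norm_zero] at hp
    linarith
  have hq0 : 0 < ‖q‖ := norm_pos_iff.2 hq
  have h1 := Pool.Agent.H62.EF.norm_inner_sq hp0 hq
  have h2 : ‖p - q‖ ^ 2 = ‖p‖ ^ 2 - 2 * (inner ℂ p q : ℂ).re + ‖q‖ ^ 2 := by
    rw [norm_sub_sq (𝕜 := ℂ)]
    rfl
  have h3 : (inner ℂ p q : ℂ).re ^ 2 ≤ ‖(inner ℂ p q : ℂ)‖ ^ 2 := by
    rw [Complex.sq_norm, Complex.normSq_apply]
    nlinarith [sq_nonneg (inner ℂ p q : ℂ).im]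
  set d : ℝ := dist (pr p) (pr q) with hd
  set s : ℝ := (inner ℂ p q : ℂ).re with hs
  have hd0 : 0 ≤ d := dist_nonneg
  have h4 : d ^ 2 * ‖p‖ ^ 2 * ‖q‖ ^ 2 ≤ 2 * ‖p - q‖ ^ 2 * ‖q‖ ^ 2 := by
    have h5 : d ^ 2 * ‖p‖ ^ 2 * ‖q‖ ^ 2 = 2 * (‖p‖ ^ 2 * ‖q‖ ^ 2 - ‖(inner ℂ p q : ℂ)‖ ^ 2) := by
      rw [h1]
      ring
    rw [h5, h2]
    nlinarith [sq_nonneg (s - ‖q‖ ^ 2)]
  have h6 : d ^ 2 * ‖p‖ ^ 2 ≤ 2 * ‖p - q‖ ^ 2 := le_of_mul_le_mul_right h4 (by positivity)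
  have h7 : d ^ 2 ≤ d ^ 2 * ‖p‖ ^ 2 := le_mul_of_one_le_right (by positivity) (by nlinarith)
  have h8 : d ^ 2 ≤ (2 * ‖p - q‖) ^ 2 := by nlinarith [sq_nonneg ‖p - q‖]
  exact le_of_sq_le_sq h8 (by positivity)

theorem nv_lower (N : ℕ) : ∃ ε : ℝ, 0 < ε ∧ ∀ v : EN N, ‖v‖ = 1 → ∀ x x' : EN N, x ≠ 0 → x' ≠ 0 → dist (pr x) (pr v) ≤ ε → dist (pr x') (pr v) ≤ ε →
    dist (pr x) (pr x') ≤ 2 * ‖nv v (pr x) - nv v (pr x')‖ := by
  obtain ⟨ε, hε, h⟩ := inner_near (N := N) (η := 1 / 2) (by norm_num)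
  refine ⟨ε, hε, fun v hv x x' hx hx' hd hd' => ?_⟩
  have h1 := (h v hv x hx hd).1
  have h2 := (h v hv x' hx' hd').1
  have e1 : inner ℂ v (nv v (pr x)) = (1 : ℂ) := by rw [nv_pr h1, inner_smul_right, inv_mul_cancel₀ h1]
  have e2 : inner ℂ v (nv v (pr x')) = (1 : ℂ) := by rw [nv_pr h2, inner_smul_right, inv_mul_cancel₀ h2]
  have n1 : 1 ≤ ‖nv v (pr x)‖ := by
    have h3 := norm_inner_le_norm (𝕜 := ℂ) v (nv v (pr x))
    rwa [e1, norm_one, hv, one_mul] at h3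
  have n2 : nv v (pr x') ≠ 0 := by
    intro h3
    rw [h3, inner_zero_right] at e2
    exact zero_ne_one e2
  have h3 := dist_pr_le2 n1 n2
  rwa [pr_nv h1, pr_nv h2] at h3

/-! ### two curves -/

/-- the coefficients `q`, `- q` -/
def pc {ι : Type} (q : ι → ℂ → ℂ) : ι → Fin 2 → ℂ → ℂ := fun n => ![q n, fun z => -q n z]

/-- the two curves -/
def pf {ι : Type} (f g : ι → ℂ → MN N) : Fin 2 → ι → ℂ → MN N := ![f, g]

theorem cX_pair {ι : Type} (q : ι → ℂ → ℂ) (f g : ι → ℂ → MN N) (v : EN N) (n : ι) (x : ℂ) : cX (pc q) (pf f g) v n x = q n x • (nv v (f n x) - nv v (g n x)) := by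
  unfold cX pc pf
  simp only [Fin.sum_univ_two, Matrix.cons_val_zero, Matrix.cons_val_one, Matrix.cons_val]
  rw [smul_sub, neg_smul, sub_eq_add_neg]

/-- points and values near the limit -/
theorem lm_near (ha : ‖a‖ = 1) {ι : Type} {𝒰 : Ultrafilter ι} {y : ι → Vd (k + 1)} {y₀ : Vd (k + 1)} {x : ℂ} {δ₁ : ℝ} (hδ₁ : 0 < δ₁) (hx : y₀ + x • a ∈ Gd D δ₁)
    (hy : Tendsto y 𝒰 (𝓝 y₀)) {f : ι → ℂ → MN N} {f₀ : ℂ → MN N} (hc : Continuous f₀) (hf : Lm D a 𝒰 y₀ f f₀) {η : ℝ} (hη : 0 < η) :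
    ∃ t : ℝ, 0 < t ∧ ∀ᶠ n in (𝒰 : Filter ι), ∀ x' ∈ ball x t, dist (f n x') (f₀ x) ≤ η ∧ ‖y n + x' • a - (y₀ + x • a)‖ ≤ η ∧ y n + x' • a ∈ Gd D (δ₁ / 2) := by
  obtain ⟨t₁, ht₁, h1⟩ := Metric.continuousAt_iff.1 hc.continuousAt (η / 2) (half_pos hη)
  set t : ℝ := min (t₁ / 2) (min (δ₁ / 4) (η / 2)) with ht
  have ht0 : 0 < t := lt_min (half_pos ht₁) (lt_min (by linarith) (by linarith))
  have ta : t ≤ t₁ / 2 := min_le_left _ _
  have tb : t ≤ δ₁ / 4 := (min_le_right _ _).trans (min_le_left _ _)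
  have tc : t ≤ η / 2 := (min_le_right _ _).trans (min_le_right _ _)
  have hK : ∀ z ∈ closedBall x t, y₀ + z • a ∉ D := by
    intro z hz
    rw [mem_closedBall, dist_eq_norm] at hz
    have h2 : ‖y₀ + z • a - (y₀ + x • a)‖ ≤ t := by
      rw [add_sub_add_left_eq_sub, ← sub_smul, norm_smul, ha, mul_one]
      exact hz
    exact gd_notMem (δ := δ₁ - t) (by linarith) (gd_near hx h2)
  have hu := hf.unif4 hc (isCompact_closedBall x t) hK (half_pos hη)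
  have hm : 0 < min (δ₁ / 4) (η / 2) := lt_min (by linarith) (by linarith)
  refine ⟨t, ht0, ?_⟩
  filter_upwards [hu, hy.eventually (closedBall_mem_nhds y₀ hm)] with n hn hn' x' hx'
  have hx1 := mem_ball.1 hx'
  have h3 : ‖x' - x‖ ≤ t := by
    rw [← dist_eq_norm]
    exact hx1.le
  have h4 : ‖y n + x' • a - (y₀ + x • a)‖ ≤ min (δ₁ / 4) (η / 2) + t := by
    have e : y n + x' • a - (y₀ + x • a) = (y n - y₀) + (x' - x) • a := by
      rw [sub_smul]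
      abel
    rw [e]
    refine (norm_add_le _ _).trans (add_le_add ?_ ?_)
    · rw [← dist_eq_norm]
      exact hn'
    · rw [norm_smul, ha, mul_one]
      exact h3
  have m1 : min (δ₁ / 4) (η / 2) ≤ δ₁ / 4 := min_le_left _ _
  have m2 : min (δ₁ / 4) (η / 2) ≤ η / 2 := min_le_right _ _
  refine ⟨?_, by linarith, ?_⟩
  · have h5 := hn x' (mem_closedBall.2 hx1.le)
    have h6 := h1 (show dist x' x < t₁ by linarith)
    have h7 := dist_triangle (f n x') (f₀ x') (f₀ x)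
    linarith
  · exact gd_mono (δ₂ := δ₁ - (min (δ₁ / 4) (η / 2) + t)) (by linarith) (gd_near hx h4)

/-- the bound of the two curves with the factor `q` -/
def PBd (D : Set (Vd (k + 1))) (a : Vd (k + 1)) {ι : Type} (𝒰 : Ultrafilter ι) (y : ι → Vd (k + 1)) (f g : ι → ℂ → MN N) (q : ι → ℂ → ℂ) (c : ℝ) : Prop :=
  ∀ δ' : ℝ, 0 < δ' → ∃ C : ℝ, 0 ≤ C ∧ ∀ M : ℝ, ∀ᶠ n in (𝒰 : Filter ι), ∀ x : ℂ, ‖x‖ ≤ M → y n + x • a ∈ Gd D δ' →
    dist (f n x) (g n x) * ‖q n x‖ ≤ C * Real.exp (c * (‖x‖ + 1 / 2) ^ 2)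

theorem cX_pair_le {ι : Type} {q : ι → ℂ → ℂ} {f g : ι → ℂ → MN N} {v : EN N} (hv : ‖v‖ = 1) {n : ι} {x : ℂ} (h1 : dist (f n x) (pr v) ≤ 1 / 2) (h2 : dist (g n x) (pr v) ≤ 1 / 2) :
    ‖cX (pc q) (pf f g) v n x‖ ≤ 10 * (dist (f n x) (g n x) * ‖q n x‖) := by
  rw [cX_pair, norm_smul]
  have h3 := nv_lip hv h1 h2
  calc ‖q n x‖ * ‖nv v (f n x) - nv v (g n x)‖ ≤ ‖q n x‖ * (10 * dist (f n x) (g n x)) := mul_le_mul_of_nonneg_left h3 (norm_nonneg _)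
    _ = _ := by ring

theorem cmb_pair (G : Geo X Λ u D B) (ha : ‖a‖ = 1) {ι : Type} {𝒰 : Ultrafilter ι} {y : ι → Vd (k + 1)} {y₀ : Vd (k + 1)} (hy : Tendsto y 𝒰 (𝓝 y₀))
    {f g : ι → ℂ → MN N} {f₀ : ℂ → MN N} (hf : ∀ᶠ n in (𝒰 : Filter ι), f n ∈ Hc X Λ u a (y n)) (hg : ∀ᶠ n in (𝒰 : Filter ι), g n ∈ Hc X Λ u a (y n)) (hf₀ : f₀ ∈ Hc X Λ u a y₀)
    (hff : Lm D a 𝒰 y₀ f f₀) (hgg : Lm D a 𝒰 y₀ g f₀) {q : ι → ℂ → ℂ} (hq : ∀ᶠ n in (𝒰 : Filter ι), Differentiable ℂ (q n)) {c : ℝ} (hc : 0 ≤ c) (hb : PBd D a 𝒰 y f g q c) :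
    Cmb X Λ u D a 𝒰 (fun _ => y) y₀ (pf f g) f₀ (pc q) := by
  have hcont := hc_cont G.cone hf₀
  refine ⟨fun _ => hy, ?_, hf₀, ?_, ?_, ?_, ?_⟩
  · intro i
    fin_cases i
    · exact hf
    · exact hg
  · intro i
    fin_cases i
    · exact hff
    · exact hgg
  · filter_upwards [hq] with n hn i
    fin_cases i
    · exact hn
    · exact hn.neg
  · intro x hx v hv hv'
    obtain ⟨δ₁, hδ₁, hg₁⟩ := G.exists_gd hx
    obtain ⟨C, hC, hCb⟩ := hb (δ₁ / 2) (half_pos hδ₁)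
    obtain ⟨t₁, ht₁, e1⟩ := lm_near ha hδ₁ hg₁ hy hcont hff (η := 1 / 2) (by norm_num)
    obtain ⟨t₂, ht₂, e2⟩ := lm_near ha hδ₁ hg₁ hy hcont hgg (η := 1 / 2) (by norm_num)
    refine ⟨min (min t₁ t₂) 1, 10 * (C * Real.exp (c * (‖x‖ + 1 + 1 / 2) ^ 2)), lt_min (lt_min ht₁ ht₂) one_pos, ?_⟩
    filter_upwards [e1, e2, hCb (‖x‖ + 1)] with n h1 h2 h3 x' hx'
    have hxa : x' ∈ ball x t₁ := ball_subset_ball ((min_le_left _ _).trans (min_le_left _ _)) hx'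
    have hxb : x' ∈ ball x t₂ := ball_subset_ball ((min_le_left _ _).trans (min_le_right _ _)) hx'
    have hxc : x' ∈ ball x 1 := ball_subset_ball (min_le_right _ _) hx'
    have hn : ‖x'‖ ≤ ‖x‖ + 1 := by
      rw [mem_ball, dist_eq_norm] at hxc
      have := norm_le_norm_add_norm_sub x x'
      rw [norm_sub_rev] at this
      linarith
    obtain ⟨a1, a2, a3⟩ := h1 x' hxa
    obtain ⟨b1, b2, b3⟩ := h2 x' hxb
    rw [← hv'] at a1 b1
    refine (cX_pair_le hv a1 b1).trans (mul_le_mul_of_nonneg_left ((h3 x' hn a3).trans ?_) (by norm_num))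
    refine mul_le_mul_of_nonneg_left (Real.exp_le_exp.2 (mul_le_mul_of_nonneg_left ?_ hc)) hC
    have := norm_nonneg x'
    gcongr
  · intro x hx v hv hv' F hF ε hε
    obtain ⟨δ₁, hδ₁, hg₁⟩ := G.exists_gd hx
    obtain ⟨C, hC, hCb⟩ := hb (δ₁ / 2) (half_pos hδ₁)
    set L := fderiv ℂ F (v, y₀ + x • a) with hL
    set K : ℝ := 10 * (C * Real.exp (c * (‖x‖ + 1 + 1 / 2) ^ 2)) with hK
    have hK0 : 0 ≤ K := by positivity
    set η : ℝ := ε / (K + 1) with hη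
    have hη0 : 0 < η := by positivity
    have hηK : η * K ≤ ε := by
      rw [hη, div_mul_eq_mul_div, div_le_iff₀ (by positivity)]
      nlinarith
    obtain ⟨τ, hτ, hst⟩ : ∃ τ : ℝ, 0 < τ ∧ ∀ P P' : EN N × Vd (k + 1), dist P (v, y₀ + x • a) < τ → dist P' (v, y₀ + x • a) < τ → ‖F P - F P' - L (P - P')‖ ≤ η * ‖P - P'‖ := by
      have h1 := (hF.hasStrictFDerivAt.isLittleO).def hη0
      obtain ⟨τ, hτ, h2⟩ := Metric.eventually_nhds_iff.1 h1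
      refine ⟨τ, hτ, fun P P' hP hP' => ?_⟩
      exact h2 (y := (P, P')) (by rw [Prod.dist_eq]; exact max_lt hP hP')
    have hη1 : 0 < min (1 / 2) (τ / 20) := lt_min (by norm_num) (by linarith)
    obtain ⟨t₁, ht₁, e1⟩ := lm_near ha hδ₁ hg₁ hy hcont hff hη1
    obtain ⟨t₂, ht₂, e2⟩ := lm_near ha hδ₁ hg₁ hy hcont hgg hη1
    refine ⟨min (min t₁ t₂) 1, lt_min (lt_min ht₁ ht₂) one_pos, ?_⟩
    filter_upwards [e1, e2, hCb (‖x‖ + 1)] with n h1 h2 h3 x' hx'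
    have hxa : x' ∈ ball x t₁ := ball_subset_ball ((min_le_left _ _).trans (min_le_left _ _)) hx'
    have hxb : x' ∈ ball x t₂ := ball_subset_ball ((min_le_left _ _).trans (min_le_right _ _)) hx'
    have hxc : x' ∈ ball x 1 := ball_subset_ball (min_le_right _ _) hx'
    have hn : ‖x'‖ ≤ ‖x‖ + 1 := by
      rw [mem_ball, dist_eq_norm] at hxc
      have := norm_le_norm_add_norm_sub x x'
      rw [norm_sub_rev] at this
      linarith
    obtain ⟨a1, a2, a3⟩ := h1 x' hxa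
    obtain ⟨b1, b2, b3⟩ := h2 x' hxb
    rw [← hv'] at a1 b1
    have m1 : min (1 / 2) (τ / 20) ≤ 1 / 2 := min_le_left _ _
    have m2 : min (1 / 2) (τ / 20) ≤ τ / 20 := min_le_right _ _
    -- the bound of the combination
    have hX : ‖cX (pc q) (pf f g) v n x'‖ ≤ K := by
      refine (cX_pair_le hv (a1.trans m1) (b1.trans m1)).trans (mul_le_mul_of_nonneg_left ((h3 x' hn a3).trans ?_) (by norm_num))
      refine mul_le_mul_of_nonneg_left (Real.exp_le_exp.2 (mul_le_mul_of_nonneg_left ?_ hc)) hC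
      have := norm_nonneg x'
      gcongr
    -- points near the centre
    have near : ∀ m : MN N, dist m (pr v) ≤ min (1 / 2) (τ / 20) → dist ((nv v m, y n + x' • a) : EN N × Vd (k + 1)) (v, y₀ + x • a) < τ := by
      intro m hm
      have h4 := nv_lip hv (hm.trans m1) (show dist (pr v) (pr v) ≤ 1 / 2 by rw [dist_self]; norm_num)
      rw [nv_self hv] at h4
      rw [Prod.dist_eq]
      refine max_lt ?_ ?_
      · show dist (nv v m) v < τ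
        rw [dist_eq_norm]
        linarith
      · show dist (y n + x' • a) (y₀ + x • a) < τ
        rw [dist_eq_norm]
        linarith
    have h5 := hst _ _ (near _ a1) (near _ b1)
    rw [Prod.mk_sub_mk, sub_self] at h5
    have e6 : (∑ i, pc q n i x' * F (nv v (pf f g i n x'), y n + x' • a)) - L (cX (pc q) (pf f g) v n x', 0) =
        q n x' * (F (nv v (f n x'), y n + x' • a) - F (nv v (g n x'), y n + x' • a) - L (nv v (f n x') - nv v (g n x'), 0)) := by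
      have e7 : L (cX (pc q) (pf f g) v n x', 0) = q n x' * L (nv v (f n x') - nv v (g n x'), 0) := by
        have e8 : ((cX (pc q) (pf f g) v n x', 0) : EN N × Vd (k + 1)) = q n x' • (nv v (f n x') - nv v (g n x'), 0) := by
          rw [cX_pair, Prod.smul_mk, smul_zero]
        rw [e8, map_smul, smul_eq_mul]
      rw [e7]
      simp only [pc, pf, Fin.sum_univ_two, Matrix.cons_val_zero, Matrix.cons_val_one, Matrix.cons_val]
      ring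
    rw [e6, norm_mul]
    have e9 : ‖((nv v (f n x') - nv v (g n x'), (0 : Vd (k + 1))) : EN N × Vd (k + 1))‖ = ‖nv v (f n x') - nv v (g n x')‖ := by
      rw [Prod.norm_mk, norm_zero, max_eq_left (norm_nonneg _)]
    rw [e9] at h5
    rw [cX_pair, norm_smul] at hX
    calc ‖q n x'‖ * _ ≤ ‖q n x'‖ * (η * ‖nv v (f n x') - nv v (g n x')‖) := mul_le_mul_of_nonneg_left h5 (norm_nonneg _)
      _ = η * (‖q n x'‖ * ‖nv v (f n x') - nv v (g n x')‖) := by ring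
      _ ≤ η * K := mul_le_mul_of_nonneg_left hX hη0.le
      _ ≤ ε := hηK

/-- the bound of the combination over `Gd D δ'` -/
theorem pair_bound (ha : ‖a‖ = 1) (hX : IsCone X) {ι : Type} {𝒰 : Ultrafilter ι} {y : ι → Vd (k + 1)} {y₀ : Vd (k + 1)} (hy : Tendsto y 𝒰 (𝓝 y₀))
    {f g : ι → ℂ → MN N} {f₀ : ℂ → MN N} (hf₀ : f₀ ∈ Hc X Λ u a y₀)
    (hff : Lm D a 𝒰 y₀ f f₀) (hgg : Lm D a 𝒰 y₀ g f₀) {q : ι → ℂ → ℂ} {c : ℝ} (hc : 0 ≤ c) (hb : PBd D a 𝒰 y f g q c) :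
    ∀ δ' : ℝ, 0 < δ' → ∃ C : ℝ, ∀ x : ℂ, y₀ + x • a ∈ Gd D δ' → ∀ v : EN N, ‖v‖ = 1 → pr v = f₀ x → ∀ᶠ n in (𝒰 : Filter ι),
      ‖cX (pc q) (pf f g) v n x‖ ≤ C * Real.exp (2 * c * ‖x‖ ^ 2) := by
  intro δ' hδ'
  have hcont := hc_cont hX hf₀
  obtain ⟨C, hC, hCb⟩ := hb (δ' / 2) (half_pos hδ')
  refine ⟨10 * (C * Real.exp (c / 2)), fun x hg₁ v hv hv' => ?_⟩
  obtain ⟨t₁, ht₁, e1⟩ := lm_near ha hδ' hg₁ hy hcont hff (η := 1 / 2) (by norm_num)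
  obtain ⟨t₂, ht₂, e2⟩ := lm_near ha hδ' hg₁ hy hcont hgg (η := 1 / 2) (by norm_num)
  filter_upwards [e1, e2, hCb ‖x‖] with n h1 h2 h3
  obtain ⟨a1, a2, a3⟩ := h1 x (mem_ball_self ht₁)
  obtain ⟨b1, b2, b3⟩ := h2 x (mem_ball_self ht₂)
  rw [← hv'] at a1 b1
  refine (cX_pair_le hv a1 b1).trans ?_
  have h4 := h3 x le_rfl a3
  have h5 : Real.exp (c * (‖x‖ + 1 / 2) ^ 2) ≤ Real.exp (c / 2) * Real.exp (2 * c * ‖x‖ ^ 2) := by
    rw [← Real.exp_add]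
    refine Real.exp_le_exp.2 ?_
    have h6 : (‖x‖ + 1 / 2) ^ 2 ≤ 1 / 2 + 2 * ‖x‖ ^ 2 := by nlinarith [sq_nonneg (‖x‖ - 1 / 2)]
    calc c * (‖x‖ + 1 / 2) ^ 2 ≤ c * (1 / 2 + 2 * ‖x‖ ^ 2) := mul_le_mul_of_nonneg_left h6 hc
      _ = _ := by ring
  calc 10 * (dist (f n x) (g n x) * ‖q n x‖) ≤ 10 * (C * Real.exp (c * (‖x‖ + 1 / 2) ^ 2)) := by linarith
    _ ≤ 10 * (C * (Real.exp (c / 2) * Real.exp (2 * c * ‖x‖ ^ 2))) := by
      refine mul_le_mul_of_nonneg_left (mul_le_mul_of_nonneg_left h5 hC) (by norm_num)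
    _ = _ := by ring

end Pool.Agent.G4.A
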