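import Pool.Agent.G4.A.Idn
import Pool.Agent.G3.A.JA
import Pool.Agent.G3.A.LLim
import Pool.Agent.TG.JJ
import Pool.Agent.TG.Cp

/-!
# G4 A JFam: the integrals between two sequences of curves with the same limit, extended over the good hits

At `z₀` with `y₀ + z₀ a ∉ D`: `r z₀` small (`ball z₀ (2 r)` off `D` for `y₀`), `J z₀ n x = JJ α (y n + x • a) (f n x) (g n x)` (`jj_eq_II`, `II_curve`, closeness from `Lm.unif`).  At a good hit:
`CRL` at `p = y₀ + z₀ a` with `η` so small that `ball z₀ (4 η)` contains no other hit; `r z₀ = s₀`, `J z₀ n x = J (x - z₀)`; it is equal to `JJ` also at the points of `ball z₀ s₀` off `D`: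
identity theorem on the annulus `d < |x - z₀| < s₀`, where the curves are close for `𝒰`-most `n`.  The radii are chosen such that balls at different hits are disjoint and `ball z₁ (r z₁)` is off `D`
with its closure for `z₁` not a hit.
-/

set_option autoImplicit false

open Topology Filter Metric

namespace Pool.Agent.G4.A

open Pool.Agent.H36.BP (EN fs wd)
open Pool.Agent.H14.PP (IsCone CurveAt Tan)
open Pool.Agent.H62.EF (MN pr)
open Pool.Agent.AD (Vd Chart Charts IsGerm)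
open Pool.Agent.TG
open Pool.Agent.G3
open Pool.Agent.G3.A
open Pool.Agent.G3.C (Gc HP)

variable {N k : ℕ} {X : Set (EN N)} {Λ : AddSubgroup (Vd (k + 1))} {u : EN N → Vd (k + 1)} {D B Bad : Set (Vd (k + 1))} {a : Vd (k + 1)}

/-- a compact set of parameters without hits -/
private theorem JFam_dist (hD : IsClosed D) {K : Set ℂ} (hK : IsCompact K) (y : Vd (k + 1)) (h : ∀ z ∈ K, y + z • a ∉ D) :
    ∃ d : ℝ, 0 < d ∧ ∀ z ∈ K, y + z • a ∈ Gd D d := by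
  have hc : IsCompact ((fun z : ℂ => y + z • a) '' K) := hK.image (by fun_prop)
  have hdis : Disjoint ((fun z : ℂ => y + z • a) '' K) D := by
    rw [Set.disjoint_left]
    rintro _ ⟨z, hz, rfl⟩
    exact h z hz
  obtain ⟨d, hd, hd2⟩ := hdis.exists_thickenings hc hD
  refine ⟨d, hd, fun z hz b hb => ?_⟩
  by_contra hlt
  push Not at hlt
  refine (Set.disjoint_left.1 hd2) (a := b) ?_ ?_
  · rw [mem_thickening_iff]
    exact ⟨y + z • a, ⟨z, hz, rfl⟩, by rw [dist_comm, dist_eq_norm]; exact hlt⟩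
  · rw [mem_thickening_iff]
    exact ⟨b, hb, by rw [dist_self]; exact hd⟩

/-- over a compact set without hits most lines are far from `D`, and the curves are close -/
private theorem JFam_K (hD : IsClosed D) {ι : Type*} {𝒰 : Ultrafilter ι} {y : ι → Vd (k + 1)} {y₀ : Vd (k + 1)}
    (hy : Tendsto y 𝒰 (𝓝 y₀)) {f g : ι → ℂ → MN N} {h : ℂ → MN N} (hh : Continuous h) (hfh : Lm D a 𝒰 y₀ f h) (hgh : Lm D a 𝒰 y₀ g h)
    {K : Set ℂ} (hK : IsCompact K) (hKD : ∀ z ∈ K, y₀ + z • a ∉ D) :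
    ∃ δ : ℝ, 0 < δ ∧ (∀ᶠ n in (𝒰 : Filter ι), ∀ z ∈ K, y n + z • a ∈ Gd D δ) ∧
      ∀ ε : ℝ, 0 < ε → ∀ᶠ n in (𝒰 : Filter ι), ∀ z ∈ K, dist (f n z) (g n z) ≤ ε := by
  obtain ⟨d, hd, hdK⟩ := JFam_dist hD hK y₀ hKD
  refine ⟨d / 2, half_pos hd, ?_, fun ε hε => ?_⟩
  · filter_upwards [hy.eventually (ball_mem_nhds y₀ (half_pos hd))] with n hn z hz
    have h1 := gd_near (hdK z hz) (w := y n + z • a) (r := d / 2) (by
      rw [add_sub_add_right_eq_sub, ← dist_eq_norm]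
      exact (mem_ball.1 hn).le)
    exact gd_mono (by linarith) h1
  · filter_upwards [hfh.unif4 hh hK hKD (half_pos hε), hgh.unif4 hh hK hKD (half_pos hε)] with n h1 h2 z hz
    have h3 := dist_triangle_right (f n z) (g n z) (h z)
    have h4 := h1 z hz
    have h5 := h2 z hz
    linarith

/-- the integral is holomorphic off the hits -/
private theorem JFam_an (G : Geo X Λ u D B) {ι : Type*} {𝒰 : Ultrafilter ι} {y : ι → Vd (k + 1)} {y₀ : Vd (k + 1)}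
    (hy : Tendsto y 𝒰 (𝓝 y₀)) {f g : ι → ℂ → MN N} {h : ℂ → MN N} (hf : ∀ᶠ n in (𝒰 : Filter ι), f n ∈ Hc X Λ u a (y n))
    (hg : ∀ᶠ n in (𝒰 : Filter ι), g n ∈ Hc X Λ u a (y n)) (hh : Continuous h) (hfh : Lm D a 𝒰 y₀ f h) (hgh : Lm D a 𝒰 y₀ g h) (α : VForm X Λ u)
    {K U : Set ℂ} (hK : IsCompact K) (hKD : ∀ z ∈ K, y₀ + z • a ∉ D) (hU : IsOpen U) (hUK : U ⊆ K) :
    ∀ᶠ n in (𝒰 : Filter ι), DifferentiableOn ℂ (fun x => JJ α (y n + x • a) (f n x) (g n x)) U := by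
  obtain ⟨δ, hδ, h1, h2⟩ := JFam_K G.D_closed hy hh hfh hgh hK hKD
  obtain ⟨ε, ε₀, -, -, hc⟩ := exists_cst G hδ one_pos
  filter_upwards [hf, hg, h1, h2 ε₀ hc.ε₀_pos] with n hfn hgn h3 h4
  have hfm := hc_mem hfn
  have hgm := hc_mem hgn
  obtain ⟨F, ⟨hFd, hFX, hFu⟩, hFe⟩ := hfn
  obtain ⟨H, ⟨hHd, hHX, hHu⟩, hHe⟩ := hgn
  intro z₀ hz₀
  have hla : AnalyticAt ℂ (fun x : ℂ => y n + x • a) z₀ := by fun_prop
  obtain ⟨χ, c, ρ, hcap⟩ := hc.cap (y n + z₀ • a) (h3 z₀ (hUK hz₀)) (f n z₀) (hfm z₀)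
  have e1 : f n z₀ = pr (F z₀) := by rw [hFe]
  rw [e1] at hcap
  have hrel : ∀ᶠ z in 𝓝 z₀, ∃ v, IRel α ε (y n + z • a) (pr (F z)) (pr (H z)) v := by
    filter_upwards [hU.mem_nhds hz₀] with z hz
    have h5 := hc.rel (y n + z • a) (h3 z (hUK hz)) (f n z) (hfm z) (g n z) (hgm z) (h4 z (hUK hz)) α
    rw [hFe, hHe] at h5
    exact h5
  have h6 := II_curve G.cone G.tor G.lat (hFd.analyticAt z₀) (hHd.analyticAt z₀) hla (Eventually.of_forall fun z => ⟨hFX z, hFu z⟩)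
    (Eventually.of_forall fun z => ⟨hHX z, hHu z⟩) hcap (by linarith [hc.ε_pos]) hrel
  have h7 : (fun z => II α ε (y n + z • a) (pr (F z)) (pr (H z))) =ᶠ[𝓝 z₀] fun x => JJ α (y n + x • a) (f n x) (g n x) := by
    filter_upwards [hU.mem_nhds hz₀] with z hz
    have h8 := jj_eq_II G.cone G.tor G.lat (α := α) hc (h3 z (hUK hz)) (hfm z) (hgm z) (h4 z (hUK hz))
    rw [h8, hFe, hHe]
  exact (h6.congr h7).differentiableAt.differentiableWithinAt

/-- the local statement -/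
private theorem JFam_loc (G : Geo X Λ u D B) (hL : LG Λ D Bad a) (hCR : ∀ p ∈ D, p ∉ Bad → CRL X Λ u D a p) {ι : Type*} {𝒰 : Ultrafilter ι} {y : ι → Vd (k + 1)}
    {y₀ : Vd (k + 1)} (hy : Tendsto y 𝒰 (𝓝 y₀)) {f g : ι → ℂ → MN N} {h : ℂ → MN N} (hf : ∀ᶠ n in (𝒰 : Filter ι), f n ∈ Hc X Λ u a (y n))
    (hg : ∀ᶠ n in (𝒰 : Filter ι), g n ∈ Hc X Λ u a (y n)) (hh : Continuous h) (hfh : Lm D a 𝒰 y₀ f h) (hgh : Lm D a 𝒰 y₀ g h) (α : VForm X Λ u)
    (z₀ : ℂ) (hz₀ : y₀ + z₀ • a ∉ Bad) :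
    ∃ (r : ℝ) (J : ι → ℂ → ℂ), 0 < r ∧ (∀ x ∈ closedBall z₀ r, y₀ + x • a ∈ D → x = z₀) ∧
      (∀ᶠ n in (𝒰 : Filter ι), DifferentiableOn ℂ (J n) (ball z₀ r)) ∧
      ∀ δ : ℝ, 0 < δ → ∀ᶠ n in (𝒰 : Filter ι), ∀ x ∈ ball z₀ r, y n + x • a ∈ Gd D δ → J n x = JJ α (y n + x • a) (f n x) (g n x) := by
  classical
  by_cases hD : y₀ + z₀ • a ∈ D
  · -- a good hit
    set p : Vd (k + 1) := y₀ + z₀ • a with hp
    obtain ⟨η, hη, hηD⟩ : ∃ η : ℝ, 0 < η ∧ ∀ z : ℂ, z ≠ 0 → ‖z‖ ≤ η → p + z • a ∉ D := by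
      have h1 := hL.iso p
      rw [eventually_nhdsWithin_iff, Metric.eventually_nhds_iff] at h1
      obtain ⟨η, hη, h2⟩ := h1
      refine ⟨η / 2, half_pos hη, fun z hz hzη => h2 ?_ hz⟩
      rw [dist_zero_right]
      linarith
    obtain ⟨s₀, ρ₀, hs₀, hsη, hρ₀, hcr⟩ := hCR p hD hz₀ η hη
    have hoff : ∀ x : ℂ, x ≠ z₀ → dist x z₀ ≤ s₀ → y₀ + x • a ∉ D := by
      intro x hx hxd
      have h1 := hηD (x - z₀) (sub_ne_zero.2 hx) (by rw [← dist_eq_norm]; linarith)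
      have e : p + (x - z₀) • a = y₀ + x • a := by
        rw [hp, sub_smul]
        abel
      rwa [e] at h1
    have hKc : ∀ d : ℝ, IsCompact {x : ℂ | d ≤ dist x z₀ ∧ dist x z₀ ≤ s₀} := by
      intro d
      have h1 : {x : ℂ | d ≤ dist x z₀ ∧ dist x z₀ ≤ s₀} = closedBall z₀ s₀ ∩ {x : ℂ | d ≤ dist x z₀} := by
        ext x
        simp only [Set.mem_ofPred_eq, Set.mem_inter_iff, mem_closedBall]
        exact and_comm
      rw [h1]
      exact (isCompact_closedBall z₀ s₀).inter_right (isClosed_le continuous_const (continuous_id.dist continuous_const))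
    have hKD : ∀ d : ℝ, 0 < d → ∀ x ∈ {x : ℂ | d ≤ dist x z₀ ∧ dist x z₀ ≤ s₀}, y₀ + x • a ∉ D := by
      intro d hd x hx
      refine hoff x ?_ hx.2
      rintro rfl
      have := hx.1
      rw [dist_self] at this
      linarith
    obtain ⟨δ₁, hδ₁, hgd, hcl⟩ := JFam_K G.D_closed hy hh hfh hgh (hKc (s₀ / 4)) (hKD (s₀ / 4) (by linarith))
    obtain ⟨ε, ε₀, -, -, hc⟩ := exists_cst G hδ₁ one_pos
    obtain ⟨ε₁, hε₁, hε₁₀, hcr1⟩ := hcr δ₁ ε ε₀ hc
    have hpn : Tendsto (fun n => y n + z₀ • a) 𝒰 (𝓝 p) := hy.add_const _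
    have hJ : ∀ᶠ n in (𝒰 : Filter ι), ∃ J' : ℂ → ℂ, DifferentiableOn ℂ J' (ball z₀ s₀) ∧
        ∀ x : ℂ, s₀ / 4 < dist x z₀ → dist x z₀ < s₀ → J' x = JJ α (y n + x • a) (f n x) (g n x) := by
      filter_upwards [hf, hg, hgd, hcl ε₁ hε₁, hpn.eventually (ball_mem_nhds p hρ₀)] with n hfn hgn h3 h4 h5
      have hfm := hc_mem hfn
      have hgm := hc_mem hgn
      obtain ⟨F, ⟨hFd, hFX, hFu⟩, hFe⟩ := hfn
      obtain ⟨H, ⟨hHd, hHX, hHu⟩, hHe⟩ := hgn
      have e0 : ∀ z : ℂ, y n + z₀ • a + z • a = y n + (z₀ + z) • a := by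
        intro z
        rw [add_smul]
        abel
      have hmem : ∀ z : ℂ, s₀ / 4 ≤ ‖z‖ → ‖z‖ ≤ s₀ → z₀ + z ∈ {x : ℂ | s₀ / 4 ≤ dist x z₀ ∧ dist x z₀ ≤ s₀} := by
        intro z h6 h7
        simp only [Set.mem_ofPred_eq, dist_eq_norm, add_sub_cancel_left]
        exact ⟨h6, h7⟩
      obtain ⟨J', hJ', hJe⟩ := hcr1 (y n + z₀ • a) h5 (fun z h6 h7 => by rw [e0]; exact h3 _ (hmem z h6 h7)) α (fun z => F (z₀ + z)) (fun z => H (z₀ + z))
        (hFd.comp (differentiable_id.const_add z₀)).differentiableOn (fun z _ => ⟨hFX _, by rw [e0]; exact hFu _⟩)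
        (hHd.comp (differentiable_id.const_add z₀)).differentiableOn (fun z _ => ⟨hHX _, by rw [e0]; exact hHu _⟩)
        (fun z h6 h7 => by
          have h8 := h4 _ (hmem z h6 h7)
          rw [hFe, hHe] at h8
          exact h8)
      refine ⟨fun x => J' (x - z₀), ?_, fun x h6 h7 => ?_⟩
      · refine hJ'.comp (differentiable_id.sub_const z₀).differentiableOn fun x hx => ?_
        rw [mem_ball, dist_eq_norm] at hx
        rw [mem_ball, dist_zero_right]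
        exact hx
      · rw [dist_eq_norm] at h6 h7
        have h8 := hJe (x - z₀) h6 h7
        have h9 := hmem (x - z₀) h6.le h7.le
        rw [add_sub_cancel] at h9
        show J' (x - z₀) = _
        rw [h8, e0, jj_eq_II G.cone G.tor G.lat (α := α) hc (h3 x h9) (hfm x) (hgm x) ((h4 x h9).trans hε₁₀), hFe, hHe, add_sub_cancel]
    obtain ⟨J, hJs⟩ : ∃ J : ι → ℂ → ℂ, ∀ n, (∃ J' : ℂ → ℂ, DifferentiableOn ℂ J' (ball z₀ s₀) ∧
        ∀ x : ℂ, s₀ / 4 < dist x z₀ → dist x z₀ < s₀ → J' x = JJ α (y n + x • a) (f n x) (g n x)) →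
        DifferentiableOn ℂ (J n) (ball z₀ s₀) ∧ ∀ x : ℂ, s₀ / 4 < dist x z₀ → dist x z₀ < s₀ → J n x = JJ α (y n + x • a) (f n x) (g n x) := by
      refine ⟨fun n => if hn : ∃ J' : ℂ → ℂ, DifferentiableOn ℂ J' (ball z₀ s₀) ∧
        ∀ x : ℂ, s₀ / 4 < dist x z₀ → dist x z₀ < s₀ → J' x = JJ α (y n + x • a) (f n x) (g n x) then hn.choose else 0, fun n hn => ?_⟩
      simp only [dif_pos hn]
      exact hn.choose_spec
    have hJn := hJ.mono fun n hn => hJs n hn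
    refine ⟨s₀, J, hs₀, fun x hx hxD => ?_, hJn.mono fun n hn => hn.1, fun δ hδ => ?_⟩
    · by_contra hne
      exact hoff x hne (mem_closedBall.1 hx) hxD
    · have hU : IsOpen {x : ℂ | δ / 4 < dist x z₀ ∧ dist x z₀ < s₀} :=
        (isOpen_lt continuous_const (continuous_id.dist continuous_const)).inter (isOpen_lt (continuous_id.dist continuous_const) continuous_const)
      filter_upwards [hJn, JFam_an G hy hf hg hh hfh hgh α (hKc (δ / 4)) (hKD (δ / 4) (by linarith)) hU (fun x hx => ⟨hx.1.le, hx.2.le⟩),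
        hy.eventually (ball_mem_nhds y₀ (half_pos hδ))] with n hn hdn hyn x hx hxG
      have hx1 : δ / 2 < dist x z₀ := by
        have h1 := hxG p hD
        have e : y n + x • a - p = (y n - y₀) + (x - z₀) • a := by
          rw [hp, sub_smul]
          abel
        have h2 := norm_add_le (y n - y₀) ((x - z₀) • a)
        rw [norm_smul, hL.norm, mul_one, ← e] at h2
        have h3 : ‖y n - y₀‖ < δ / 2 := by
          rw [← dist_eq_norm]
          exact mem_ball.1 hyn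
        rw [dist_eq_norm]
        linarith
      have hx2 : dist x z₀ < s₀ := mem_ball.1 hx
      -- the point `q`
      set t : ℝ := (max (s₀ / 4) (δ / 4) + s₀) / 2 with ht
      have hm : max (s₀ / 4) (δ / 4) < s₀ := max_lt (by linarith) (by linarith)
      have ht1 : max (s₀ / 4) (δ / 4) < t := by linarith
      have ht2 : t < s₀ := by linarith
      have ht0 : 0 < t := lt_trans (lt_of_lt_of_le (by linarith) (le_max_left (s₀ / 4) (δ / 4))) ht1
      have hqd : dist (z₀ + (t : ℂ)) z₀ = t := by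
        rw [dist_eq_norm, add_sub_cancel_left, Complex.norm_real, Real.norm_of_nonneg ht0.le]
      have hqU : z₀ + (t : ℂ) ∈ {x : ℂ | δ / 4 < dist x z₀ ∧ dist x z₀ < s₀} := by
        rw [Set.mem_ofPred_eq, hqd]
        exact ⟨lt_of_le_of_lt (le_max_right _ _) ht1, ht2⟩
      have hsub : {x : ℂ | δ / 4 < dist x z₀ ∧ dist x z₀ < s₀} ⊆ ball z₀ s₀ := fun x hx => hx.2
      have hA1 : AnalyticOnNhd ℂ (J n) {x : ℂ | δ / 4 < dist x z₀ ∧ dist x z₀ < s₀} := (hn.1.mono hsub).analyticOnNhd hU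
      have hA2 := hdn.analyticOnNhd hU
      have heq : J n =ᶠ[𝓝 (z₀ + (t : ℂ))] fun x => JJ α (y n + x • a) (f n x) (g n x) := by
        have h1 : IsOpen {x : ℂ | s₀ / 4 < dist x z₀ ∧ dist x z₀ < s₀} :=
          (isOpen_lt continuous_const (continuous_id.dist continuous_const)).inter (isOpen_lt (continuous_id.dist continuous_const) continuous_const)
        have h2 : z₀ + (t : ℂ) ∈ {x : ℂ | s₀ / 4 < dist x z₀ ∧ dist x z₀ < s₀} := by
          rw [Set.mem_ofPred_eq, hqd]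
          exact ⟨lt_of_le_of_lt (le_max_left _ _) ht1, ht2⟩
        filter_upwards [h1.mem_nhds h2] with x hx
        exact hn.2 x hx.1 hx.2
      exact hA1.eqOn_of_preconnected_of_eventuallyEq hA2 (isPreconnected_ann z₀ (by linarith)) hqU heq ⟨by linarith, hx2⟩
  · -- not a hit
    have hop : IsOpen {x : ℂ | y₀ + x • a ∉ D} := by
      have hc : Continuous fun x : ℂ => y₀ + x • a := by fun_prop
      exact G.D_closed.isOpen_compl.preimage hc
    obtain ⟨r, hr, hrs⟩ := Metric.isOpen_iff.1 hop z₀ hD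
    have hK : ∀ x ∈ closedBall z₀ (r / 2), y₀ + x • a ∉ D := fun x hx => hrs (closedBall_subset_ball (by linarith) hx)
    refine ⟨r / 2, fun n x => JJ α (y n + x • a) (f n x) (g n x), half_pos hr, fun x hx hxD => absurd hxD (hK x hx), ?_, fun δ hδ => Eventually.of_forall fun n x _ _ => rfl⟩
    exact JFam_an G hy hf hg hh hfh hgh α (isCompact_closedBall z₀ (r / 2)) hK isOpen_ball ball_subset_closedBall

theorem jfam (G : Geo X Λ u D B) (hL : LG Λ D Bad a) (hCR : ∀ p ∈ D, p ∉ Bad → CRL X Λ u D a p) {ι : Type*} {𝒰 : Ultrafilter ι} {y : ι → Vd (k + 1)} {y₀ : Vd (k + 1)}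
    (hy : Tendsto y 𝒰 (𝓝 y₀)) {f g : ι → ℂ → MN N} {h : ℂ → MN N} (hf : ∀ᶠ n in (𝒰 : Filter ι), f n ∈ Hc X Λ u a (y n))
    (hg : ∀ᶠ n in (𝒰 : Filter ι), g n ∈ Hc X Λ u a (y n)) (hh : h ∈ Hc X Λ u a y₀) (hfh : Lm D a 𝒰 y₀ f h) (hgh : Lm D a 𝒰 y₀ g h) (α : VForm X Λ u) :
    ∃ (r : ℂ → ℝ) (J : ℂ → ι → ℂ → ℂ), ∀ z₀ : ℂ, y₀ + z₀ • a ∉ Bad → 0 < r z₀ ∧ (∀ᶠ n in (𝒰 : Filter ι), DifferentiableOn ℂ (J z₀ n) (ball z₀ (r z₀))) ∧
      (∀ z₁ : ℂ, y₀ + z₁ • a ∉ Bad → ∀ᶠ n in (𝒰 : Filter ι), ∀ x ∈ ball z₀ (r z₀) ∩ ball z₁ (r z₁), J z₀ n x = J z₁ n x) ∧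
      ∀ δ : ℝ, 0 < δ → ∀ᶠ n in (𝒰 : Filter ι), ∀ x ∈ ball z₀ (r z₀), y n + x • a ∈ Gd D δ → J z₀ n x = JJ α (y n + x • a) (f n x) (g n x) := by
  classical
  have hhc := hc_cont G.cone hh
  have hloc := JFam_loc G hL hCR hy hf hg hhc hfh hgh α
  refine ⟨fun z₀ => if hz : y₀ + z₀ • a ∉ Bad then (hloc z₀ hz).choose else 1, fun z₀ => if hz : y₀ + z₀ • a ∉ Bad then (hloc z₀ hz).choose_spec.choose else 0,
    fun z₀ hz₀ => ?_⟩
  simp only [dif_pos hz₀]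
  obtain ⟨h1, h2, h3, h4⟩ := (hloc z₀ hz₀).choose_spec.choose_spec
  refine ⟨h1, h3, fun z₁ hz₁ => ?_, h4⟩
  simp only [dif_pos hz₁]
  obtain ⟨k1, k2, k3, k4⟩ := (hloc z₁ hz₁).choose_spec.choose_spec
  by_cases he : z₀ = z₁
  · subst he
    exact Eventually.of_forall fun n x _ => rfl
  · have hK : IsCompact (closedBall z₀ (hloc z₀ hz₀).choose ∩ closedBall z₁ (hloc z₁ hz₁).choose) := (isCompact_closedBall _ _).inter (isCompact_closedBall _ _)
    obtain ⟨δ, hδ, hg1, -⟩ := JFam_K G.D_closed hy hhc hfh hgh hK (fun z hz hzD => he ((h2 z hz.1 hzD).symm.trans (k2 z hz.2 hzD)))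
    filter_upwards [hg1, h4 δ hδ, k4 δ hδ] with n m1 m2 m3 x hx
    have hxG := m1 x ⟨ball_subset_closedBall hx.1, ball_subset_closedBall hx.2⟩
    rw [m2 x hx.1 hxG, m3 x hx.2 hxG]

end Pool.Agent.G4.A
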