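import Pool.Agent.G4.A.Cns

/-!
# G4 A Shts: the sheets over `b + E`

`chain_ext`: abstract lemma (no topology): `E` a real normed space, `H : E → Set β`, `η > 0` and maps `τ v w : β → β` (for `‖v - w‖ ≤ η`: `H v → H w`, `τ v v = id`, `τ v w ∘ τ u v = τ u w` if all
three distances are `≤ η`): for every `f ∈ H 0` there is a section `φ`, `φ 0 = f`, `φ w = τ v w (φ v)` for `‖v - w‖ ≤ η / 3`.  Proof: subdivide the segment `[0, v]` into `n` equal steps (`‖v‖ / n ≤ η / 3`); the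
result does not depend on `n` (compare `n` and `n m`), and it is compatible for near `v`, `w` (compare step by step).
`exists_sht`: `H v = Hc (b + v)`, `τ` from `near_exists`; `φ (b + v) = F_v 0` for `v ∈ E`; `F_{v + z a} = F_v (z + ·)`: both are continuous in `z` and near (uniqueness).
-/

set_option autoImplicit false

open Topology Filter Metric

namespace Pool.Agent.G4.A

open Pool.Agent.H36.BP (EN fs wd)
open Pool.Agent.H14.PP (IsCone CurveAt Tan)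
open Pool.Agent.H62.EF (MN pr)
open Pool.Agent.AD (Vd Chart Charts IsGerm)
open Pool.Agent.TG
open Pool.Agent.G3
open Pool.Agent.G3.A
open Pool.Agent.G3.C (Gc HP)

section chain

variable {V β : Type*} [NormedAddCommGroup V] [NormedSpace ℝ V]

/-- the values along the subdivided segment from `0` to `v` -/
private noncomputable def chP (τ : V → V → β → β) (f : β) (n : ℕ) (v : V) : ℕ → β
  | 0 => f
  | i + 1 => τ (((i : ℝ) / n) • v) ((((i + 1 : ℕ) : ℝ) / n) • v) (chP τ f n v i)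

private theorem ch_step {n : ℕ} (hn : 0 < n) (v : V) (i : ℕ) : ‖((i : ℝ) / n) • v - (((i + 1 : ℕ) : ℝ) / n) • v‖ = ‖v‖ / n := by
  have hn0 : (0 : ℝ) < n := by exact_mod_cast hn
  rw [← sub_smul, norm_smul]
  have h : (i : ℝ) / n - ((i + 1 : ℕ) : ℝ) / n = -(1 / n) := by
    push_cast
    field_simp
    ring
  rw [h, norm_neg, Real.norm_of_nonneg (by positivity)]
  ring

variable {H : V → Set β} {η : ℝ} {τ : V → V → β → β}

private theorem ch_mem (h1 : ∀ v w, ‖v - w‖ ≤ η → ∀ f ∈ H v, τ v w f ∈ H w) {f : β} (hf : f ∈ H 0) {n : ℕ} (hn : 0 < n) {v : V} (hv : ‖v‖ / n ≤ η) (i : ℕ) :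
    chP τ f n v i ∈ H (((i : ℝ) / n) • v) := by
  induction i with
  | zero => simpa [chP] using hf
  | succ i ih =>
    refine h1 _ _ ?_ _ ih
    rw [ch_step hn]
    exact hv

/-- compatibility of two segments -/
private theorem ch_comp (hη : 0 < η) (h1 : ∀ v w, ‖v - w‖ ≤ η → ∀ f ∈ H v, τ v w f ∈ H w) (h2 : ∀ v, ∀ f ∈ H v, τ v v f = f)
    (h3 : ∀ u v w, ‖u - v‖ ≤ η → ‖v - w‖ ≤ η → ‖u - w‖ ≤ η → ∀ f ∈ H u, τ v w (τ u v f) = τ u w f) {f : β} (hf : f ∈ H 0)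
    {n : ℕ} (hn : 0 < n) {v w : V} (hv : ‖v‖ / n ≤ η / 3) (hw : ‖w‖ / n ≤ η / 3) (hvw : ‖v - w‖ ≤ η / 3) {i : ℕ} (hi : i ≤ n) :
    chP τ f n w i = τ (((i : ℝ) / n) • v) (((i : ℝ) / n) • w) (chP τ f n v i) := by
  have hn0 : (0 : ℝ) < n := by exact_mod_cast hn
  have hd : ∀ j : ℕ, j ≤ n → ‖((j : ℝ) / n) • v - ((j : ℝ) / n) • w‖ ≤ η / 3 := by
    intro j hj
    rw [← smul_sub, norm_smul, Real.norm_of_nonneg (by positivity)]
    have h4 : (j : ℝ) / n ≤ 1 := by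
      rw [div_le_one hn0]
      exact_mod_cast hj
    have h5 := mul_le_mul h4 hvw (norm_nonneg _) zero_le_one
    linarith
  induction i with
  | zero =>
    have h4 := h2 0 f hf
    simpa [chP] using h4.symm
  | succ i ih =>
    have hi' : i ≤ n := by omega
    have hm := ch_mem h1 hf hn (v := v) (by linarith) i
    have s1 := ch_step hn v i
    have s2 := ch_step hn w i
    have d1 := hd i hi'
    have d2 := hd (i + 1) hi
    have d3 : ‖((i : ℝ) / n) • v - (((i + 1 : ℕ) : ℝ) / n) • w‖ ≤ η := by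
      have h4 : ((i : ℝ) / n) • v - (((i + 1 : ℕ) : ℝ) / n) • w
          = (((i : ℝ) / n) • v - ((i : ℝ) / n) • w) + (((i : ℝ) / n) • w - (((i + 1 : ℕ) : ℝ) / n) • w) := by abel
      rw [h4]
      refine (norm_add_le _ _).trans ?_
      rw [s2]
      linarith
    rw [chP, ih hi', chP]
    rw [h3 _ _ _ (by linarith) (by rw [s2]; linarith) d3 _ hm, h3 _ _ _ (by rw [s1]; linarith) (by linarith) d3 _ hm]

/-- refinement of the subdivision -/
private theorem ch_ref (h1 : ∀ v w, ‖v - w‖ ≤ η → ∀ f ∈ H v, τ v w f ∈ H w) (h2 : ∀ v, ∀ f ∈ H v, τ v v f = f)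
    (h3 : ∀ u v w, ‖u - v‖ ≤ η → ‖v - w‖ ≤ η → ‖u - w‖ ≤ η → ∀ f ∈ H u, τ v w (τ u v f) = τ u w f) {f : β} (hf : f ∈ H 0)
    {n m : ℕ} (hn : 0 < n) (hm : 0 < m) {v : V} (hv : ‖v‖ / n ≤ η) (i : ℕ) : chP τ f (n * m) v (i * m) = chP τ f n v i := by
  have hn0 : (0 : ℝ) < n := by exact_mod_cast hn
  have hm0 : (0 : ℝ) < m := by exact_mod_cast hm
  have hnm : 0 < n * m := Nat.mul_pos hn hm
  have hv' : ‖v‖ / ((n * m : ℕ) : ℝ) ≤ η := by
    have h4 : ‖v‖ / ((n * m : ℕ) : ℝ) ≤ ‖v‖ / n := by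
      refine div_le_div_of_nonneg_left (norm_nonneg _) hn0 ?_
      push_cast
      have h5 : (1 : ℝ) ≤ m := by exact_mod_cast hm
      nlinarith
    exact h4.trans hv
  have hpt : ∀ j : ℕ, (((j * m : ℕ) : ℝ) / ((n * m : ℕ) : ℝ)) = (j : ℝ) / n := by
    intro j
    push_cast
    field_simp
  have key : ∀ i j : ℕ, j ≤ m → chP τ f (n * m) v (i * m + j)
      = τ (((i : ℝ) / n) • v) ((((i * m + j : ℕ) : ℝ) / ((n * m : ℕ) : ℝ)) • v) (chP τ f (n * m) v (i * m)) := by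
    intro i j
    have hmem := ch_mem h1 hf hnm hv' (i * m)
    rw [hpt] at hmem
    have hdist : ∀ j : ℕ, j ≤ m → ‖((i : ℝ) / n) • v - (((i * m + j : ℕ) : ℝ) / ((n * m : ℕ) : ℝ)) • v‖ ≤ η := by
      intro j hj
      rw [← sub_smul, norm_smul]
      have h4 : (i : ℝ) / n - ((i * m + j : ℕ) : ℝ) / ((n * m : ℕ) : ℝ) = -((j : ℝ) / (n * m)) := by
        push_cast
        field_simp
        ring
      rw [h4, norm_neg, Real.norm_of_nonneg (by positivity)]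
      have h5 : (j : ℝ) / (n * m) ≤ 1 / n := by
        rw [div_le_div_iff₀ (by positivity) hn0]
        have h6 : (j : ℝ) ≤ m := by exact_mod_cast hj
        nlinarith
      calc (j : ℝ) / (n * m) * ‖v‖ ≤ 1 / n * ‖v‖ := mul_le_mul_of_nonneg_right h5 (norm_nonneg _)
        _ = ‖v‖ / n := by ring
        _ ≤ η := hv
    induction j with
    | zero =>
      intro _
      have h4 := h2 _ _ hmem
      rw [add_zero, hpt]
      exact h4.symm
    | succ j ih =>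
      intro hj
      have ih' := ih (by omega)
      have e1 : i * m + (j + 1) = (i * m + j) + 1 := by ring
      rw [e1, chP, ih']
      refine h3 _ _ _ (hdist j (by omega)) ?_ ?_ _ hmem
      · rw [ch_step hnm]
        exact hv'
      · have h4 := hdist (j + 1) hj
        rwa [e1] at h4
  induction i with
  | zero => simp [chP]
  | succ i ih =>
    have h4 := key i m le_rfl
    have e1 : (i + 1) * m = i * m + m := by ring
    rw [e1, h4, ih, ← e1, hpt (i + 1), chP]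

end chain

theorem chain_ext {V β : Type*} [NormedAddCommGroup V] [NormedSpace ℝ V] {H : V → Set β} {η : ℝ} (hη : 0 < η) {τ : V → V → β → β}
    (h1 : ∀ v w, ‖v - w‖ ≤ η → ∀ f ∈ H v, τ v w f ∈ H w) (h2 : ∀ v, ∀ f ∈ H v, τ v v f = f)
    (h3 : ∀ u v w, ‖u - v‖ ≤ η → ‖v - w‖ ≤ η → ‖u - w‖ ≤ η → ∀ f ∈ H u, τ v w (τ u v f) = τ u w f) {f : β} (hf : f ∈ H 0) :
    ∃ φ : V → β, φ 0 = f ∧ (∀ v, φ v ∈ H v) ∧ ∀ v w, ‖v - w‖ ≤ η / 3 → φ w = τ v w (φ v) := by
  have hN : ∀ v : V, ∃ n : ℕ, 0 < n ∧ ‖v‖ / n ≤ η / 3 := by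
    intro v
    obtain ⟨n, hn⟩ := exists_nat_gt (‖v‖ / (η / 3))
    have hn0 : (0 : ℝ) < n := lt_of_le_of_lt (by positivity) hn
    refine ⟨n, by exact_mod_cast hn0, ?_⟩
    rw [div_lt_iff₀ (by positivity)] at hn
    rw [div_le_iff₀ hn0]
    linarith
  choose n hn hnv using hN
  have hQ : ∀ v : V, ∀ m : ℕ, 0 < m → ‖v‖ / m ≤ η / 3 → chP τ f m v m = chP τ f (n v) v (n v) := by
    intro v m hm hmv
    have e1 := ch_ref h1 h2 h3 hf hm (hn v) (v := v) (by linarith) m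
    have e2 := ch_ref h1 h2 h3 hf (hn v) hm (v := v) (by linarith [hnv v]) (n v)
    rw [← e1, ← e2, mul_comm m (n v)]
  refine ⟨fun v => chP τ f (n v) v (n v), ?_, fun v => ?_, fun v w hvw => ?_⟩
  · have h4 : ∀ i, chP τ f (n 0) (0 : V) i = f := by
      intro i
      induction i with
      | zero => rfl
      | succ i ih =>
        rw [chP, ih, smul_zero, smul_zero]
        exact h2 0 f hf
    exact h4 _
  · have h4 := ch_mem h1 hf (hn v) (v := v) (by linarith [hnv v]) (n v)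
    have h5 : ((n v : ℝ) / n v) • v = v := by
      rw [div_self (by exact_mod_cast (hn v).ne'), one_smul]
    rwa [h5] at h4
  · have hnn : 0 < n v * n w := Nat.mul_pos (hn v) (hn w)
    have hv0 : (0 : ℝ) < n v := by exact_mod_cast hn v
    have hw0 : (0 : ℝ) < n w := by exact_mod_cast hn w
    have hv1 : (1 : ℝ) ≤ n v := by exact_mod_cast hn v
    have hw1 : (1 : ℝ) ≤ n w := by exact_mod_cast hn w
    have hv : ‖v‖ / ((n v * n w : ℕ) : ℝ) ≤ η / 3 := by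
      refine le_trans (div_le_div_of_nonneg_left (norm_nonneg _) hv0 ?_) (hnv v)
      push_cast
      nlinarith
    have hw : ‖w‖ / ((n v * n w : ℕ) : ℝ) ≤ η / 3 := by
      refine le_trans (div_le_div_of_nonneg_left (norm_nonneg _) hw0 ?_) (hnv w)
      push_cast
      nlinarith
    have h4 := ch_comp hη h1 h2 h3 hf hnn hv hw hvw (i := n v * n w) le_rfl
    have h5 : (((n v * n w : ℕ) : ℝ) / ((n v * n w : ℕ) : ℝ)) = 1 := div_self (by exact_mod_cast hnn.ne')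
    rw [h5, one_smul, one_smul, hQ w _ hnn hw, hQ v _ hnn hv] at h4
    exact h4

variable {N k : ℕ} {X : Set (EN N)} {Λ : AddSubgroup (Vd (k + 1))} {u : EN N → Vd (k + 1)} {D B Bad : Set (Vd (k + 1))} {a : Vd (k + 1)}

variable {Γ : AddSubgroup (Vd (k + 1))} {J rW : ℕ} {W : Fin rW → Vd (k + 1) →L[ℂ] ℂ} {α : Fin J → VForm X Λ u} {c₀ C₀ ρ δ : ℝ} {E : Submodule ℝ (Vd (k + 1))} {b : Vd (k + 1)}

private theorem mem_tb (v : E) : b + (v : Vd (k + 1)) ∈ Tb b E := by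
  show b + (v : Vd (k + 1)) - b ∈ E
  rw [add_sub_cancel_left]
  exact v.2

private theorem tb_add {y v : Vd (k + 1)} (hy : y ∈ Tb b E) (hv : v ∈ E) : y + v ∈ Tb b E := by
  show y + v - b ∈ E
  have h : y + v - b = (y - b) + v := by abel
  rw [h]
  exact E.add_mem hy hv

/-- transport of the curves -/
private theorem tr_exists (S : DA X Λ u D B Bad a Γ W α c₀ C₀ ρ δ) (hE : CE X Λ u a b E) :
    ∃ (R θ η : ℝ) (τ : E → E → (ℂ → MN N) → ℂ → MN N), 0 < R ∧ 0 < θ ∧ 0 < η ∧ η ≤ δ / 8 ∧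
      (∀ v w : E, ‖v - w‖ ≤ η → ∀ f ∈ Hc X Λ u a (b + v), τ v w f ∈ Hc X Λ u a (b + w)) ∧
      (∀ v w : E, ‖v - w‖ ≤ η → ∀ f ∈ Hc X Λ u a (b + v), ∀ z ∈ closedBall (0 : ℂ) R, b + v + z • a ∈ Gd D (δ / 2) →
        dist (τ v w f z) (f z) ≤ θ) ∧
      (∀ v w : E, ‖v - w‖ ≤ η → ∀ f ∈ Hc X Λ u a (b + v), ∀ f' ∈ Hc X Λ u a (b + w),
        (∀ z ∈ closedBall (0 : ℂ) R, b + v + z • a ∈ Gd D (3 / 4 * δ) → dist (f' z) (f z) ≤ 2 * θ) → f' = τ v w f) ∧
      ∀ θ' : ℝ, 0 < θ' → ∃ η' : ℝ, 0 < η' ∧ η' ≤ η ∧ ∀ v w : E, ‖v - w‖ ≤ η' → ∀ f ∈ Hc X Λ u a (b + v),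
        ∀ z ∈ closedBall (0 : ℂ) R, b + v + z • a ∈ Gd D (δ / 2) → dist (τ v w f z) (f z) ≤ θ' := by
  classical
  have hδ := S.lc.δ_pos
  obtain ⟨R, θ, hR, hθ, h⟩ := near_exists S hE
  obtain ⟨η, hη, hηδ, h1⟩ := h θ hθ le_rfl
  have hn : ∀ v w : E, ‖(b + (w : Vd (k + 1))) - (b + v)‖ = ‖v - w‖ := by
    intro v w
    rw [add_sub_add_left_eq_sub, ← Submodule.coe_sub, ← Submodule.coe_norm, norm_sub_rev]
  have h2 : ∀ v w : E, ‖v - w‖ ≤ η → ∀ f ∈ Hc X Λ u a (b + v), ∃ f' ∈ Hc X Λ u a (b + w),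
      ∀ z ∈ closedBall (0 : ℂ) R, b + v + z • a ∈ Gd D (δ / 2) → dist (f' z) (f z) ≤ θ :=
    fun v w hvw f hf => (h1 _ (mem_tb v) _ (mem_tb w) (by rw [hn]; exact hvw) f hf).1
  have h3 : ∀ v w : E, ‖v - w‖ ≤ η → ∀ f ∈ Hc X Λ u a (b + v), ∀ f' ∈ Hc X Λ u a (b + w), ∀ f'' ∈ Hc X Λ u a (b + w),
      (∀ z ∈ closedBall (0 : ℂ) R, b + v + z • a ∈ Gd D (3 / 4 * δ) → dist (f' z) (f z) ≤ 2 * θ) →
      (∀ z ∈ closedBall (0 : ℂ) R, b + v + z • a ∈ Gd D (3 / 4 * δ) → dist (f'' z) (f z) ≤ 2 * θ) → f' = f'' :=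
    fun v w hvw f hf => (h1 _ (mem_tb v) _ (mem_tb w) (by rw [hn]; exact hvw) f hf).2
  have hgd : ∀ {y : Vd (k + 1)}, y ∈ Gd D (3 / 4 * δ) → y ∈ Gd D (δ / 2) := fun hy => gd_mono (by linarith) hy
  let τ : E → E → (ℂ → MN N) → ℂ → MN N := fun v w f =>
    if hh : ‖v - w‖ ≤ η ∧ f ∈ Hc X Λ u a (b + v) then (h2 v w hh.1 f hh.2).choose else f
  have τ1 : ∀ v w : E, ‖v - w‖ ≤ η → ∀ f ∈ Hc X Λ u a (b + v), τ v w f ∈ Hc X Λ u a (b + w) ∧
      ∀ z ∈ closedBall (0 : ℂ) R, b + v + z • a ∈ Gd D (δ / 2) → dist (τ v w f z) (f z) ≤ θ := by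
    intro v w hvw f hf
    have e : τ v w f = (h2 v w hvw f hf).choose := dif_pos ⟨hvw, hf⟩
    rw [e]
    exact (h2 v w hvw f hf).choose_spec
  have τ3 : ∀ v w : E, ‖v - w‖ ≤ η → ∀ f ∈ Hc X Λ u a (b + v), ∀ f' ∈ Hc X Λ u a (b + w),
      (∀ z ∈ closedBall (0 : ℂ) R, b + v + z • a ∈ Gd D (3 / 4 * δ) → dist (f' z) (f z) ≤ 2 * θ) → f' = τ v w f := by
    intro v w hvw f hf f' hf' hcl
    refine h3 v w hvw f hf f' hf' _ (τ1 v w hvw f hf).1 hcl fun z hz hzD => ?_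
    have h4 := (τ1 v w hvw f hf).2 z hz (hgd hzD)
    linarith
  refine ⟨R, θ, η, τ, hR, hθ, hη, hηδ, fun v w hvw f hf => (τ1 v w hvw f hf).1, fun v w hvw f hf => (τ1 v w hvw f hf).2, τ3, ?_⟩
  intro θ' hθ'
  obtain ⟨η', hη', -, h4⟩ := h (min θ' θ) (lt_min hθ' hθ) (min_le_right _ _)
  refine ⟨min η' η, lt_min hη' hη, min_le_right _ _, fun v w hvw f hf z hz hzD => ?_⟩
  obtain ⟨f', hf', h5⟩ := (h4 _ (mem_tb v) _ (mem_tb w) (by rw [hn]; exact hvw.trans (min_le_left _ _)) f hf).1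
  have h6 : f' = τ v w f := by
    refine τ3 v w (hvw.trans (min_le_right _ _)) f hf f' hf' fun z hz hzD => ?_
    have h7 := h5 z hz (hgd hzD)
    have h8 := min_le_right θ' θ
    linarith
  rw [← h6]
  exact (h5 z hz hzD).trans (min_le_left _ _)

/-- the shift along the line -/
private theorem sh_shift (hX : IsCone X) (ha : ‖a‖ = 1) (hE : ∀ z : ℂ, z • a ∈ E) {R θ η : ℝ} {τ : E → E → (ℂ → MN N) → ℂ → MN N} (hθ : 0 < θ)
    (hη : 0 < η)
    (t3 : ∀ v w : E, ‖v - w‖ ≤ η → ∀ f ∈ Hc X Λ u a (b + v), ∀ f' ∈ Hc X Λ u a (b + w),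
        (∀ z ∈ closedBall (0 : ℂ) R, b + v + z • a ∈ Gd D (3 / 4 * δ) → dist (f' z) (f z) ≤ 2 * θ) → f' = τ v w f)
    {ψ : E → ℂ → MN N} (p1 : ∀ v : E, ψ v ∈ Hc X Λ u a (b + v)) (p2 : ∀ v w : E, ‖v - w‖ ≤ η / 3 → ψ w = τ v w (ψ v)) (v : E) (z : ℂ) :
    ψ (v + ⟨z • a, hE z⟩) = fun w => ψ v (z + w) := by
  have hcont : Continuous (ψ v) := hc_cont hX (p1 v)
  have huc : UniformContinuousOn (ψ v) (closedBall (0 : ℂ) (R + ‖z‖)) :=
    (isCompact_closedBall _ _).uniformContinuousOn_of_continuous hcont.continuousOn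
  obtain ⟨ε, hε, hu⟩ := Metric.uniformContinuousOn_iff.1 huc θ hθ
  obtain ⟨n, hn⟩ := exists_nat_gt (max (‖z‖ / ε) (‖z‖ / (η / 3)))
  have hn1 : ‖z‖ / ε < n := (le_max_left _ _).trans_lt hn
  have hn2 : ‖z‖ / (η / 3) < n := (le_max_right _ _).trans_lt hn
  have hn0 : (0 : ℝ) < n := lt_of_le_of_lt (by positivity) hn1
  have hn0' : (n : ℂ) ≠ 0 := by
    have : (n : ℝ) ≠ 0 := hn0.ne'
    exact_mod_cast this
  rw [div_lt_iff₀ hε] at hn1
  rw [div_lt_iff₀ (by positivity)] at hn2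
  have hstep1 : ‖z‖ / n < ε := by
    rw [div_lt_iff₀ hn0]
    linarith
  have hstep2 : ‖z‖ / n ≤ η / 3 := by
    rw [div_le_iff₀ hn0]
    linarith
  -- the points of the subdivision
  have hz : ∀ i : ℕ, ‖((i : ℂ) / n * z) - (((i + 1 : ℕ) : ℂ) / n * z)‖ = ‖z‖ / n := by
    intro i
    have e : ((i : ℂ) / n * z) - (((i + 1 : ℕ) : ℂ) / n * z) = -(z / n) := by
      push_cast
      field_simp
      ring
    rw [e, norm_neg, norm_div, Complex.norm_natCast]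
  have hzi : ∀ i : ℕ, i ≤ n → ‖(i : ℂ) / n * z‖ ≤ ‖z‖ := by
    intro i hi
    rw [norm_mul, norm_div, Complex.norm_natCast, Complex.norm_natCast]
    have h4 : (i : ℝ) / n ≤ 1 := by
      rw [div_le_one hn0]
      exact_mod_cast hi
    exact mul_le_of_le_one_left (norm_nonneg _) h4
  have hG : ∀ z' : ℂ, (fun w => ψ v (z' + w)) ∈ Hc X Λ u a (b + ((v + ⟨z' • a, hE z'⟩ : E) : Vd (k + 1))) := by
    intro z'
    have h4 := hc_add (p1 v) z'
    rwa [add_assoc] at h4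
  have key : ∀ i : ℕ, i ≤ n → ψ (v + ⟨((i : ℂ) / n * z) • a, hE _⟩) = fun w => ψ v ((i : ℂ) / n * z + w) := by
    intro i
    induction i with
    | zero =>
      intro _
      have e : (⟨(((0 : ℕ) : ℂ) / n * z) • a, hE _⟩ : E) = 0 := by
        ext1
        simp
      rw [e, add_zero]
      funext w
      congr 1
      simp
    | succ i ih =>
      intro hi
      have ih' := ih (by omega)
      have hd : ‖(v + ⟨((i : ℂ) / n * z) • a, hE _⟩ : E) - (v + ⟨(((i + 1 : ℕ) : ℂ) / n * z) • a, hE _⟩)‖ = ‖z‖ / n := by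
        rw [add_sub_add_left_eq_sub, Submodule.coe_norm, Submodule.coe_sub]
        show ‖((i : ℂ) / n * z) • a - (((i + 1 : ℕ) : ℂ) / n * z) • a‖ = ‖z‖ / n
        rw [← sub_smul, norm_smul, ha, mul_one]
        exact hz i
      rw [p2 _ _ (by rw [hd]; exact hstep2), ih']
      symm
      refine t3 _ _ (by rw [hd]; linarith) _ (hG _) _ (hG _) fun w hw _ => ?_
      have hw' : ‖w‖ ≤ R := by
        rwa [mem_closedBall_zero_iff] at hw
      have h5 : dist (ψ v (((i + 1 : ℕ) : ℂ) / n * z + w)) (ψ v ((i : ℂ) / n * z + w)) < θ := by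
        refine hu _ ?_ _ ?_ ?_
        · rw [mem_closedBall_zero_iff]
          refine (norm_add_le _ _).trans ?_
          have := hzi (i + 1) hi
          linarith
        · rw [mem_closedBall_zero_iff]
          refine (norm_add_le _ _).trans ?_
          have := hzi i (by omega)
          linarith
        · rw [dist_comm, dist_eq_norm, add_sub_add_right_eq_sub, hz i]
          exact hstep1
      linarith
  have h6 := key n le_rfl
  have e : (n : ℂ) / n * z = z := by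
    rw [div_self hn0', one_mul]
  rw [e] at h6
  exact h6

theorem exists_sht (S : DA X Λ u D B Bad a Γ W α c₀ C₀ ρ δ) (hE : CE X Λ u a b E) {f : ℂ → MN N} (hf : f ∈ Hc X Λ u a b) :
    ∃ φ : Vd (k + 1) → MN N, Sht X Λ u D a (Tb b E) φ ∧ ∀ z : ℂ, φ (b + z • a) = f z := by
  classical
  have hX := S.geo.cone
  have hδ := S.lc.δ_pos
  obtain ⟨R, θ, η, τ, hR, hθ, hη, hηδ, t1, t2, t3, t4⟩ := tr_exists S hE
  have c2 : ∀ v : E, ∀ f ∈ Hc X Λ u a (b + v), τ v v f = f := by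
    intro v f hf
    refine (t3 v v (by rw [sub_self, norm_zero]; exact hη.le) f hf f hf fun z _ _ => ?_).symm
    rw [dist_self]
    positivity
  have c3 : ∀ v₁ v₂ v₃ : E, ‖v₁ - v₂‖ ≤ η → ‖v₂ - v₃‖ ≤ η → ‖v₁ - v₃‖ ≤ η → ∀ f ∈ Hc X Λ u a (b + v₁),
      τ v₂ v₃ (τ v₁ v₂ f) = τ v₁ v₃ f := by
    intro v₁ v₂ v₃ h12 h23 h13 f hf
    refine t3 v₁ v₃ h13 f hf _ (t1 v₂ v₃ h23 _ (t1 v₁ v₂ h12 f hf)) fun z hz hzD => ?_
    have h4 : b + (v₂ : Vd (k + 1)) + z • a ∈ Gd D (δ / 2) := by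
      have h5 : ‖(b + (v₂ : Vd (k + 1)) + z • a) - (b + v₁ + z • a)‖ ≤ η := by
        rw [add_sub_add_right_eq_sub, add_sub_add_left_eq_sub, ← Submodule.coe_sub, ← Submodule.coe_norm, norm_sub_rev]
        exact h12
      exact gd_mono (by linarith) (gd_near hzD h5)
    have h6 := t2 v₂ v₃ h23 _ (t1 v₁ v₂ h12 f hf) z hz h4
    have h7 := t2 v₁ v₂ h12 f hf z hz (gd_mono (by linarith) hzD)
    have h8 := dist_triangle (τ v₂ v₃ (τ v₁ v₂ f) z) (τ v₁ v₂ f z) (f z)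
    linarith
  obtain ⟨ψ, p0, p1, p2⟩ := chain_ext (V := E) (H := fun v : E => Hc X Λ u a (b + v)) (τ := τ) hη t1 c2 c3 (f := f) (by simpa using hf)
  have hsh := sh_shift hX S.lg.norm hE.mem hθ hη t3 p1 p2
  let φ : Vd (k + 1) → MN N := fun y => if h : y - b ∈ E then ψ ⟨y - b, h⟩ 0 else f 0
  have hφ : ∀ v : E, φ (b + v) = ψ v 0 := by
    intro v
    have h4 : b + (v : Vd (k + 1)) - b ∈ E := mem_tb v
    have h5 : φ (b + v) = ψ ⟨b + (v : Vd (k + 1)) - b, h4⟩ 0 := dif_pos h4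
    have h6 : (⟨b + (v : Vd (k + 1)) - b, h4⟩ : E) = v := Subtype.ext (add_sub_cancel_left b (v : Vd (k + 1)))
    rw [h5, h6]
  have hφz : ∀ (v : E) (z : ℂ), φ (b + v + z • a) = ψ v z := by
    intro v z
    have h4 := hφ (v + ⟨z • a, hE.mem z⟩)
    have h5 : ψ (v + ⟨z • a, hE.mem z⟩) 0 = ψ v z := by
      rw [hsh v z]
      show ψ v (z + 0) = ψ v z
      rw [add_zero]
    rw [h5, Submodule.coe_add, ← add_assoc] at h4
    exact h4
  have hv : ∀ y ∈ Tb b E, ∃ v : E, y = b + v := fun y hy => ⟨⟨y - b, hy⟩, (add_sub_cancel b y).symm⟩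
  have hline : ∀ y ∈ Tb b E, (fun z : ℂ => φ (y + z • a)) ∈ Hc X Λ u a y := by
    intro y hy
    obtain ⟨v, rfl⟩ := hv y hy
    have h4 : (fun z : ℂ => φ (b + v + z • a)) = ψ v := funext fun z => hφz v z
    rw [h4]
    exact p1 v
  have hcont : ∀ y ∈ Tb b E, y ∈ Gd D (δ / 2) → ContinuousWithinAt φ (Tb b E) y := by
    intro y hy hyD
    obtain ⟨v, rfl⟩ := hv y hy
    rw [Metric.continuousWithinAt_iff]
    intro ε hε
    obtain ⟨η', hη', hη'η, h4⟩ := t4 (ε / 2) (by positivity)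
    refine ⟨min η' (η / 3), lt_min hη' (by positivity), fun x hx hxd => ?_⟩
    obtain ⟨w, rfl⟩ := hv x hx
    have h5 : ‖v - w‖ < min η' (η / 3) := by
      rw [dist_eq_norm, add_sub_add_left_eq_sub, ← Submodule.coe_sub, ← Submodule.coe_norm, norm_sub_rev] at hxd
      exact hxd
    have h6 := p2 v w (h5.le.trans (min_le_right _ _))
    have h7 := h4 v w (h5.le.trans (min_le_left _ _)) (ψ v) (p1 v) 0 (mem_closedBall_self hR.le) (by rwa [zero_smul, add_zero])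
    rw [hφ, hφ, h6]
    linarith
  refine ⟨φ, ⟨hline, fun y hy hyD => ?_⟩, fun z => ?_⟩
  · show Tendsto φ (𝓝[Tb b E] y) (𝓝 (φ y))
    rw [tendsto_iff_ultrafilter]
    intro 𝒰 h𝒰
    have hy1 : Tendsto (fun n : Vd (k + 1) => n) (𝒰 : Filter (Vd (k + 1))) (𝓝 y) := h𝒰.trans nhdsWithin_le_nhds
    have hT : ∀ᶠ n in (𝒰 : Filter (Vd (k + 1))), n ∈ Tb b E := h𝒰 self_mem_nhdsWithin
    obtain ⟨g, hg, hlm⟩ := hc_closed S.geo S.lg S.nl hy1 (f := fun n z => φ (n + z • a)) (hT.mono fun n hn => hline n hn)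
    have hgh : g = fun z => φ (y + z • a) := by
      obtain ⟨r, hr, -, hth⟩ := S.lc.thick y
      refine hc_eq hX hg (hline y hy) (z₀ := (r : ℂ)) ?_
      have h4 : ∀ᶠ z in 𝓝 (r : ℂ), |‖z‖ - r| < δ := by
        have h5 : Tendsto (fun z : ℂ => |‖z‖ - r|) (𝓝 (r : ℂ)) (𝓝 |‖(r : ℂ)‖ - r|) := by
          have h6 : Continuous fun z : ℂ => |‖z‖ - r| := (continuous_norm.sub continuous_const).abs
          exact h6.continuousAt
        have h6 : |‖(r : ℂ)‖ - r| < δ := by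
          rw [Complex.norm_real, Real.norm_of_nonneg hr.le, sub_self, abs_zero]
          exact hδ
        exact h5.eventually_lt_const h6
      have h5 : ∀ᶠ z in 𝓝[≠] (r : ℂ), g z = φ (y + z • a) := by
        refine (h4.filter_mono nhdsWithin_le_nhds).mono fun z hz => ?_
        have h6 : y + z • a ∈ Gd D (2 * δ) := hth y (by rw [sub_self, norm_zero]; exact hδ.le) z hz.le
        have h7 : Tendsto (fun n : Vd (k + 1) => φ (n + z • a)) (𝒰 : Filter (Vd (k + 1))) (𝓝 (g z)) :=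
          hlm z (gd_notMem (by positivity) h6) (fun _ => z) tendsto_const_nhds
        have h8 : Tendsto (fun n : Vd (k + 1) => φ (n + z • a)) (𝒰 : Filter (Vd (k + 1))) (𝓝 (φ (y + z • a))) := by
          have h9 := hcont (y + z • a) (tb_add hy (hE.mem z)) (gd_mono (by linarith) h6)
          refine h9.tendsto.comp (tendsto_nhdsWithin_iff.2 ⟨hy1.add_const _, hT.mono fun n hn => tb_add hn (hE.mem z)⟩)
        exact tendsto_nhds_unique h7 h8
      exact h5.frequently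
    have h4 := hlm 0 (by rwa [zero_smul, add_zero]) (fun _ => 0) tendsto_const_nhds
    rw [hgh] at h4
    simpa using h4
  · have h4 := hφz 0 z
    rw [Submodule.coe_zero, add_zero, p0] at h4
    exact h4

theorem sht_lm (S : DA X Λ u D B Bad a Γ W α c₀ C₀ ρ δ) (hE : CE X Λ u a b E) {φ : Vd (k + 1) → MN N} (hφ : Sht X Λ u D a (Tb b E) φ) {ι : Type*} {𝒰 : Ultrafilter ι} {y : ι → Vd (k + 1)}
    {y₀ : Vd (k + 1)} (hy : Tendsto y 𝒰 (𝓝 y₀)) (hyT : ∀ᶠ n in (𝒰 : Filter ι), y n ∈ Tb b E) (hy₀ : y₀ ∈ Tb b E) :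
    Lm D a 𝒰 y₀ (fun n z => φ (y n + z • a)) fun z => φ (y₀ + z • a) := by
  intro z hz w hw
  have h1 := hφ.cont (y₀ + z • a) (tb_add hy₀ (hE.mem z)) hz
  exact h1.tendsto.comp (tendsto_nhdsWithin_iff.2 ⟨hy.add (hw.smul_const a), hyT.mono fun n hn => tb_add hn (hE.mem (w n))⟩)

/-- two sheets which agree on one line agree -/
theorem sht_unique (S : DA X Λ u D B Bad a Γ W α c₀ C₀ ρ δ) (hE : CE X Λ u a b E) {φ ψ : Vd (k + 1) → MN N} (hφ : Sht X Λ u D a (Tb b E) φ) (hψ : Sht X Λ u D a (Tb b E) ψ)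
    {y : Vd (k + 1)} (hy : y ∈ Tb b E) (h : ∀ z : ℂ, φ (y + z • a) = ψ (y + z • a)) : ∀ y' ∈ Tb b E, φ y' = ψ y' := by
  intro y' hy'
  have hX := S.geo.cone
  have hd : y' - y ∈ E := by
    have h1 : y' - y = (y' - b) - (y - b) := by abel
    rw [h1]
    exact E.sub_mem hy' hy
  have hT : ∀ t : ℝ, y + t • (y' - y) ∈ Tb b E := fun t => tb_add hy (E.smul_mem t hd)
  have hc : Continuous fun t : ℝ => y + t • (y' - y) := continuous_const.add (continuous_id.smul continuous_const)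
  let A : Set ℝ := {t | ∀ z : ℂ, φ (y + t • (y' - y) + z • a) = ψ (y + t • (y' - y) + z • a)}
  have hA0 : (0 : ℝ) ∈ A := by
    intro z
    rw [zero_smul, add_zero]
    exact h z
  have hopen : IsOpen A := by
    rw [isOpen_iff_mem_nhds]
    intro t ht
    rw [mem_iff_ultrafilter]
    intro 𝒰 h𝒰
    have hy1 : Tendsto (fun s : ℝ => y + s • (y' - y)) (𝒰 : Filter ℝ) (𝓝 (y + t • (y' - y))) := (hc.tendsto t).mono_left h𝒰
    have l1 := sht_lm S hE hφ hy1 (Eventually.of_forall hT) (hT t)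
    have l2 := sht_lm S hE hψ hy1 (Eventually.of_forall hT) (hT t)
    have e : (fun z : ℂ => ψ (y + t • (y' - y) + z • a)) = fun z => φ (y + t • (y' - y) + z • a) := funext fun z => (ht z).symm
    rw [e] at l2
    have h1 := lm_sep S hy1 (f := fun s z => φ (y + s • (y' - y) + z • a)) (g := fun s z => ψ (y + s • (y' - y) + z • a))
      (Eventually.of_forall fun s => hφ.line _ (hT s)) (Eventually.of_forall fun s => hψ.line _ (hT s)) (hφ.line _ (hT t)) l1 l2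
    exact h1.mono fun s hs z => congrFun hs z
  have hclosed : IsClosed A := by
    rw [isClosed_iff_ultrafilter]
    intro t 𝒰 h𝒰 hAU
    have hy1 : Tendsto (fun s : ℝ => y + s • (y' - y)) (𝒰 : Filter ℝ) (𝓝 (y + t • (y' - y))) := (hc.tendsto t).mono_left h𝒰
    have l1 := sht_lm S hE hφ hy1 (Eventually.of_forall hT) (hT t)
    have l2 := sht_lm S hE hψ hy1 (Eventually.of_forall hT) (hT t)
    have l3 : Lm D a (𝒰 : Filter ℝ) (y + t • (y' - y)) (fun s z => φ (y + s • (y' - y) + z • a)) fun z => ψ (y + t • (y' - y) + z • a) := by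
      intro z hz w hw
      refine (l2 z hz w hw).congr' ?_
      have hAU' : ∀ᶠ s in (𝒰 : Filter ℝ), s ∈ A := hAU
      exact hAU'.mono fun s hs => (hs (w s)).symm
    have h1 := Lm.unique4 hX S.lg l1 l3 (hφ.line _ (hT t)) (hψ.line _ (hT t))
    exact fun z => congrFun h1 z
  have hAu : A = Set.univ := IsClopen.eq_univ ⟨hclosed, hopen⟩ ⟨0, hA0⟩
  have h1 : (1 : ℝ) ∈ A := hAu ▸ Set.mem_univ 1
  have h2 := h1 0
  rw [one_smul, zero_smul, add_zero, add_sub_cancel] at h2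
  exact h2

theorem sht_add {φ : Vd (k + 1) → MN N} (hφ : Sht X Λ u D a (Tb b E) φ) (hL : LG Λ D Bad a) {l : Vd (k + 1)} (hl : l ∈ Λ) (hlE : l ∈ E) :
    Sht X Λ u D a (Tb b E) fun y => φ (y + l) := by
  refine ⟨fun y hy => ?_, fun y hy hyD => ?_⟩
  · have h1 := hφ.line (y + l) (tb_add hy hlE)
    rw [hc_per hl] at h1
    have h2 : (fun z : ℂ => φ (y + z • a + l)) = fun z => φ (y + l + z • a) := by
      funext z
      rw [add_right_comm]
    rw [h2]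
    exact h1
  · have h1 : y + l ∉ D := by
      intro h2
      have h3 := hL.D_inv _ h2 (-l) (Λ.neg_mem hl)
      rw [add_neg_cancel_right] at h3
      exact hyD h3
    have h2 := hφ.cont (y + l) (tb_add hy hlE) h1
    have h3 : Tendsto (fun x : Vd (k + 1) => x + l) (𝓝 y) (𝓝 (y + l)) := (continuous_id.add continuous_const).tendsto y
    exact h2.tendsto.comp (tendsto_nhdsWithin_iff.2 ⟨h3.mono_left nhdsWithin_le_nhds, eventually_mem_nhdsWithin.mono fun x hx => tb_add hx hlE⟩)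

/-- the sheets are finitely many -/
theorem sht_finite (S : DA X Λ u D B Bad a Γ W α c₀ C₀ ρ δ) (hE : CE X Λ u a b E) : ∃ SS : Set (Vd (k + 1) → MN N), SS.Finite ∧
    (∀ φ ∈ SS, Sht X Λ u D a (Tb b E) φ) ∧ (∀ ψ, Sht X Λ u D a (Tb b E) ψ → ∃ φ ∈ SS, ∀ y ∈ Tb b E, ψ y = φ y) ∧
    ∀ φ ∈ SS, ∀ ψ ∈ SS, (∃ y ∈ Tb b E, ∀ z : ℂ, φ (y + z • a) = ψ (y + z • a)) → φ = ψ := by
  classical
  have hb : b ∈ Tb b E := by
    show b - b ∈ E
    rw [sub_self]
    exact E.zero_mem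
  have hfin := hc_finite S b
  choose! Φ h1 h2 using fun (f : ℂ → MN N) (hf : f ∈ Hc X Λ u a b) => exists_sht S hE (b := b) hf
  refine ⟨Φ '' Hc X Λ u a b, hfin.image Φ, ?_, fun ψ hψ => ?_, ?_⟩
  · rintro _ ⟨f, hf, rfl⟩
    exact h1 f hf
  · have h3 := hψ.line b hb
    refine ⟨_, ⟨_, h3, rfl⟩, ?_⟩
    exact sht_unique S hE hψ (h1 _ h3) hb fun z => (h2 _ h3 z).symm
  · rintro _ ⟨f, hf, rfl⟩ _ ⟨g, hg, rfl⟩ ⟨y, hy, h⟩
    have h3 := sht_unique S hE (h1 f hf) (h1 g hg) hy h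
    have h4 : f = g := by
      funext z
      rw [← h2 f hf z, ← h2 g hg z]
      exact h3 _ (tb_add hb (hE.mem z))
    rw [h4]

end Pool.Agent.G4.A
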